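import Pool.Agent.Work.MP_b25393_ag.U.Defs

/-!
# Arrangements with boundedly many slopes: statements of the affine items

Paper proof: note 3744 (Theorem U). Every docstring contains the proof of its item. Every item may
use all EARLIER statements of this file as hypotheses.
-/

set_option autoImplicit false

namespace Pool.Agent.Work.MP_b25393_ag.U

open scoped Classical

/-! ## A. Strips -/

/-- SUC. Counting consecutive pairs. Let `T = Z ∪ O` (disjoint). `T` has `|T| - 1` consecutive pairs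
(successor map, `T` without its maximum). Pairs with both ends in `Z`: at most `|C|` of them (choose
`c` strictly between: different consecutive pairs give different `c`). Pairs with left end in `O`:
`≤ |O|`; pairs with right end in `O`: `≤ |O|`; pairs with both ends in `O` are counted in both. So
`|Z| + |O| - 1 ≤ |C| + 2|O| - #(both in O)`. -/
def S_SUC : Prop := ∀ Z O C : Finset ℝ, Disjoint Z O →
  (∀ z z' : ℝ, Nxt (Z ∪ O) z z' → z ∈ Z → z' ∈ Z → ∃ c ∈ C, z < c ∧ c < z') →
  Z.card + ((nxt (Z ∪ O)).filter fun q => q.1 ∈ O ∧ q.2 ∈ O).card ≤ C.card + O.card + 1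

/-- NXT. `T` has at most `|T|` consecutive pairs, and a real number lies in at most two closed
intervals between consecutive elements. (A consecutive pair is determined by its left end. If
`w ≤ o ≤ w'` then either `w < o` and `w` is the largest element `< o`, or `w = o`.) -/
def S_NXT : Prop := ∀ (T : Finset ℝ), (nxt T).card ≤ T.card ∧
  (T.Nonempty → (nxt T).card + 1 = T.card) ∧
  ∀ o : ℝ, ((nxt T).filter fun q => q.1 ≤ o ∧ o ≤ q.2).card ≤ 2

/-- CHN. Between two consecutive closings of the gap `r` there is a chain vertex. Proof. Fix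
`x₀ ∈ (x₁, x₂)`. The gap `r` is open at `x₀`, so `L = R ∪ R'` with `|R| = r` and all values of `R`
smaller than all values of `R'` at `x₀` (`1 ≤ r < |L|` by `Cl L r x₁`). First crossing: if
`val g x < val h x` (or `=`) for some `h ∈ R`, `g ∈ R'` and some `x ∈ (x₀, x₂)` (or `(x₁, x₀)`), take the crossing
point `x*` of such a pair closest to `x₀`: there `R ≤ R'` with one equality, so the gap `r` is
closed at `x*`: contradiction. Hence `R < R'` on `(x₁, x₂)`. Suppose there is no chain vertex over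
`(x₁, x₂)`. Then at `x₀` the maximum of `R` is attained by one line `h` only and the minimum of
`R'` by one line `g` only, and by the same first crossing argument `h` is the strict maximum of
`R` and `g` the strict minimum of `R'` on all of `(x₁, x₂)` (a crossing of `h` with another line
of `R` closest to `x₀` is a vertex `v` with `lo + on = r`, one of `g` a vertex with `lo = r`). By
continuity `R ≤ h ≤ g ≤ R'` at `x₁` and `x₂`, and since the gap is closed there, `h = g` at `x₁`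
and at `x₂` (if `h < g` at `x₁`, no `y` has `lo < r < lo + on`). Two different lines do not
meet twice. -/
def S_CHN : Prop := ∀ (L : Finset (ℝ × ℝ)) (r : ℕ) (x₁ x₂ : ℝ), x₁ < x₂ → Cl L r x₁ → Cl L r x₂ →
  (∀ x, x₁ < x → x < x₂ → ¬ Cl L r x) → ∃ v ∈ chn L r, x₁ < v.1 ∧ v.1 < x₂

/-- CNT. Over `x` the gaps closed are the `r` with `lo < r < lo + on` for one of the `nv` values
`y`: `on - 1` of them for each value, disjoint for different values (if `y < y'` then
`lo y + on y ≤ lo y'`), and the numbers `on` add up to `|L|`. -/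
def S_CNT : Prop := ∀ (L : Finset (ℝ × ℝ)) (x : ℝ),
  ((Finset.Ico 1 L.card).filter fun r => Cl L r x).card + nv L x = L.card ∧
  ∑ v ∈ (vts L).filter (fun v => v.1 = x), ((on L v : ℤ) - 1) + nv L x = L.card

/-- STR. Strip Melchior inequality with gain. For every gap `r`, `1 ≤ r < N := |L|`, apply SUC to
`Z = {x ∈ (vts L).image fst | Cl L r x}`, `O = {w ∈ W | ¬ Cl L r w}`, `C` = abscissae of the
`v ∈ chn L r` with `v.1 ∉ W`; the hypothesis of SUC is CHN (a point where the gap is closed is the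
abscissa of a vertex; a chain vertex over a wall `w` strictly between would give `w ∈ O` strictly
between). A never closing pair `(r, (w, w'))` of `nev` is a consecutive pair of `Z ∪ O` with both
ends in `O`. Add up over `r`: `∑ |Z_r| = ∑_x (N - nv x) = ∑_{v ∈ vts} (on v - 1)`,
`∑ |O_r| = ∑_{w ∈ W} (nv w - 1)` (CNT), `∑ |C_r| ≤ 2 #{v ∈ vts | v.1 ∉ W}` (each vertex is in `chn`
for at most two `r`), so
`∑_{v ∈ vts} (on v - 1) + |nev| ≤ 2 #{v | v.1 ∉ W} + ∑_w (nv w - 1) + N - 1`, and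
`∑_{v.1 ∈ W} (on v - 1) = ∑_{w ∈ W} (N - nv w)`. -/
def S_STR : Prop := ∀ (L : Finset (ℝ × ℝ)) (W : Finset ℝ), 1 ≤ L.card →
  ((nev L W).card : ℤ) + W.card + 1 ≤ DW L W + L.card

/-- CLG. A line `c` which meets no other line over `[w, w']` has constant rank there (every other
line stays on its side), `ρ = lo L (x, val c x)`, and `on L (x, val c x) = 1`; the gap `ρ + 1` (just
above `c`) is not closed at any `x ∈ [w, w']`: if `lo y < ρ + 1 < lo y + on y` then `y < val c x`,
`y = val c x`, `y > val c x` are all impossible. Different clean lines have different ranks (compare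
their values at `w`), and only the rank `ρ = |L| - 1` gives a gap outside `Ico 1 |L|`. -/
def S_CLG : Prop := ∀ (L : Finset (ℝ × ℝ)) (w w' : ℝ), w ≤ w' →
  (L.filter fun c => Cln L c w w').card ≤
    ((Finset.Ico 1 L.card).filter fun r => ∀ x, w ≤ x → x ≤ w' → ¬ Cl L r x).card + 1

/-- STC. From STR, CLG and NXT: add CLG over the pairs of `nxt W`. -/
def S_STC : Prop := ∀ (L : Finset (ℝ × ℝ)) (W : Finset ℝ), 1 ≤ L.card →
  (((L ×ˢ nxt W).filter fun q => Cln L q.1 q.2.1 q.2.2).card : ℤ) ≤ DW L W + L.card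

/-- TDD. Under `(x, y) ↦ (y - σ x, x)` (a bijection of the plane) the lines of slope `≠ σ` become
the lines of `tL F σ` (`tl σ` is injective on them; `val l x = y` iff
`val (tl σ l) (y - σ x) = x`), those of slope `σ` the walls `cls F σ`. A point over a
non wall is a vertex of `F` iff its image is a vertex of `tL F σ`, with the same multiplicity; a point
`p` over a wall is a vertex of `F` iff at least one line of `tL` passes through its image, with
multiplicity `on + 1`; `∑ (2 - on)` over the points over the wall `w` with `on ≥ 1` is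
`2 nv w - |tL|`. -/
def S_TDD : Prop := ∀ (F : Finset (ℝ × ℝ)) (σ : ℝ), DD F = DW (tL F σ) (cls F σ) ∧
  (tL F σ).card = (F.filter fun l => l.1 ≠ σ).card

/-- CLA. The clean pairs of `F` with respect to the walls of slope `σ` are at most `DD F + |F|`.
From STC for `tL F σ`, `cls F σ` and TDD: a clean pair `(c, (w, w'))` of `F` gives the pair
`(tl σ c, (w, w'))`. If `F` has no line of slope `≠ σ` both sides are trivial (`DD F = 0`). -/
def S_CLA : Prop := ∀ (F : Finset (ℝ × ℝ)) (σ : ℝ), ((cln F σ).card : ℤ) ≤ DD F + F.card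

/-! ## B. Counting clean strips of one line -/

/-- CLC. Let `T` contain all lines of slope `≠ σ` (other than `c`) which meet `c` at a point with
`σ`-offset in `[u, v]`. The consecutive pairs of `cls F σ` inside `[u, v]` are at least
`cnt F σ u v - 1`; each line of `T` meets `c` in at most one point (`eq_crs`, `slope_ne`), whose
offset lies in at most two closed intervals (NXT). -/
def S_CLC : Prop := ∀ (F : Finset (ℝ × ℝ)) (σ u v : ℝ), ∀ c ∈ F, c.1 ≠ σ → ∀ T : Finset (ℝ × ℝ),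
  (∀ l ∈ F, l ≠ c → l.1 ≠ σ → ∀ x, val l x = val c x → u ≤ val c x - σ * x →
    val c x - σ * x ≤ v → l ∈ T) →
  cnt F σ u v ≤
    ((nxt (cls F σ)).filter fun q => u ≤ q.1 ∧ q.2 ≤ v ∧ ClF F σ c q.1 q.2).card + 1 + 2 * T.card

/-- BOX. If a set `B` of lines of slope `≠ σ` is such that every `c ∈ B` has at most `t` such third
lines, then `|B| (cnt F σ u v - 1 - 2t) ≤ DD F + |F|` (CLC for each `c ∈ B`, CLA). -/
def S_BOX : Prop := ∀ (F B : Finset (ℝ × ℝ)) (σ u v : ℝ) (t : ℕ), B ⊆ F →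
  (∀ c ∈ B, c.1 ≠ σ ∧ ∃ T : Finset (ℝ × ℝ), T.card ≤ t ∧
    ∀ l ∈ F, l ≠ c → l.1 ≠ σ → ∀ x, val l x = val c x → u ≤ val c x - σ * x →
      val c x - σ * x ≤ v → l ∈ T) →
  (B.card : ℤ) * ((cnt F σ u v : ℤ) - 1 - 2 * t) ≤ DD F + F.card

/-- TAI. Tail lines. There is `C` (depending on `S` only) such that, if every class has at most `t`
lines with `|offset| > 1`, then for every `σ₀ ∈ S` the number of lines of other slopes with
`|offset| > C` times `(number of lines of slope σ₀ with offset in [-1,1]) - 1 - 2|S|t` is at most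
`DD F + |F|`. Proof: BOX with `u = -1`, `v = 1`, `T` = all lines of `F` with `|offset| > 1`
(`|T| ≤ |S| t`). Let `c` have slope `s ≠ σ₀` and `|offset| = |c.2| > C`; at a point `X = (x, y)` of `c` with
`b := y - σ₀ x ∈ [-1, 1]` one has `(σ₀ - s) x = c.2 - b`, so `|x| ≥ (C - 1)/|σ₀ - s|`; a line `l` of slope
`s' ≠ σ₀`, `l ≠ c`, through `X` has `s' ≠ s` and offset `b + (σ₀ - s') x`, of absolute value
`≥ |σ₀ - s'| (C - 1)/|σ₀ - s| - 1 > 1` if `C - 1 > 2 |σ₀ - s| / |σ₀ - s'|` for all triples. -/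
def S_TAI : Prop := ∀ S : Finset ℝ, ∃ C : ℝ, 1 ≤ C ∧ ∀ (F : Finset (ℝ × ℝ)) (t : ℕ),
  (∀ l ∈ F, l.1 ∈ S) → (∀ σ ∈ S, tai F σ 1 ≤ t) → ∀ σ₀ ∈ S,
    ((F.filter fun l => l.1 ≠ σ₀ ∧ C < |l.2|).card : ℤ) *
      ((cnt F σ₀ (-1) 1 : ℤ) - 1 - 2 * (S.card * t)) ≤ DD F + F.card

/-! ## C. Normalisation -/

/-- TRN. Invariance: `tr` is injective, `val (tr l) (lam (x - x₀)) = lam (val l x - y₀)`, so the
vertices and multiplicities correspond. -/
def S_TRN : Prop := ∀ (F : Finset (ℝ × ℝ)) (x₀ y₀ lam : ℝ), 0 < lam →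
  DD (F.image (tr x₀ y₀ lam)) = DD F ∧ (F.image (tr x₀ y₀ lam)).card = F.card

/-- MED. Every finite set of reals has a median element. -/
def S_MED : Prop := ∀ T : Finset ℝ, T.Nonempty → ∃ m ∈ T,
  (T.card : ℝ) / 2 ≤ ((T.filter fun t => t ≤ m).card : ℝ) ∧
  (T.card : ℝ) / 2 ≤ ((T.filter fun t => m ≤ t).card : ℝ)

/-- SCA. Choice of the scale: `W` := the smallest element `w` of `{|b|} ∪ {0}` such that every class has at
most `K` lines with `|offset| > w`. If `W = 0` then `|F| ≤ |S| (1 + K)`; else the previous element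
`W'` fails for some `σ`, and `|offset| > W'` means `|offset| ≥ W`. -/
def S_SCA : Prop := ∀ (S : Finset ℝ) (F : Finset (ℝ × ℝ)) (K : ℝ), 0 ≤ K → (∀ l ∈ F, l.1 ∈ S) →
  (S.card : ℝ) * (1 + K) < F.card → ∃ W : ℝ, 0 < W ∧ (∀ σ ∈ S, (tai F σ W : ℝ) ≤ K) ∧
    ∃ σ ∈ S, K < ((F.filter fun l => l.1 = σ ∧ W ≤ |l.2|).card : ℝ)

/-- NRM. Normal form. Let `m_i`, `m_j` be median offsets (MED) of the classes `i`, `j` and `(x₀, y₀)` the
point with `y₀ - i x₀ = m_i`, `y₀ - j x₀ = m_j`; `tr x₀ y₀ 1` makes both medians 0. Then take `W` of SCA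
(`K = θ n`) and apply `tr 0 0 (1/W)`. Use TRN. -/
def S_NRM : Prop := ∀ (S : Finset ℝ) (θ β : ℝ), 0 < θ → 0 < β → (S.card : ℝ) * θ < 1 / 2 →
  ∃ N₀ : ℕ, ∀ F : Finset (ℝ × ℝ), (∀ l ∈ F, l.1 ∈ S) → N₀ ≤ F.card → ∀ i ∈ S, ∀ j ∈ S, i ≠ j →
    2 * β * F.card ≤ ((F.filter fun l => l.1 = i).card : ℝ) →
    2 * β * F.card ≤ ((F.filter fun l => l.1 = j).card : ℝ) →
    ∃ F' : Finset (ℝ × ℝ), F'.card = F.card ∧ DD F' = DD F ∧ Nrm S θ β i j F'

/-! ## D. Limit -/

/-- SUP. Mass has support. Otherwise every `t ∈ [u, v]` has `η_t > 0` such that for every `a > 0`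
eventually (ultrafilter) `cnt (t - η_t) (t + η_t) < a |F n|`; cover the compact `[u, v]` by finitely many
intervals. (If `u > v` the count is 0.) -/
def S_SUP : Prop := ∀ (U : Ultrafilter ℕ) (F : ℕ → Finset (ℝ × ℝ)) (σ u v a : ℝ), 0 < a →
  (∀ᶠ n in (U : Filter ℕ), 1 ≤ (F n).card) →
  (∀ᶠ n in (U : Filter ℕ), a * ((F n).card : ℝ) ≤ (cnt (F n) σ u v : ℝ)) →
  ∃ t : ℝ, u ≤ t ∧ t ≤ v ∧ Sp U F σ t

/-- CLO. The support is closed. -/
def S_CLO : Prop := ∀ (U : Ultrafilter ℕ) (F : ℕ → Finset (ℝ × ℝ)) (σ : ℝ),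
  IsClosed {t : ℝ | Sp U F σ t}

/-- TWO. No point lies on lines of exactly two of the limit families. Suppose the contrary, let
`t₃ = y - σ₃ x` for the other slopes; by the ultrafilter property there is `η > 0` such that for
every `a > 0` eventually all `cnt σ₃ (t₃ - η) (t₃ + η) < a n`. Let `η' = η / K`,
`K = 1 + 2 max |σ₁ - σ₃|/|σ₁ - σ₂|`. If `c` has slope `σ₂`, `|c.2 - t₂| ≤ η'`, and `X = (x', y')` on `c` has
`|y' - σ₁ x' - t₁| ≤ η'`, then `|x' - x| ≤ 2η'/|σ₁ - σ₂|` and `|y' - σ₃ x' - t₃| ≤ η`. With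
`a₁ n ≤ cnt σ₁ (t₁ ± η')`, `a₂ n ≤ cnt σ₂ (t₂ ± η')` eventually, BOX (walls of slope `σ₁`, `B` = the lines of
slope `σ₂` with `|offset - t₂| ≤ η'`, `t = ⌊|S| a n⌋`) gives `a₂ n (a₁ n - 1 - 2|S| a n) ≤ DD + n ≤ e n² + n`:
impossible for `a`, `e` small and `n` large. -/
def S_TWO : Prop := ∀ (S : Finset ℝ) (U : Ultrafilter ℕ) (F : ℕ → Finset (ℝ × ℝ)), Sq S U F →
  ∀ σ₁ ∈ S, ∀ σ₂ ∈ S, σ₁ ≠ σ₂ → ∀ x y : ℝ, Sp U F σ₁ (y - σ₁ * x) → Sp U F σ₂ (y - σ₂ * x) →
    ∃ σ₃ ∈ S, σ₃ ≠ σ₁ ∧ σ₃ ≠ σ₂ ∧ Sp U F σ₃ (y - σ₃ * x)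

/-- BDD. No tails: beyond `C` (of TAI) every class has `o(n)` lines. For the slope `σ` use TAI with
`σ₀ ∈ {i, j}`, `σ₀ ≠ σ`, `t = ⌊θ n⌋`: `cnt σ₀ (-1) 1 ≥ (β - θ) n` and
`(β - θ) n - 1 - 2|S| θ n ≥ (β/2) n - 1`, so `tai F σ C (β n/2 - 1) ≤ DD + n ≤ e n² + n`. -/
def S_BDD : Prop := ∀ (S : Finset ℝ) (U : Ultrafilter ℕ) (F : ℕ → Finset (ℝ × ℝ)) (θ β i j : ℝ),
  0 < θ → 0 < β → 8 * ((S.card : ℝ) + 1) * θ ≤ β → i ∈ S → j ∈ S → i ≠ j → Sq S U F →
  (∀ᶠ n in (U : Filter ℕ), Nrm S θ β i j (F n)) →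
  ∃ C : ℝ, 1 ≤ C ∧ ∀ σ ∈ S, ∀ a : ℝ, 0 < a →
    ∀ᶠ n in (U : Filter ℕ), (tai (F n) σ C : ℝ) ≤ a * ((F n).card : ℝ)

/-! ## E. Geometry -/

/-- GFI. Sylvester-Gallai off the vertical direction. Suppose every non vertical line through two
points of `P` contains a third one. Take `p ∈ P` and a non vertical line `ℓ` through two
points of `P`, `p ∉ ℓ`, with minimal vertical distance `δ > 0`; say `p` above `ℓ` (else reflect, or treat both
cases). If `z, z' ∈ ℓ ∩ P` with `p.1 < z.1 < z'.1` (or mirrored), then `z` has the smaller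
vertical distance `δ (z'.1 - z.1)/(z'.1 - p.1)` to the line `p z'`: contradiction. So `ℓ ∩ P` consists of one
point on each side and of `b = (p.1, p.2 - δ) ∈ P`. Every non vertical line through `b` and
another point of `P` has vertical distance `δ` to `p`, and every one through `p` has vertical
distance `δ` to `b`; so they all are minimal and have exactly one further point on each side.
Let `z ∈ P` with `z.1 < p.1` have the minimal slope seen from `b`; let `w` be the point of `P`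
right of `p.1` on the line `b z`, and `z'` the point of `P` left of `p.1` on the line
`p w`. The line `p w` is above the line `b w` left of `w`, so the slope of `b z'` is smaller than that of `b z`:
contradiction. -/
def S_GFI : Prop := ∀ P : Finset (ℝ × ℝ), (∃ p ∈ P, ∃ q ∈ P, p.1 ≠ q.1) →
  (¬ ∃ a b : ℝ, ∀ p ∈ P, p.2 = a * p.1 + b) →
  ∃ a b : ℝ, ∃ p ∈ P, ∃ q ∈ P, p.1 ≠ q.1 ∧ p.2 = a * p.1 + b ∧ q.2 = a * q.1 + b ∧
    ∀ r ∈ P, r.2 = a * r.1 + b → r = p ∨ r = q

/-- GIN. The case of an infinite column `c`. The other columns have finitely many top and bottom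
points (compact columns); the finitely many lines joining two of them (in different columns) meet the column
`c` in finitely many points; choose `p ∈ P` in the column `c` outside them. Let `z ∈ P`, `z.1 ≠ c`, have the
maximal slope seen from `p`. Then `z` is a top point if `z.1 > c` and a bottom point if
`z.1 < c`, and if the line `p z` contained a further point `z' ∈ P`, then `z'.1 ≠ c`, `z'` would have
the same slope, so would be such an extreme point too, and `p` would be on the line joining two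
extreme points. -/
def S_GIN : Prop := ∀ P : Set (ℝ × ℝ), IsCompact P → (Prod.fst '' P).Finite → ∀ c : ℝ,
  {t : ℝ | (c, t) ∈ P}.Infinite → (∃ q ∈ P, q.1 ≠ c) →
  ∃ a b : ℝ, ∃ p ∈ P, ∃ q ∈ P, p.1 ≠ q.1 ∧ p.2 = a * p.1 + b ∧ q.2 = a * q.1 + b ∧
    ∀ r ∈ P, r.2 = a * r.1 + b → r = p ∨ r = q

/-- GEO. From GFI and GIN: if no column is infinite, `P` is finite. -/
def S_GEO : Prop := ∀ P : Set (ℝ × ℝ), IsCompact P → (Prod.fst '' P).Finite →
  (∃ p ∈ P, ∃ q ∈ P, p.1 ≠ q.1) → (¬ ∃ a b : ℝ, ∀ p ∈ P, p.2 = a * p.1 + b) →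
  ∃ a b : ℝ, ∃ p ∈ P, ∃ q ∈ P, p.1 ≠ q.1 ∧ p.2 = a * p.1 + b ∧ q.2 = a * q.1 + b ∧
    ∀ r ∈ P, r.2 = a * r.1 + b → r = p ∨ r = q

/-! ## F. The affine theorem -/

/-- LIM. No normalised sequence. Let `P = {(σ, t) | σ ∈ S, Sp U F σ t}`. It is closed (CLO, `S`
finite) and bounded (BDD: a support point `|t| > C` would give `tai σ C ≥ a n`), so compact, in
finitely many columns. The classes `i`, `j` have support points `t ≤ 0` and `t ≥ 0`, in `[-1, 1]` (SUP for
`[-1, 0]` and `[0, 1]`, mass `≥ (β - θ) n`). So two columns are non empty. If `P` is on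
the line `t = a σ + b` then `a i + b = 0 = a j + b`, `a = b = 0`; but `big`, BDD and SUP give (ultrafilter: fixed
`σ`, fixed sign) a support point with `|t| ≥ 1`: the lines of slope `σ` with `|offset| ≥ 1` are more than
`θ n`, those beyond `C` at most `(θ/3) n`, so `cnt σ 1 C` or `cnt σ (-C) (-1)` is `≥ (θ/3) n`.
GEO gives a line `t = a σ + b` with exactly two points of `P`, in different columns: this
contradicts TWO for the point `(x, y) = (-a, b)`. -/
def S_LIM : Prop := ∀ (S : Finset ℝ) (U : Ultrafilter ℕ) (F : ℕ → Finset (ℝ × ℝ)) (θ β i j : ℝ),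
  0 < θ → 0 < β → 8 * ((S.card : ℝ) + 1) * θ ≤ β → i ∈ S → j ∈ S → i ≠ j → Sq S U F →
  ¬ (∀ᶠ n in (U : Filter ℕ), Nrm S θ β i j (F n))

/-- AFF. The affine theorem. Otherwise, with `e = 1/(n+1)`, `N₀ = n`, there are families `G n`, `|G n| ≥ n`, slopes in
`S`, no class with more than `(1 - δ)|G n|` lines, `DD (G n) < |G n|²/(n+1)`. The largest class `i` has at least
`|G n|/|S|` lines, the other ones together at least `δ |G n|`, so some `j ≠ i` has at least
`δ |G n|/|S|`. Put `2β = min (1, δ)/|S|`, `θ = min (β / (8(|S|+1))) (1/(4(|S|+1)))`; NRM gives normal forms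
`F n` for large `n`; take a non principal ultrafilter; `(i, j)` can be fixed (finitely many pairs); LIM.
(If `δ > 1` or `S` is empty there are no such `F` with `N₀ = 1`.) -/
def S_AFF : Prop := ∀ (S : Finset ℝ) (δ : ℝ), 0 < δ → ∃ e : ℝ, 0 < e ∧ ∃ N₀ : ℕ,
  ∀ F : Finset (ℝ × ℝ), (∀ l ∈ F, l.1 ∈ S) → N₀ ≤ F.card →
    (∀ σ ∈ S, ((F.filter fun l => l.1 = σ).card : ℝ) ≤ (1 - δ) * F.card) →
    e * (F.card : ℝ) ^ 2 ≤ (DD F : ℝ)

end Pool.Agent.Work.MP_b25393_ag.U
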