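import Mathlib

/-!
# Arrangements with boundedly many slopes: definitions (affine part)

A non vertical line `y = s x + b` of the real affine plane is the pair `(s, b)`.
Paper proof: note 3744 (Theorem U).
-/

set_option autoImplicit false

namespace Pool.Agent.Work.MP_b25393_ag.U

open scoped Classical

/-- the ordinate at `x` of the line `l = (s, b)` -/
def val (l : ℝ × ℝ) (x : ℝ) : ℝ := l.1 * x + l.2

/-- number of lines of `L` strictly below the point `p` -/
noncomputable def lo (L : Finset (ℝ × ℝ)) (p : ℝ × ℝ) : ℕ :=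
  (L.filter fun l => val l p.1 < p.2).card

/-- number of lines of `L` through the point `p` -/
noncomputable def on (L : Finset (ℝ × ℝ)) (p : ℝ × ℝ) : ℕ :=
  (L.filter fun l => val l p.1 = p.2).card

/-- the common point of two lines with different slopes -/
noncomputable def crs (l m : ℝ × ℝ) : ℝ × ℝ :=
  ((m.2 - l.2) / (l.1 - m.1), val l ((m.2 - l.2) / (l.1 - m.1)))

/-- the vertices: the points on at least two lines (`mem_vts`) -/
noncomputable def vts (L : Finset (ℝ × ℝ)) : Finset (ℝ × ℝ) :=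
  (L.offDiag.filter fun q => q.1.1 ≠ q.2.1).image fun q => crs q.1 q.2

theorem val_crs_left (l m : ℝ × ℝ) : val l (crs l m).1 = (crs l m).2 := rfl

theorem val_crs_right {l m : ℝ × ℝ} (h : l.1 ≠ m.1) : val m (crs l m).1 = (crs l m).2 := by
  have h' : l.1 - m.1 ≠ 0 := sub_ne_zero.mpr h
  unfold crs val
  field_simp
  ring

/-- two different lines with a common point have different slopes -/
theorem slope_ne {l m : ℝ × ℝ} {x : ℝ} (h : l ≠ m) (hx : val l x = val m x) : l.1 ≠ m.1 := by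
  intro h1
  apply h
  unfold val at hx
  rw [h1] at hx
  exact Prod.ext h1 (add_left_cancel hx)

/-- the common point of two lines is `crs` -/
theorem eq_crs {l m : ℝ × ℝ} {x : ℝ} (h : l.1 ≠ m.1) (hx : val l x = val m x) :
    x = (crs l m).1 := by
  have h' : l.1 - m.1 ≠ 0 := sub_ne_zero.mpr h
  unfold val at hx
  unfold crs
  rw [eq_div_iff h']
  linarith

theorem eq_crs' {l m p : ℝ × ℝ} (h : l.1 ≠ m.1) (h1 : val l p.1 = p.2) (h2 : val m p.1 = p.2) :
    p = crs l m := by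
  have h3 := eq_crs h (h1.trans h2.symm)
  refine Prod.ext h3 ?_
  rw [← h1, h3]
  rfl

theorem mem_vts {L : Finset (ℝ × ℝ)} {p : ℝ × ℝ} : p ∈ vts L ↔ 2 ≤ on L p := by
  unfold vts on
  rw [Finset.mem_image]
  constructor
  · rintro ⟨⟨l, m⟩, hq, rfl⟩
    rw [Finset.mem_filter, Finset.mem_offDiag] at hq
    obtain ⟨⟨h1, h2, h3⟩, h4⟩ := hq
    have : 1 < (L.filter fun n => val n (crs l m).1 = (crs l m).2).card := by
      rw [Finset.one_lt_card]
      exact ⟨l, Finset.mem_filter.mpr ⟨h1, val_crs_left l m⟩, m,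
        Finset.mem_filter.mpr ⟨h2, val_crs_right h4⟩, h3⟩
    exact this
  · intro h
    obtain ⟨l, hl, m, hm, hne⟩ := Finset.one_lt_card.mp (show 1 < _ from h)
    rw [Finset.mem_filter] at hl hm
    have h4 := slope_ne hne (hl.2.trans hm.2.symm)
    exact ⟨(l, m), Finset.mem_filter.mpr ⟨Finset.mem_offDiag.mpr ⟨hl.1, hm.1, hne⟩, h4⟩,
      (eq_crs' h4 hl.2 hm.2).symm⟩

/-- the deficiency: the sum of `3 - multiplicity` over the vertices -/
noncomputable def DD (F : Finset (ℝ × ℝ)) : ℤ := ∑ p ∈ vts F, (3 - (on F p : ℤ))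

/-! ## Strips -/

/-- the gap between the `r`-th and the `(r+1)`-st level is closed at `x` -/
def Cl (L : Finset (ℝ × ℝ)) (r : ℕ) (x : ℝ) : Prop :=
  ∃ y, lo L (x, y) < r ∧ r < lo L (x, y) + on L (x, y)

/-- the vertices just below or just above the gap `r` -/
noncomputable def chn (L : Finset (ℝ × ℝ)) (r : ℕ) : Finset (ℝ × ℝ) :=
  (vts L).filter fun v => lo L v + on L v = r ∨ lo L v = r

/-- `w < w'` are consecutive elements of `T` -/
def Nxt (T : Finset ℝ) (w w' : ℝ) : Prop :=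
  w ∈ T ∧ w' ∈ T ∧ w < w' ∧ ∀ z ∈ T, ¬ (w < z ∧ z < w')

/-- the pairs of consecutive elements of `T` -/
noncomputable def nxt (T : Finset ℝ) : Finset (ℝ × ℝ) := (T ×ˢ T).filter fun q => Nxt T q.1 q.2

/-- number of different ordinates over `x` -/
noncomputable def nv (L : Finset (ℝ × ℝ)) (x : ℝ) : ℕ := (L.image fun l => val l x).card

/-- the deficiency of the arrangement of the lines `L` and the walls `x = w`, `w ∈ W` -/
noncomputable def DW (L : Finset (ℝ × ℝ)) (W : Finset ℝ) : ℤ :=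
  ∑ v ∈ (vts L).filter (fun v => v.1 ∉ W), (3 - (on L v : ℤ)) +
    ∑ w ∈ W, (2 * (nv L w : ℤ) - (L.card : ℤ))

/-- the pairs (gap, strip between consecutive walls) such that the gap never closes on the closed
strip -/
noncomputable def nev (L : Finset (ℝ × ℝ)) (W : Finset ℝ) : Finset (ℕ × (ℝ × ℝ)) :=
  ((Finset.Ico 1 L.card) ×ˢ nxt W).filter fun q => ∀ x, q.2.1 ≤ x → x ≤ q.2.2 → ¬ Cl L q.1 x

/-- `c` meets no other line of `L` over `[w, w']` -/
def Cln (L : Finset (ℝ × ℝ)) (c : ℝ × ℝ) (w w' : ℝ) : Prop :=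
  ∀ l ∈ L, l ≠ c → ∀ x, w ≤ x → x ≤ w' → val l x ≠ val c x

/-! ## Walls of slope `σ` -/

/-- the offsets of the lines of slope `σ` -/
noncomputable def cls (F : Finset (ℝ × ℝ)) (σ : ℝ) : Finset ℝ :=
  (F.filter fun l => l.1 = σ).image Prod.snd

/-- the image of a line under `(x, y) ↦ (y - σ x, x)`, a map which makes the lines of slope `σ`
vertical -/
noncomputable def tl (σ : ℝ) (l : ℝ × ℝ) : ℝ × ℝ := (1 / (l.1 - σ), -l.2 / (l.1 - σ))

/-- the images of the lines of slope `≠ σ` -/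
noncomputable def tL (F : Finset (ℝ × ℝ)) (σ : ℝ) : Finset (ℝ × ℝ) :=
  (F.filter fun l => l.1 ≠ σ).image (tl σ)

/-- the line `c` meets no further line of slope `≠ σ` in the closed strip of all points with offset
`y - σ x` in `[w, w']` -/
def ClF (F : Finset (ℝ × ℝ)) (σ : ℝ) (c : ℝ × ℝ) (w w' : ℝ) : Prop :=
  ∀ l ∈ F, l ≠ c → l.1 ≠ σ → ∀ x, val l x = val c x →
    ¬ (w ≤ val c x - σ * x ∧ val c x - σ * x ≤ w')

/-- the clean pairs (line of slope `≠ σ`, strip between consecutive lines of slope `σ`) -/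
noncomputable def cln (F : Finset (ℝ × ℝ)) (σ : ℝ) : Finset ((ℝ × ℝ) × (ℝ × ℝ)) :=
  ((F.filter fun c => c.1 ≠ σ) ×ˢ nxt (cls F σ)).filter fun q => ClF F σ q.1 q.2.1 q.2.2

/-- number of lines of slope `σ` with offset in `[u, v]` -/
noncomputable def cnt (F : Finset (ℝ × ℝ)) (σ u v : ℝ) : ℕ :=
  (F.filter fun l => l.1 = σ ∧ u ≤ l.2 ∧ l.2 ≤ v).card

/-- number of lines of slope `σ` with `|offset| > c` -/
noncomputable def tai (F : Finset (ℝ × ℝ)) (σ c : ℝ) : ℕ :=
  (F.filter fun l => l.1 = σ ∧ c < |l.2|).card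

/-! ## Normalisation and limit -/

/-- the image of a line under `(x, y) ↦ (λ (x - x₀), λ (y - y₀))` -/
noncomputable def tr (x₀ y₀ lam : ℝ) (l : ℝ × ℝ) : ℝ × ℝ := (l.1, lam * (l.2 + l.1 * x₀ - y₀))

/-- Normalised families: slopes in `S`, every class has at most `θ n` lines with `|offset| > 1`,
some class has more than `θ n` lines with `|offset| ≥ 1`, and the classes of the slopes `i`, `j`
have at least `β n` lines on each side of the origin. -/
structure Nrm (S : Finset ℝ) (θ β i j : ℝ) (F : Finset (ℝ × ℝ)) : Prop where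
  sl : ∀ l ∈ F, l.1 ∈ S
  out : ∀ σ ∈ S, (tai F σ 1 : ℝ) ≤ θ * F.card
  big : ∃ σ ∈ S, θ * F.card < ((F.filter fun l => l.1 = σ ∧ 1 ≤ |l.2|).card : ℝ)
  il : β * F.card ≤ ((F.filter fun l => l.1 = i ∧ l.2 ≤ 0).card : ℝ)
  ir : β * F.card ≤ ((F.filter fun l => l.1 = i ∧ 0 ≤ l.2).card : ℝ)
  jl : β * F.card ≤ ((F.filter fun l => l.1 = j ∧ l.2 ≤ 0).card : ℝ)
  jr : β * F.card ≤ ((F.filter fun l => l.1 = j ∧ 0 ≤ l.2).card : ℝ)

/-- `t` is in the support of the limit distribution (along `U`) of the lines of slope `σ` -/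
def Sp (U : Ultrafilter ℕ) (F : ℕ → Finset (ℝ × ℝ)) (σ t : ℝ) : Prop :=
  ∀ η : ℝ, 0 < η → ∃ a : ℝ, 0 < a ∧
    ∀ᶠ n in (U : Filter ℕ), a * ((F n).card : ℝ) ≤ (cnt (F n) σ (t - η) (t + η) : ℝ)

/-- the sequence has slopes in `S`, many lines and deficiency `o(n^2)` along `U` -/
structure Sq (S : Finset ℝ) (U : Ultrafilter ℕ) (F : ℕ → Finset (ℝ × ℝ)) : Prop where
  sl : ∀ᶠ n in (U : Filter ℕ), ∀ l ∈ F n, l.1 ∈ S
  inf : ∀ N : ℕ, ∀ᶠ n in (U : Filter ℕ), N ≤ (F n).card
  df : ∀ e : ℝ, 0 < e → ∀ᶠ n in (U : Filter ℕ), (DD (F n) : ℝ) ≤ e * ((F n).card : ℝ) ^ 2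

end Pool.Agent.Work.MP_b25393_ag.U
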