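import Pool.Agent.Work.MP_b25393_ag.U.Stmts

/-!
Consecutive pairs of a finite set of reals: the statement S_NXT.
-/

set_option autoImplicit false

namespace Pool.Agent.Work.MP_b25393_ag.U

open scoped Classical

namespace I_NXT

theorem mem_nxt {T : Finset ℝ} {q : ℝ × ℝ} : q ∈ nxt T ↔ Nxt T q.1 q.2 := by
  unfold nxt
  rw [Finset.mem_filter, Finset.mem_product]
  constructor
  · exact fun h => h.2
  · exact fun h => ⟨⟨h.1, h.2.1⟩, h⟩

theorem fst_inj {T : Finset ℝ} {p q : ℝ × ℝ} (hp : p ∈ nxt T) (hq : q ∈ nxt T)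
    (h : p.1 = q.1) : p = q := by
  rw [mem_nxt] at hp hq
  obtain ⟨_, hp2, hp3, hp4⟩ := hp
  obtain ⟨_, hq2, hq3, hq4⟩ := hq
  refine Prod.ext h ?_
  rcases lt_trichotomy p.2 q.2 with hlt | heq | hgt
  · exact absurd ⟨by rw [← h]; exact hp3, hlt⟩ (hq4 p.2 hp2)
  · exact heq
  · exact absurd ⟨by rw [h]; exact hq3, hgt⟩ (hp4 q.2 hq2)

theorem image_fst {T : Finset ℝ} (hT : T.Nonempty) :
    (nxt T).image Prod.fst = T.erase (T.max' hT) := by
  ext w
  rw [Finset.mem_image, Finset.mem_erase]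
  constructor
  · rintro ⟨q, hq, rfl⟩
    rw [mem_nxt] at hq
    obtain ⟨h1, h2, h3, _⟩ := hq
    refine ⟨?_, h1⟩
    intro h
    have := T.le_max' q.2 h2
    rw [← h] at this
    exact absurd this (not_le.mpr h3)
  · rintro ⟨hne, hw⟩
    have hlt : w < T.max' hT := lt_of_le_of_ne (T.le_max' w hw) hne
    have hS : (T.filter fun z => w < z).Nonempty :=
      ⟨T.max' hT, Finset.mem_filter.mpr ⟨T.max'_mem hT, hlt⟩⟩
    have hmem := (T.filter fun z => w < z).min'_mem hS
    rw [Finset.mem_filter] at hmem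
    refine ⟨(w, (T.filter fun z => w < z).min' hS), ?_, rfl⟩
    rw [mem_nxt]
    refine ⟨hw, hmem.1, hmem.2, ?_⟩
    rintro z hz ⟨hz1, hz2⟩
    have := (T.filter fun z => w < z).min'_le z (Finset.mem_filter.mpr ⟨hz, hz1⟩)
    exact absurd this (not_le.mpr hz2)

theorem card_succ {T : Finset ℝ} (hT : T.Nonempty) : (nxt T).card + 1 = T.card := by
  have h1 : ((nxt T).image Prod.fst).card = (nxt T).card :=
    Finset.card_image_of_injOn fun p hp q hq h =>
      fst_inj (by exact_mod_cast hp) (by exact_mod_cast hq) h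
  rw [← h1, image_fst hT, Finset.card_erase_of_mem (T.max'_mem hT)]
  have := Finset.card_pos.mpr hT
  omega

end I_NXT

theorem NXT_pf : S_NXT := by
  intro T
  have hsucc : T.Nonempty → (nxt T).card + 1 = T.card := fun hT => I_NXT.card_succ hT
  refine ⟨?_, hsucc, ?_⟩
  · rcases T.eq_empty_or_nonempty with rfl | hT
    · have : nxt (∅ : Finset ℝ) = ∅ := by
        unfold nxt
        simp
      rw [this, Finset.card_empty, Finset.card_empty]
    · have := hsucc hT
      omega
  · intro o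
    have hsub : (nxt T).filter (fun q => q.1 ≤ o ∧ o ≤ q.2) ⊆
        ((nxt T).filter fun q => q.1 < o ∧ o ≤ q.2) ∪ ((nxt T).filter fun q => q.1 = o) := by
      intro q hq
      rw [Finset.mem_filter] at hq
      rw [Finset.mem_union, Finset.mem_filter, Finset.mem_filter]
      rcases lt_or_eq_of_le hq.2.1 with h | h
      · exact Or.inl ⟨hq.1, h, hq.2.2⟩
      · exact Or.inr ⟨hq.1, h⟩
    have hA : ((nxt T).filter fun q => q.1 < o ∧ o ≤ q.2).card ≤ 1 := by
      rw [Finset.card_le_one]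
      intro p hp q hq
      rw [Finset.mem_filter] at hp hq
      apply I_NXT.fst_inj hp.1 hq.1
      have hp' := I_NXT.mem_nxt.mp hp.1
      have hq' := I_NXT.mem_nxt.mp hq.1
      rcases lt_trichotomy p.1 q.1 with hlt | heq | hgt
      · exact absurd ⟨hlt, lt_of_lt_of_le hq.2.1 hp.2.2⟩ (hp'.2.2.2 q.1 hq'.1)
      · exact heq
      · exact absurd ⟨hgt, lt_of_lt_of_le hp.2.1 hq.2.2⟩ (hq'.2.2.2 p.1 hp'.1)
    have hB : ((nxt T).filter fun q => q.1 = o).card ≤ 1 := by
      rw [Finset.card_le_one]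
      intro p hp q hq
      rw [Finset.mem_filter] at hp hq
      exact I_NXT.fst_inj hp.1 hq.1 (hp.2.trans hq.2.symm)
    calc ((nxt T).filter (fun q => q.1 ≤ o ∧ o ≤ q.2)).card
        ≤ (((nxt T).filter fun q => q.1 < o ∧ o ≤ q.2) ∪
          ((nxt T).filter fun q => q.1 = o)).card := Finset.card_le_card hsub
      _ ≤ ((nxt T).filter fun q => q.1 < o ∧ o ≤ q.2).card +
          ((nxt T).filter fun q => q.1 = o).card := Finset.card_union_le _ _
      _ ≤ 2 := by omega

end Pool.Agent.Work.MP_b25393_ag.U
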