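import Pool.Agent.Work.MP_b25393_ag.U.Stmts

/-!
# AFF: the affine theorem
-/

set_option autoImplicit false

namespace Pool.Agent.Work.MP_b25393_ag.U

open scoped Classical

namespace I_AFF

/-- number of lines of slope `σ` -/
noncomputable def cc (F : Finset (ℝ × ℝ)) (σ : ℝ) : ℝ := ((F.filter fun l => l.1 = σ).card : ℝ)

lemma sum_cc (S : Finset ℝ) (F : Finset (ℝ × ℝ)) (h : ∀ l ∈ F, l.1 ∈ S) :
    ∑ σ ∈ S, cc F σ = F.card := by
  unfold cc
  rw [← Nat.cast_sum]
  congr 1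
  exact (Finset.card_eq_sum_card_fiberwise (f := Prod.fst) (s := F) (t := S) (fun l hl => h l hl)).symm

/-- Two large classes. -/
lemma two (S : Finset ℝ) (F : Finset (ℝ × ℝ)) (δ : ℝ) (hδ : 0 < δ) (h : ∀ l ∈ F, l.1 ∈ S)
    (hF : 1 ≤ F.card) (hc : ∀ σ ∈ S, cc F σ ≤ (1 - δ) * F.card) :
    0 < (S.card : ℝ) ∧ ∃ i ∈ S, ∃ j ∈ S, i ≠ j ∧
      min 1 δ / S.card * F.card ≤ cc F i ∧ min 1 δ / S.card * F.card ≤ cc F j := by
  have hFpos : (0 : ℝ) < F.card := by exact_mod_cast hF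
  have hsum := sum_cc S F h
  have hSne : S.Nonempty := by
    rcases S.eq_empty_or_nonempty with h0 | h0
    · rw [h0, Finset.sum_empty] at hsum
      linarith
    · exact h0
  have hS0 : (0 : ℝ) < S.card := by exact_mod_cast hSne.card_pos
  refine ⟨hS0, ?_⟩
  obtain ⟨i, hi, hmax⟩ := Finset.exists_max_image S (cc F) hSne
  have hi1 : (F.card : ℝ) ≤ S.card * cc F i := by
    rw [← hsum]
    calc ∑ σ ∈ S, cc F σ ≤ ∑ σ ∈ S, cc F i := Finset.sum_le_sum hmax
      _ = S.card * cc F i := by rw [Finset.sum_const, nsmul_eq_mul]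
  have hj : ∃ j ∈ S.erase i, δ * F.card ≤ S.card * cc F j := by
    by_contra hcon
    push Not at hcon
    have hsum2 : cc F i + ∑ σ ∈ S.erase i, cc F σ = F.card := by
      rw [← hsum]
      exact Finset.add_sum_erase S (cc F) hi
    have h1 : δ * F.card ≤ ∑ σ ∈ S.erase i, cc F σ := by
      have := hc i hi
      nlinarith
    have hne : (S.erase i).Nonempty := by
      rcases (S.erase i).eq_empty_or_nonempty with h0 | h0
      · rw [h0, Finset.sum_empty] at h1
        nlinarith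
      · exact h0
    have h2 : ∑ σ ∈ S.erase i, cc F σ < ∑ σ ∈ S.erase i, δ * F.card / S.card := by
      apply Finset.sum_lt_sum_of_nonempty hne
      intro σ hσ
      rw [lt_div_iff₀ hS0]
      have := hcon σ hσ
      linarith
    rw [Finset.sum_const, nsmul_eq_mul] at h2
    have h3 : ((S.erase i).card : ℝ) ≤ S.card := by
      exact_mod_cast Finset.card_le_card (Finset.erase_subset i S)
    have h4 : ((S.erase i).card : ℝ) * (δ * F.card / S.card) ≤ δ * F.card := by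
      calc ((S.erase i).card : ℝ) * (δ * F.card / S.card) ≤ S.card * (δ * F.card / S.card) := by
            gcongr
        _ = δ * F.card := by field_simp
    linarith
  obtain ⟨j, hj, hj1⟩ := hj
  have hji := Finset.ne_of_mem_erase hj
  have hjS := Finset.mem_of_mem_erase hj
  have hm1 : min 1 δ ≤ 1 := min_le_left _ _
  have hm2 : min 1 δ ≤ δ := min_le_right _ _
  refine ⟨i, hi, j, hjS, hji.symm, ?_, ?_⟩
  · rw [div_mul_eq_mul_div, div_le_iff₀ hS0]
    nlinarith
  · rw [div_mul_eq_mul_div, div_le_iff₀ hS0]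
    nlinarith

end I_AFF

open I_AFF in
theorem AFF_pf (hNRM : S_NRM) (hLIM : S_LIM) : S_AFF := by
  intro S δ hδ
  by_contra hcon
  push Not at hcon
  have hG : ∀ n : ℕ, ∃ G : Finset (ℝ × ℝ), (∀ l ∈ G, l.1 ∈ S) ∧ n + 1 ≤ G.card ∧
      (∀ σ ∈ S, cc G σ ≤ (1 - δ) * G.card) ∧
      (DD G : ℝ) < 1 / ((n : ℝ) + 1) * (G.card : ℝ) ^ 2 := by
    intro n
    obtain ⟨G, h1, h2, h3, h4⟩ := hcon (1 / ((n : ℝ) + 1)) (by positivity) (n + 1)
    exact ⟨G, h1, h2, h3, h4⟩
  choose G g1 g2 g3 g4 using hG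
  have hS0 : (0 : ℝ) < S.card :=
    (two S (G 0) δ hδ (g1 0) (le_trans (by omega) (g2 0)) (g3 0)).1
  set m : ℝ := min 1 δ with hm
  have hm0 : 0 < m := lt_min one_pos hδ
  set β : ℝ := m / S.card / 2 with hβ
  have hβ0 : 0 < β := by positivity
  set θ : ℝ := min (β / (8 * (S.card + 1))) (1 / (4 * (S.card + 1))) with hθ
  have hS1 : (0 : ℝ) < S.card + 1 := by linarith
  have hθ0 : 0 < θ := lt_min (by positivity) (by positivity)
  have hθ1 : 8 * ((S.card : ℝ) + 1) * θ ≤ β := by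
    have : θ ≤ β / (8 * (S.card + 1)) := min_le_left _ _
    rw [le_div_iff₀ (by positivity)] at this
    linarith
  have hθ2 : (S.card : ℝ) * θ < 1 / 2 := by
    have : θ ≤ 1 / (4 * (S.card + 1)) := min_le_right _ _
    rw [le_div_iff₀ (by positivity)] at this
    nlinarith
  obtain ⟨N₀, hN⟩ := hNRM S θ β hθ0 hβ0 hθ2
  have hF : ∀ n : ℕ, ∃ (F : Finset (ℝ × ℝ)) (i j : ℝ), i ∈ S ∧ j ∈ S ∧ i ≠ j ∧
      n + 1 ≤ F.card ∧ (DD F : ℝ) < 1 / ((n : ℝ) + 1) * (F.card : ℝ) ^ 2 ∧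
      Nrm S θ β i j F := by
    intro n
    have hc : n + N₀ + 1 ≤ (G (n + N₀)).card := g2 (n + N₀)
    obtain ⟨_, i, hi, j, hj, hij, hci, hcj⟩ :=
      two S (G (n + N₀)) δ hδ (g1 _) (by omega) (g3 _)
    have h2β : 2 * β = m / S.card := by rw [hβ]; ring
    obtain ⟨F', e1, e2, e3⟩ := hN (G (n + N₀)) (g1 _) (by omega) i hi j hj hij
      (by rw [h2β]; exact hci) (by rw [h2β]; exact hcj)
    refine ⟨F', i, j, hi, hj, hij, by omega, ?_, e3⟩
    rw [e1, e2]
    refine lt_of_lt_of_le (g4 (n + N₀)) ?_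
    have hle : (n : ℝ) + 1 ≤ ((n + N₀ : ℕ) : ℝ) + 1 := by push_cast; linarith [N₀.cast_nonneg (α := ℝ)]
    gcongr
  choose F I J f1 f2 f3 f4 f5 f6 using hF
  set U : Ultrafilter ℕ := Filter.hyperfilter ℕ with hU
  have hUtop : (U : Filter ℕ) ≤ Filter.atTop := by
    rw [← Nat.cofinite_eq_atTop]
    exact Filter.hyperfilter_le_cofinite
  have hfin : ∃ p ∈ ((S ×ˢ S : Finset (ℝ × ℝ)) : Set (ℝ × ℝ)), {n : ℕ | (I n, J n) = p} ∈ U := by
    rw [← Ultrafilter.finite_biUnion_mem_iff (Finset.finite_toSet _)]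
    have : (⋃ p ∈ ((S ×ˢ S : Finset (ℝ × ℝ)) : Set (ℝ × ℝ)), {n : ℕ | (I n, J n) = p}) =
        Set.univ := by
      ext n
      simp only [Set.mem_iUnion, Set.mem_ofPred_eq, Set.mem_univ, iff_true]
      exact ⟨(I n, J n), Finset.mem_coe.mpr (Finset.mem_product.mpr ⟨f1 n, f2 n⟩), rfl⟩
    rw [this]
    exact Filter.univ_mem
  obtain ⟨⟨i, j⟩, hp, hpU⟩ := hfin
  rw [Finset.mem_coe, Finset.mem_product] at hp
  have hij : i ≠ j := by
    obtain ⟨n, hn⟩ := U.nonempty_of_mem hpU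
    have hn' : (I n, J n) = (i, j) := hn
    rw [Prod.mk.injEq] at hn'
    rw [← hn'.1, ← hn'.2]
    exact f3 n
  have hSq : Sq S U F := by
    refine ⟨Filter.Eventually.of_forall fun n => (f6 n).sl, ?_, ?_⟩
    · intro N
      have : ∀ᶠ n in (Filter.atTop : Filter ℕ), N ≤ (F n).card := by
        filter_upwards [Filter.eventually_ge_atTop N] with n hn
        have := f4 n
        omega
      exact hUtop this
    · intro e he
      have : ∀ᶠ n in (Filter.atTop : Filter ℕ),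
          (DD (F n) : ℝ) ≤ e * ((F n).card : ℝ) ^ 2 := by
        obtain ⟨M, hM⟩ := exists_nat_gt (1 / e)
        filter_upwards [Filter.eventually_ge_atTop M] with n hn
        refine (f5 n).le.trans ?_
        have h1 : (M : ℝ) ≤ n := by exact_mod_cast hn
        have h2 : 1 / ((n : ℝ) + 1) ≤ e := by
          rw [div_le_iff₀ (by positivity)]
          rw [div_lt_iff₀ he] at hM
          nlinarith
        gcongr
      exact hUtop this
  refine hLIM S U F θ β i j hθ0 hβ0 hθ1 hp.1 hp.2 hij hSq ?_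
  have : ∀ᶠ n in (U : Filter ℕ), (I n, J n) = (i, j) := hpU
  filter_upwards [this] with n hn
  rw [Prod.mk.injEq] at hn
  have := f6 n
  rw [hn.1, hn.2] at this
  exact this

end Pool.Agent.Work.MP_b25393_ag.U
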