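import Pool.Agent.Work.MP_b25393_ag.U.Stmts

/-!
# Item BDD: no tails
-/

set_option autoImplicit false

namespace Pool.Agent.Work.MP_b25393_ag.U

open scoped Classical

namespace I_BDD

/-- The lines of slope `σ₀` satisfying `q` are in the count of `[-1, 1]` or in the tail. -/
theorem cnt_tai (F : Finset (ℝ × ℝ)) (σ₀ : ℝ) (q : ℝ → Prop) :
    (F.filter fun l => l.1 = σ₀ ∧ q l.2).card ≤ cnt F σ₀ (-1) 1 + tai F σ₀ 1 := by
  unfold cnt tai
  refine le_trans (Finset.card_le_card ?_) (Finset.card_union_le _ _)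
  intro l hl
  rw [Finset.mem_filter] at hl
  rw [Finset.mem_union, Finset.mem_filter, Finset.mem_filter]
  by_cases h : 1 < |l.2|
  · exact Or.inr ⟨hl.1, hl.2.1, h⟩
  · have h' := abs_le.mp (not_lt.mp h)
    exact Or.inl ⟨hl.1, hl.2.1, h'.1, h'.2⟩

/-- The tail of the slope `σ ≠ σ₀` is in the family of TAI. -/
theorem tai_le (F : Finset (ℝ × ℝ)) (σ σ₀ C : ℝ) (h : σ ≠ σ₀) :
    tai F σ C ≤ (F.filter fun l => l.1 ≠ σ₀ ∧ C < |l.2|).card := by
  unfold tai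
  refine Finset.card_le_card ?_
  intro l hl
  rw [Finset.mem_filter] at hl ⊢
  refine ⟨hl.1, ?_, hl.2.2⟩
  rw [hl.2.1]
  exact h

/-- The numerical end of the proof. -/
theorem fin (T c t s d n a θ β : ℝ) (hT : 0 ≤ T) (hs : 0 ≤ s) (hθ : 0 < θ) (hβ : 0 < β)
    (ha : 0 < a) (hsm : 8 * (s + 1) * θ ≤ β) (h1 : β * n ≤ c + θ * n) (ht : t ≤ θ * n)
    (hn : 0 < n) (hbig : 4 * (a + 1) ≤ a * β * n) (hbig2 : 2 ≤ β * n)
    (hd : d ≤ a * β / 4 * n ^ 2)
    (hmain : T * (c - 1 - 2 * (s * t)) ≤ d + n) : T ≤ a * n := by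
  by_contra hcon
  have hcon' : a * n < T := not_le.mp hcon
  have h2 : s * t ≤ s * (θ * n) := mul_le_mul_of_nonneg_left ht hs
  have h3 : (θ + 2 * s * θ) * n ≤ β / 4 * n := by
    refine mul_le_mul_of_nonneg_right ?_ hn.le
    nlinarith
  have h4 : β * n / 2 - 1 ≤ c - 1 - 2 * (s * t) := by
    have : 0 < β * n := mul_pos hβ hn
    nlinarith
  have h5 : 0 ≤ β * n / 2 - 1 := by linarith
  have h6 : a * n * (β * n / 2 - 1) ≤ T * (c - 1 - 2 * (s * t)) :=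
    mul_le_mul hcon'.le h4 h5 hT
  have h7 : a * n * (β * n / 2 - 1) ≤ a * β / 4 * n ^ 2 + n := by linarith
  have h8 : n * (a * β * n / 4) ≤ n * (a + 1) := by nlinarith
  have h9 : a * β * n / 4 ≤ a + 1 := le_of_mul_le_mul_left h8 hn
  -- equality case: use strictness of `hcon'`
  have h10 : a * β * n / 4 = a + 1 := le_antisymm h9 (by linarith)
  have h11 : 0 < β * n / 2 - 1 := by
    by_contra h
    have h12 : β * n = 2 := by linarith
    have h13 : a * β * n = a * 2 := by rw [mul_assoc, h12]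
    linarith
  have h14 : a * n * (β * n / 2 - 1) < T * (β * n / 2 - 1) :=
    mul_lt_mul_of_pos_right hcon' h11
  have h15 : T * (β * n / 2 - 1) ≤ T * (c - 1 - 2 * (s * t)) :=
    mul_le_mul_of_nonneg_left h4 hT
  have h16 : a * n * (β * n / 2 - 1) < a * β / 4 * n ^ 2 + n := by linarith
  have h17 : n * (a * β * n / 4) < n * (a + 1) := by nlinarith
  have h18 : a * β * n / 4 < a + 1 := lt_of_mul_lt_mul_left h17 hn.le
  linarith

end I_BDD

open I_BDD in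
/-- No tails. -/
theorem BDD_pf (hTAI : S_TAI) : S_BDD := by
  intro S U F θ β i j hθ hβ hsm hi hj hij hSq hN
  obtain ⟨C, hC1, hC⟩ := hTAI S
  refine ⟨C, hC1, ?_⟩
  intro σ hσ a ha
  obtain ⟨σ₀, hσ₀, hne, hmass⟩ : ∃ σ₀ ∈ S, σ ≠ σ₀ ∧ ∀ G : Finset (ℝ × ℝ), Nrm S θ β i j G →
      β * G.card ≤ (cnt G σ₀ (-1) 1 : ℝ) + (tai G σ₀ 1 : ℝ) := by
    by_cases h : σ = i
    · refine ⟨j, hj, by rw [h]; exact hij, ?_⟩
      intro G hG
      refine hG.jl.trans ?_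
      exact_mod_cast cnt_tai G j (fun y => y ≤ 0)
    · refine ⟨i, hi, h, ?_⟩
      intro G hG
      refine hG.il.trans ?_
      exact_mod_cast cnt_tai G i (fun y => y ≤ 0)
  obtain ⟨N, hN1⟩ := exists_nat_ge (max (4 * (a + 1) / (a * β)) (2 / β))
  filter_upwards [hN, hSq.inf (N + 1), hSq.df (a * β / 4) (by positivity), hSq.sl]
    with k h1 h2 h3 h4
  set n : ℝ := ((F k).card : ℝ) with hn
  have hnN : (N : ℝ) + 1 ≤ n := by
    rw [hn]
    exact_mod_cast h2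
  have hN0 : (0 : ℝ) ≤ N := Nat.cast_nonneg N
  have hnpos : 0 < n := by linarith
  have hb1 : 4 * (a + 1) / (a * β) ≤ n := by
    have := (le_max_left (4 * (a + 1) / (a * β)) (2 / β)).trans hN1
    linarith
  have hb2 : 2 / β ≤ n := by
    have := (le_max_right (4 * (a + 1) / (a * β)) (2 / β)).trans hN1
    linarith
  have hb1' : 4 * (a + 1) ≤ a * β * n := by
    have := (div_le_iff₀ (by positivity : 0 < a * β)).mp hb1
    linarith
  have hb2' : 2 ≤ β * n := by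
    have := (div_le_iff₀ hβ).mp hb2
    linarith
  have hout : ∀ τ ∈ S, tai (F k) τ 1 ≤ ⌊θ * n⌋₊ := fun τ hτ => Nat.le_floor (h1.out τ hτ)
  have hm := hC (F k) ⌊θ * n⌋₊ h4 hout σ₀ hσ₀
  have hfl : ((⌊θ * n⌋₊ : ℕ) : ℝ) ≤ θ * n := Nat.floor_le (by positivity)
  have hmr : (((F k).filter fun l => l.1 ≠ σ₀ ∧ C < |l.2|).card : ℝ) *
      ((cnt (F k) σ₀ (-1) 1 : ℝ) - 1 - 2 * ((S.card : ℝ) * (⌊θ * n⌋₊ : ℕ))) ≤
        (DD (F k) : ℝ) + n := by
    rw [hn]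
    exact_mod_cast hm
  have h5 := hmass (F k) h1
  have h6 : (tai (F k) σ₀ 1 : ℝ) ≤ θ * n := h1.out σ₀ hσ₀
  have h7 : (tai (F k) σ C : ℝ) ≤ (((F k).filter fun l => l.1 ≠ σ₀ ∧ C < |l.2|).card : ℝ) := by
    exact_mod_cast tai_le (F k) σ σ₀ C hne
  refine h7.trans ?_
  exact fin _ (cnt (F k) σ₀ (-1) 1) (⌊θ * n⌋₊ : ℕ) S.card (DD (F k)) n a θ β (Nat.cast_nonneg _)
    (Nat.cast_nonneg _) hθ hβ ha hsm (by linarith) hfl hnpos hb1' hb2' h3 hmr

end Pool.Agent.Work.MP_b25393_ag.U
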