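import Pool.Agent.Work.MP_b25393_ag.U.Stmts

/-!
# Item BOX: many lines with few third lines
-/

set_option autoImplicit false

namespace Pool.Agent.Work.MP_b25393_ag.U

open scoped Classical

theorem BOX_pf (hCLA : S_CLA) (hCLC : S_CLC) : S_BOX := by
  intro F B σ u v t hBF hB
  have h1 := hCLA F σ
  -- the clean pairs with first component in `B`
  have h2 : ∑ c ∈ B, ((nxt (cls F σ)).filter fun q => u ≤ q.1 ∧ q.2 ≤ v ∧
      ClF F σ c q.1 q.2).card ≤ (cln F σ).card := by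
    rw [← Finset.card_sigma]
    refine Finset.card_le_card_of_injOn (fun p => (p.1, p.2)) ?_ ?_
    · rintro ⟨c, q⟩ hp
      rw [Finset.mem_coe, Finset.mem_sigma, Finset.mem_filter] at hp
      obtain ⟨hc, hq, _, _, hcl⟩ := hp
      rw [Finset.mem_coe]
      unfold cln
      rw [Finset.mem_filter, Finset.mem_product, Finset.mem_filter]
      exact ⟨⟨⟨hBF hc, (hB c hc).1⟩, hq⟩, hcl⟩
    · rintro ⟨c, q⟩ _ ⟨c', q'⟩ _ h
      simp only [Prod.mk.injEq] at h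
      obtain ⟨rfl, rfl⟩ := h
      rfl
  have h3 : ∀ c ∈ B, ((cnt F σ u v : ℤ) - 1 - 2 * t) ≤
      (((nxt (cls F σ)).filter fun q => u ≤ q.1 ∧ q.2 ≤ v ∧ ClF F σ c q.1 q.2).card : ℤ) := by
    intro c hc
    obtain ⟨hcσ, T, hTt, hT⟩ := hB c hc
    have h4 := hCLC F σ u v c (hBF hc) hcσ T hT
    have h5 : (cnt F σ u v : ℤ) ≤
        (((nxt (cls F σ)).filter fun q => u ≤ q.1 ∧ q.2 ≤ v ∧ ClF F σ c q.1 q.2).card : ℤ)
          + 1 + 2 * (T.card : ℤ) := by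
      exact_mod_cast h4
    have h6 : (T.card : ℤ) ≤ (t : ℤ) := by exact_mod_cast hTt
    linarith
  have h7 : (B.card : ℤ) * ((cnt F σ u v : ℤ) - 1 - 2 * t) ≤
      ∑ c ∈ B, (((nxt (cls F σ)).filter fun q => u ≤ q.1 ∧ q.2 ≤ v ∧
        ClF F σ c q.1 q.2).card : ℤ) := by
    have := Finset.card_nsmul_le_sum B (fun c => (((nxt (cls F σ)).filter fun q =>
      u ≤ q.1 ∧ q.2 ≤ v ∧ ClF F σ c q.1 q.2).card : ℤ)) ((cnt F σ u v : ℤ) - 1 - 2 * t) h3
    rw [nsmul_eq_mul] at this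
    exact this
  have h8 : ∑ c ∈ B, (((nxt (cls F σ)).filter fun q => u ≤ q.1 ∧ q.2 ≤ v ∧
        ClF F σ c q.1 q.2).card : ℤ) ≤ ((cln F σ).card : ℤ) := by exact_mod_cast h2
  linarith

end Pool.Agent.Work.MP_b25393_ag.U
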