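import Pool.Agent.Work.MP_b25393_ag.U.Stmts

/-!
# Item CHN: between two consecutive closings of a gap there is a chain vertex
-/

set_option autoImplicit false

namespace Pool.Agent.Work.MP_b25393_ag.U

open scoped Classical

namespace I_CHN

open Filter Topology Set

/-- number of lines of `L` weakly below the point `p` -/
noncomputable def le (L : Finset (ℝ × ℝ)) (p : ℝ × ℝ) : ℕ :=
  (L.filter fun l => val l p.1 ≤ p.2).card

theorem lo_add_on (L : Finset (ℝ × ℝ)) (p : ℝ × ℝ) : lo L p + on L p = le L p := by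
  unfold lo on le
  rw [← Finset.card_union_of_disjoint]
  · congr 1
    ext l
    simp only [Finset.mem_union, Finset.mem_filter]
    constructor
    · rintro (⟨h1, h2⟩ | ⟨h1, h2⟩)
      · exact ⟨h1, h2.le⟩
      · exact ⟨h1, h2.le⟩
    · rintro ⟨h1, h2⟩
      rcases lt_or_eq_of_le h2 with h3 | h3
      · exact Or.inl ⟨h1, h3⟩
      · exact Or.inr ⟨h1, h3⟩
  · rw [Finset.disjoint_left]
    intro l h1 h2
    rw [Finset.mem_filter] at h1 h2
    exact absurd h2.2 (ne_of_lt h1.2)

theorem val_cont (l : ℝ × ℝ) : Continuous (val l) := by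
  unfold val
  fun_prop

/-- strict inequalities between the lines persist near a point -/
theorem persist (L : Finset (ℝ × ℝ)) (x : ℝ) :
    ∀ᶠ y in 𝓝 x, ∀ l ∈ L, ∀ m ∈ L, val l x < val m x → val l y < val m y := by
  rw [eventually_all_finset]
  intro l _
  rw [eventually_all_finset]
  intro m _
  by_cases h : val l x < val m x
  · have := (val_cont l).continuousAt (x := x) |>.eventually_lt (val_cont m).continuousAt h
    filter_upwards [this] with y hy _ using hy
  · exact Eventually.of_forall fun y h' => absurd h' h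

/-- induction along an open interval -/
theorem along {a b x₀ : ℝ} {P : ℝ → Prop} (h0 : x₀ ∈ Ioo a b) (hP : P x₀)
    (h1 : ∀ x ∈ Ioo a b, P x → ∀ᶠ y in 𝓝 x, P y)
    (h2 : ∀ x ∈ Ioo a b, ¬ P x → ∀ᶠ y in 𝓝 x, ¬ P y) : ∀ x ∈ Ioo a b, P x := by
  have hu : IsOpen {x | x ∈ Ioo a b ∧ P x} := by
    rw [isOpen_iff_eventually]
    rintro x ⟨hx, hPx⟩
    filter_upwards [isOpen_Ioo.mem_nhds hx, h1 x hx hPx] with y hy hPy using ⟨hy, hPy⟩
  have hv : IsOpen {x | x ∈ Ioo a b ∧ ¬ P x} := by
    rw [isOpen_iff_eventually]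
    rintro x ⟨hx, hPx⟩
    filter_upwards [isOpen_Ioo.mem_nhds hx, h2 x hx hPx] with y hy hPy using ⟨hy, hPy⟩
  have h3 := isPreconnected_iff_subset_of_disjoint.1 (isPreconnected_Ioo (a := a) (b := b))
    _ _ hu hv
    (fun x hx => by
      by_cases hPx : P x
      · exact Or.inl ⟨hx, hPx⟩
      · exact Or.inr ⟨hx, hPx⟩)
    (by
      ext x
      simp only [mem_inter_iff, mem_ofPred_eq, mem_empty_iff_false, iff_false]
      rintro ⟨_, ⟨_, h4⟩, ⟨_, h5⟩⟩
      exact h5 h4)
  rcases h3 with h3 | h3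
  · exact fun x hx => (h3 hx).2
  · exact absurd hP (h3 h0).2

/-- at most one line passes through a point which is not a vertex -/
theorem uniq {L : Finset (ℝ × ℝ)} {p : ℝ × ℝ} (hp : p ∉ vts L) {l m : ℝ × ℝ} (hl : l ∈ L)
    (hm : m ∈ L) (h1 : val l p.1 = p.2) (h2 : val m p.1 = p.2) : l = m := by
  rw [mem_vts, not_le] at hp
  have h3 : (L.filter fun l => val l p.1 = p.2).card ≤ 1 := by
    unfold on at hp
    omega
  exact Finset.card_le_one.1 h3 l (Finset.mem_filter.2 ⟨hl, h1⟩) m (Finset.mem_filter.2 ⟨hm, h2⟩)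

theorem one_le_on {L : Finset (ℝ × ℝ)} {l : ℝ × ℝ} (hl : l ∈ L) (x : ℝ) :
    1 ≤ on L (x, val l x) :=
  Finset.card_pos.2 ⟨l, Finset.mem_filter.2 ⟨hl, rfl⟩⟩

/-- the lower line `h` of an open gap -/
theorem lower {L : Finset (ℝ × ℝ)} {r : ℕ} {a b x₀ : ℝ} (hop : ∀ x ∈ Ioo a b, ¬ Cl L r x)
    (hno : ∀ v ∈ chn L r, ¬ (a < v.1 ∧ v.1 < b)) (h0 : x₀ ∈ Ioo a b) {h : ℝ × ℝ} (hh : h ∈ L)
    (hr : le L (x₀, val h x₀) = r) : ∀ x ∈ Ioo a b, le L (x, val h x) = r := by
  refine along h0 hr ?_ ?_
  · intro x hx hxr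
    have hv : (x, val h x) ∉ vts L := by
      intro hv
      refine hno _ (Finset.mem_filter.2 ⟨hv, Or.inl ?_⟩) hx
      rw [lo_add_on, hxr]
    filter_upwards [persist L x] with y hy
    rw [← hxr]
    unfold le
    congr 1
    ext l
    simp only [Finset.mem_filter]
    refine and_congr_right fun hl => ?_
    rcases lt_trichotomy (val l x) (val h x) with h1 | h1 | h1
    · exact ⟨fun _ => h1.le, fun _ => (hy l hl h hh h1).le⟩
    · have : l = h := uniq hv hl hh h1 rfl
      subst this
      simp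
    · exact ⟨fun h2 => absurd h2 (not_le.2 (hy h hh l hl h1)), fun h2 => absurd h2 (not_le.2 h1)⟩
  · intro x hx hxr
    have h1 : ¬ (lo L (x, val h x) < r ∧ r < lo L (x, val h x) + on L (x, val h x)) :=
      fun h2 => hop x hx ⟨_, h2⟩
    rw [lo_add_on] at h1
    filter_upwards [persist L x] with y hy
    have hon := one_le_on hh y
    have hlo : lo L (x, val h x) ≤ lo L (y, val h y) := by
      unfold lo
      apply Finset.card_le_card
      intro l hl
      rw [Finset.mem_filter] at hl ⊢
      exact ⟨hl.1, hy l hl.1 h hh hl.2⟩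
    have hle : le L (y, val h y) ≤ le L (x, val h x) := by
      unfold le
      apply Finset.card_le_card
      intro l hl
      rw [Finset.mem_filter] at hl ⊢
      refine ⟨hl.1, ?_⟩
      by_contra h3
      exact absurd hl.2 (not_le.2 (hy h hh l hl.1 (not_le.1 h3)))
    have h4 := lo_add_on L (y, val h y)
    omega

/-- the upper line `g` of an open gap -/
theorem upper {L : Finset (ℝ × ℝ)} {r : ℕ} {a b x₀ : ℝ} (hop : ∀ x ∈ Ioo a b, ¬ Cl L r x)
    (hno : ∀ v ∈ chn L r, ¬ (a < v.1 ∧ v.1 < b)) (h0 : x₀ ∈ Ioo a b) {g : ℝ × ℝ} (hg : g ∈ L)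
    (hr : lo L (x₀, val g x₀) = r) : ∀ x ∈ Ioo a b, lo L (x, val g x) = r := by
  refine along h0 hr ?_ ?_
  · intro x hx hxr
    have hv : (x, val g x) ∉ vts L := by
      intro hv
      exact hno _ (Finset.mem_filter.2 ⟨hv, Or.inr hxr⟩) hx
    filter_upwards [persist L x] with y hy
    rw [← hxr]
    unfold lo
    congr 1
    ext l
    simp only [Finset.mem_filter]
    refine and_congr_right fun hl => ?_
    rcases lt_trichotomy (val l x) (val g x) with h1 | h1 | h1
    · exact ⟨fun _ => h1, fun _ => hy l hl g hg h1⟩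
    · have : l = g := uniq hv hl hg h1 rfl
      subst this
      simp
    · exact ⟨fun h2 => absurd h2 (not_lt.2 (hy g hg l hl h1).le),
        fun h2 => absurd h2 (not_lt.2 h1.le)⟩
  · intro x hx hxr
    have h1 : ¬ (lo L (x, val g x) < r ∧ r < lo L (x, val g x) + on L (x, val g x)) :=
      fun h2 => hop x hx ⟨_, h2⟩
    rw [lo_add_on] at h1
    filter_upwards [persist L x] with y hy
    have hon := one_le_on hg y
    have hlo : lo L (x, val g x) ≤ lo L (y, val g y) := by
      unfold lo
      apply Finset.card_le_card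
      intro l hl
      rw [Finset.mem_filter] at hl ⊢
      exact ⟨hl.1, hy l hl.1 g hg hl.2⟩
    have hle : le L (y, val g y) ≤ le L (x, val g x) := by
      unfold le
      apply Finset.card_le_card
      intro l hl
      rw [Finset.mem_filter] at hl ⊢
      refine ⟨hl.1, ?_⟩
      by_contra h3
      exact absurd hl.2 (not_le.2 (hy g hg l hl.1 (not_le.1 h3)))
    have h4 := lo_add_on L (y, val g y)
    omega

/-- the two lines at an open gap -/
theorem exist {L : Finset (ℝ × ℝ)} {r : ℕ} {x : ℝ} (hop : ¬ Cl L r x) (hr : 1 ≤ r)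
    (hrL : r < L.card) : ∃ h ∈ L, ∃ g ∈ L, val h x < val g x ∧ le L (x, val h x) = r ∧
      lo L (x, val g x) = r := by
  have hLne : L.Nonempty := Finset.card_pos.1 (by omega)
  -- the set of lines of small rank
  set A := L.filter fun l => lo L (x, val l x) < r with hA
  have hAne : A.Nonempty := by
    obtain ⟨l, hl, hmin⟩ := Finset.exists_min_image L (fun l => val l x) hLne
    refine ⟨l, Finset.mem_filter.2 ⟨hl, ?_⟩⟩
    have : lo L (x, val l x) = 0 := by
      unfold lo
      rw [Finset.card_eq_zero, Finset.filter_eq_empty_iff]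
      intro m hm
      exact not_lt.2 (hmin m hm)
    omega
  obtain ⟨h, hhA, hmax⟩ := Finset.exists_max_image A (fun l => val l x) hAne
  have hh := Finset.mem_filter.1 hhA
  -- the lines above `h`
  set B := L.filter fun l => val h x < val l x with hB
  have hcard : le L (x, val h x) + B.card = L.card := by
    unfold le
    rw [hB, ← Finset.card_filter_add_card_filter_not (s := L) (fun l => val l x ≤ val h x)]
    congr 2
    ext l
    simp
  have hnext : ∀ g ∈ B, (∀ l ∈ B, val g x ≤ val l x) → lo L (x, val g x) = le L (x, val h x) := by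
    intro g hg hgmin
    have hg' := Finset.mem_filter.1 hg
    unfold lo le
    congr 1
    ext l
    simp only [Finset.mem_filter]
    refine and_congr_right fun hl => ⟨fun h1 => ?_, fun h1 => lt_of_le_of_lt h1 hg'.2⟩
    by_contra h2
    exact absurd h1 (not_lt.2 (hgmin l (Finset.mem_filter.2 ⟨hl, not_le.1 h2⟩)))
  have hcl : le L (x, val h x) ≤ r := by
    by_contra h1
    apply hop
    refine ⟨val h x, hh.2, ?_⟩
    rw [lo_add_on]
    omega
  have hBne : B.Nonempty := Finset.card_pos.1 (by omega)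
  obtain ⟨g, hg, hgmin⟩ := Finset.exists_min_image B (fun l => val l x) hBne
  have hg' := Finset.mem_filter.1 hg
  have hlog := hnext g hg hgmin
  have hge : r ≤ le L (x, val h x) := by
    by_contra h1
    have h2 : g ∈ A := Finset.mem_filter.2 ⟨hg'.1, by omega⟩
    exact absurd hg'.2 (not_lt.2 (hmax g h2))
  exact ⟨h, hh.1, g, hg'.1, hg'.2, by omega, by omega⟩

/-- the two lines meet where the gap closes -/
theorem meet {L : Finset (ℝ × ℝ)} {r : ℕ} {a b e : ℝ} {h g : ℝ × ℝ} (hh : h ∈ L) (hg : g ∈ L)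
    (hlow : ∀ x ∈ Ioo a b, le L (x, val h x) = r) (hupp : ∀ x ∈ Ioo a b, lo L (x, val g x) = r)
    (hlt : ∀ x ∈ Ioo a b, val h x < val g x) (he : e ∈ closure (Ioo a b)) (hcl : Cl L r e) :
    val h e = val g e := by
  apply le_antisymm
  · exact closure_minimal (s := Ioo a b) (t := {x | val h x ≤ val g x})
      (fun x hx => (hlt x hx).le) (isClosed_le (val_cont h) (val_cont g)) he
  · by_contra hne
    have hne' : val h e < val g e := not_le.1 hne
    obtain ⟨y, hy1, hy2⟩ := hcl
    rw [lo_add_on] at hy2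
    obtain ⟨x, hx, hper⟩ : ∃ x ∈ Ioo a b, ∀ l ∈ L, ∀ m ∈ L, val l e < val m e →
        val l x < val m x := by
      have := mem_closure_iff_nhds.1 he _ (persist L e)
      obtain ⟨x, hx1, hx2⟩ := this
      exact ⟨x, hx2, hx1⟩
    rcases lt_or_ge y (val g e) with h1 | h1
    · -- too many lines below `g` at `x`
      have h2 : le L (e, y) ≤ lo L (x, val g x) := by
        unfold le lo
        apply Finset.card_le_card
        intro l hl
        rw [Finset.mem_filter] at hl ⊢
        exact ⟨hl.1, hper l hl.1 g hg (lt_of_le_of_lt hl.2 h1)⟩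
      rw [hupp x hx] at h2
      omega
    · have h2 : le L (x, val h x) ≤ lo L (e, y) := by
        unfold le lo
        apply Finset.card_le_card
        intro l hl
        rw [Finset.mem_filter] at hl ⊢
        refine ⟨hl.1, ?_⟩
        have h3 : val l e ≤ val h e := by
          by_contra h4
          exact absurd hl.2 (not_le.2 (hper h hh l hl.1 (not_le.1 h4)))
        show val l e < y
        linarith
      rw [hlow x hx] at h2
      omega

end I_CHN

open I_CHN Set in
/-- **Item CHN.** -/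
theorem CHN_pf : S_CHN := by
  intro L r x₁ x₂ h12 hc1 hc2 hop
  by_contra hno
  push Not at hno
  have hno' : ∀ v ∈ chn L r, ¬ (x₁ < v.1 ∧ v.1 < x₂) := fun v hv h => absurd h.2
    (not_lt.2 (hno v hv h.1))
  have hop' : ∀ x ∈ Ioo x₁ x₂, ¬ Cl L r x := fun x hx => hop x hx.1 hx.2
  have hr : 1 ≤ r ∧ r < L.card := by
    obtain ⟨y, hy1, hy2⟩ := hc1
    rw [lo_add_on] at hy2
    have : le L (x₁, y) ≤ L.card := Finset.card_filter_le _ _
    omega
  have hmid : (x₁ + x₂) / 2 ∈ Ioo x₁ x₂ := ⟨by linarith, by linarith⟩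
  obtain ⟨h, hh, g, hg, hlt, hle, hlo⟩ := exist (hop' _ hmid) hr.1 hr.2
  have hlow := lower hop' hno' hmid hh hle
  have hupp := upper hop' hno' hmid hg hlo
  have hlt' : ∀ x ∈ Ioo x₁ x₂, val h x < val g x := by
    intro x hx
    by_contra h1
    have h2 := hlow x hx
    have h3 := hupp x hx
    have h4 : lo L (x, val g x) + on L (x, val g x) ≤ le L (x, val h x) := by
      rw [lo_add_on]
      unfold le
      apply Finset.card_le_card
      intro l hl
      rw [Finset.mem_filter] at hl ⊢
      exact ⟨hl.1, hl.2.trans (not_lt.1 h1)⟩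
    have h5 := one_le_on hg x
    omega
  have hcl : closure (Ioo x₁ x₂) = Icc x₁ x₂ := closure_Ioo h12.ne
  have e1 := meet hh hg hlow hupp hlt' (by rw [hcl]; exact ⟨le_rfl, h12.le⟩) hc1
  have e2 := meet hh hg hlow hupp hlt' (by rw [hcl]; exact ⟨h12.le, le_rfl⟩) hc2
  unfold val at e1 e2 hlt
  have h6 : (h.1 - g.1) * (x₂ - x₁) = 0 := by linarith
  have h7 : h.1 - g.1 = 0 := (mul_eq_zero.1 h6).resolve_right (by linarith)
  have h8 : h.1 = g.1 := by linarith
  rw [h8] at hlt e1
  linarith

end Pool.Agent.Work.MP_b25393_ag.U
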