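import Pool.Agent.Work.MP_b25393_ag.U.Stmts

/-!
CLA: the clean pairs of `F` with respect to the walls of slope `σ`.
-/

set_option autoImplicit false

namespace Pool.Agent.Work.MP_b25393_ag.U

open scoped Classical

namespace I_CLA

theorem tl_inj {σ : ℝ} {l m : ℝ × ℝ} (hl : l.1 ≠ σ) (hm : m.1 ≠ σ) (h : tl σ l = tl σ m) :
    l = m := by
  have hl' : l.1 - σ ≠ 0 := sub_ne_zero.mpr hl
  have hm' : m.1 - σ ≠ 0 := sub_ne_zero.mpr hm
  have h1 : 1 / (l.1 - σ) = 1 / (m.1 - σ) := congrArg Prod.fst h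
  have h2 : -l.2 / (l.1 - σ) = -m.2 / (m.1 - σ) := congrArg Prod.snd h
  have h3 : l.1 - σ = m.1 - σ := by
    rw [div_eq_div_iff hl' hm'] at h1
    linarith
  have h4 : l.2 = m.2 := by
    rw [h3, div_eq_div_iff hm' hm'] at h2
    have := mul_right_cancel₀ hm' h2
    linarith
  exact Prod.ext (by linarith) h4

theorem val_tl {σ u : ℝ} {l : ℝ × ℝ} (hl : l.1 ≠ σ) :
    val l (val (tl σ l) u) = u + σ * val (tl σ l) u := by
  have hl' : l.1 - σ ≠ 0 := sub_ne_zero.mpr hl
  unfold val tl
  field_simp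
  ring

end I_CLA

open I_CLA

theorem CLA_pf (hSTC : S_STC) (hTDD : S_TDD) : S_CLA := by
  intro F σ
  obtain ⟨hD, hc⟩ := hTDD F σ
  have hle : (tL F σ).card ≤ F.card := by
    rw [hc]; exact Finset.card_filter_le _ _
  by_cases h0 : (tL F σ).card = 0
  · have hL : tL F σ = ∅ := Finset.card_eq_zero.mp h0
    have hD0 : DD F = 0 := by
      rw [hD, hL]
      simp [DW, vts, nv]
    have hF : (F.filter fun l => l.1 ≠ σ) = ∅ := by
      rw [← Finset.card_eq_zero, ← hc, h0]
    have hcl : (cln F σ).card = 0 := by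
      unfold cln
      rw [hF]
      simp
    rw [hD0, hcl]
    simp
  · have h1 := hSTC (tL F σ) (cls F σ) (Nat.one_le_iff_ne_zero.mpr h0)
    rw [← hD] at h1
    have h2 : (cln F σ).card ≤ (((tL F σ) ×ˢ nxt (cls F σ)).filter
        fun q => Cln (tL F σ) q.1 q.2.1 q.2.2).card := by
      apply Finset.card_le_card_of_injOn (fun q => (tl σ q.1, q.2))
      · rintro ⟨c, q⟩ hq
        simp only [cln, Finset.coe_filter, Finset.mem_product, Finset.mem_filter,
          Set.mem_ofPred_eq] at hq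
        obtain ⟨⟨⟨hcF, hcσ⟩, hq1⟩, hcl⟩ := hq
        simp only [Finset.coe_filter, Finset.mem_product, Set.mem_ofPred_eq]
        refine ⟨⟨?_, hq1⟩, ?_⟩
        · unfold tL
          exact Finset.mem_image_of_mem _ (Finset.mem_filter.mpr ⟨hcF, hcσ⟩)
        · intro l' hl' hne u hu1 hu2 heq
          unfold tL at hl'
          obtain ⟨l, hl, rfl⟩ := Finset.mem_image.mp hl'
          obtain ⟨hlF, hlσ⟩ := Finset.mem_filter.mp hl
          have hlc : l ≠ c := fun e => hne (by rw [e])
          have e1 := val_tl (u := u) hlσ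
          have e2 := val_tl (u := u) hcσ
          rw [heq] at e1
          refine hcl l hlF hlc hlσ (val (tl σ c) u) (e1.trans e2.symm) ?_
          have e3 : val c (val (tl σ c) u) - σ * val (tl σ c) u = u := by
            rw [e2]; ring
          rw [e3]
          exact ⟨hu1, hu2⟩
      · rintro ⟨c, q⟩ hq ⟨c', q'⟩ hq' he
        simp only [cln, Finset.coe_filter, Finset.mem_product, Finset.mem_filter,
          Set.mem_ofPred_eq] at hq hq'
        simp only [Prod.mk.injEq] at he
        exact Prod.ext (tl_inj hq.1.1.2 hq'.1.1.2 he.1) he.2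
    have h3 : ((cln F σ).card : ℤ) ≤ ((((tL F σ) ×ˢ nxt (cls F σ)).filter
        fun q => Cln (tL F σ) q.1 q.2.1 q.2.2).card : ℤ) := by exact_mod_cast h2
    have h4 : ((tL F σ).card : ℤ) ≤ F.card := by exact_mod_cast hle
    linarith

end Pool.Agent.Work.MP_b25393_ag.U
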