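import Pool.Agent.Work.MP_b25393_ag.U.Stmts

/-! Item CLG: a clean line gives a gap which never closes. -/

set_option autoImplicit false

namespace Pool.Agent.Work.MP_b25393_ag.U

open scoped Classical

namespace I_CLG

theorem val_cont (l : ℝ × ℝ) : Continuous (val l) := by
  unfold val
  fun_prop

/-- every other line stays on its side -/
theorem side {L : Finset (ℝ × ℝ)} {c : ℝ × ℝ} {w w' : ℝ} (h : Cln L c w w') {l : ℝ × ℝ}
    (hl : l ∈ L) {x : ℝ} (h1 : w ≤ x) (h2 : x ≤ w') :
    val l x < val c x ↔ val l w < val c w := by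
  by_cases hlc : l = c
  · subst hlc
    simp
  have hne : ∀ z, w ≤ z → z ≤ x → val l z - val c z ≠ 0 := fun z hz1 hz2 h0 =>
    h l hl hlc z hz1 (hz2.trans h2) (sub_eq_zero.mp h0)
  have hcont : ContinuousOn (fun z => val l z - val c z) (Set.Icc w x) :=
    ((val_cont l).sub (val_cont c)).continuousOn
  have hw := hne w le_rfl h1
  have hx := hne x h1 le_rfl
  constructor
  · intro hlt
    by_contra hcon
    have h3 : 0 ≤ val l w - val c w := by linarith
    have h4 : val l x - val c x ≤ 0 := by linarith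
    obtain ⟨z, hz, hz0⟩ := intermediate_value_Icc' h1 hcont ⟨h4, h3⟩
    exact hne z hz.1 hz.2 hz0
  · intro hlt
    by_contra hcon
    have h3 : val l w - val c w ≤ 0 := by linarith
    have h4 : 0 ≤ val l x - val c x := by linarith
    obtain ⟨z, hz, hz0⟩ := intermediate_value_Icc h1 hcont ⟨h3, h4⟩
    exact hne z hz.1 hz.2 hz0

theorem rank {L : Finset (ℝ × ℝ)} {c : ℝ × ℝ} {w w' : ℝ} (h : Cln L c w w') {x : ℝ}
    (h1 : w ≤ x) (h2 : x ≤ w') : lo L (x, val c x) = lo L (w, val c w) := by
  unfold lo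
  congr 1
  apply Finset.filter_congr
  intro l hl
  exact side h hl h1 h2

theorem on_one {L : Finset (ℝ × ℝ)} {c : ℝ × ℝ} {w w' : ℝ} (h : Cln L c w w') (hc : c ∈ L) {x : ℝ}
    (h1 : w ≤ x) (h2 : x ≤ w') : on L (x, val c x) = 1 := by
  unfold on
  rw [Finset.card_eq_one]
  refine ⟨c, ?_⟩
  ext l
  rw [Finset.mem_filter, Finset.mem_singleton]
  constructor
  · rintro ⟨h3, h4⟩
    by_contra h5
    exact h l h3 h5 x h1 h2 h4
  · rintro rfl
    exact ⟨hc, rfl⟩

theorem lo_add_on (L : Finset (ℝ × ℝ)) (x y : ℝ) :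
    lo L (x, y) + on L (x, y) = (L.filter fun l => val l x ≤ y).card := by
  unfold lo on
  rw [← Finset.card_union_of_disjoint]
  · congr 1
    ext l
    simp only [Finset.mem_union, Finset.mem_filter]
    constructor
    · rintro (⟨h1, h2⟩ | ⟨h1, h2⟩)
      · exact ⟨h1, h2.le⟩
      · exact ⟨h1, h2.le⟩
    · rintro ⟨h1, h2⟩
      rcases h2.lt_or_eq with h3 | h3
      · exact Or.inl ⟨h1, h3⟩
      · exact Or.inr ⟨h1, h3⟩
  · rw [Finset.disjoint_left]
    intro l h1 h2
    rw [Finset.mem_filter] at h1 h2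
    exact (ne_of_lt h1.2) h2.2

/-- the number of lines below increases by at least one above `c` -/
theorem lo_lt {L : Finset (ℝ × ℝ)} {c : ℝ × ℝ} (hc : c ∈ L) {x y : ℝ} (h : val c x < y) :
    lo L (x, val c x) + 1 ≤ lo L (x, y) := by
  unfold lo
  rw [← Finset.card_insert_of_notMem (a := c)
    (s := L.filter fun l => val l (x, val c x).1 < (x, val c x).2)]
  · apply Finset.card_le_card
    intro l hl
    rw [Finset.mem_insert] at hl
    rw [Finset.mem_filter]
    rcases hl with rfl | hl
    · exact ⟨hc, h⟩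
    · rw [Finset.mem_filter] at hl
      exact ⟨hl.1, hl.2.trans h⟩
  · rw [Finset.mem_filter]
    rintro ⟨_, h2⟩
    exact lt_irrefl _ h2

theorem not_cl {L : Finset (ℝ × ℝ)} {c : ℝ × ℝ} {w w' : ℝ} (h : Cln L c w w') (hc : c ∈ L) {x : ℝ}
    (h1 : w ≤ x) (h2 : x ≤ w') : ¬ Cl L (lo L (w, val c w) + 1) x := by
  rintro ⟨y, hy1, hy2⟩
  rw [← rank h h1 h2] at hy1 hy2
  rcases lt_trichotomy y (val c x) with hlt | heq | hgt
  · rw [lo_add_on] at hy2
    have : (L.filter fun l => val l x ≤ y).card ≤ lo L (x, val c x) := by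
      unfold lo
      apply Finset.card_le_card
      intro l hl
      rw [Finset.mem_filter] at hl ⊢
      exact ⟨hl.1, lt_of_le_of_lt hl.2 hlt⟩
    omega
  · subst heq
    rw [on_one h hc h1 h2] at hy2
    omega
  · have := lo_lt hc hgt
    omega

theorem lo_lt_card {L : Finset (ℝ × ℝ)} {c : ℝ × ℝ} (hc : c ∈ L) (x : ℝ) :
    lo L (x, val c x) + 1 ≤ L.card := by
  unfold lo
  apply Finset.card_lt_card
  refine ⟨Finset.filter_subset _ _, fun hsub => ?_⟩
  have := hsub hc
  rw [Finset.mem_filter] at this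
  exact lt_irrefl _ this.2

end I_CLG

open I_CLG in
theorem CLG_pf : S_CLG := by
  intro L w w' hww
  set A := (Finset.Ico 1 L.card).filter fun r => ∀ x, w ≤ x → x ≤ w' → ¬ Cl L r x with hA
  have hmap : (L.filter fun c => Cln L c w w').card ≤ (insert L.card A).card := by
    refine Finset.card_le_card_of_injOn (fun c => lo L (w, val c w) + 1) ?_ ?_
    · intro c hc
      have hc' := Finset.mem_filter.mp (Finset.mem_coe.mp hc)
      have h1 := lo_lt_card hc'.1 w
      change lo L (w, val c w) + 1 ∈ insert L.card A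
      rw [Finset.mem_insert]
      by_cases h2 : lo L (w, val c w) + 1 = L.card
      · exact Or.inl h2
      · right
        rw [hA, Finset.mem_filter, Finset.mem_Ico]
        refine ⟨⟨by omega, by omega⟩, fun x hx1 hx2 => not_cl hc'.2 hc'.1 hx1 hx2⟩
    · intro c hc d hd hcd
      have hc' := Finset.mem_filter.mp (Finset.mem_coe.mp hc)
      have hd' := Finset.mem_filter.mp (Finset.mem_coe.mp hd)
      by_contra hne
      have hv : val d w ≠ val c w := hc'.2 d hd'.1 (Ne.symm hne) w le_rfl hww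
      simp only at hcd
      rcases lt_or_gt_of_ne hv with h1 | h1
      · have := lo_lt hd'.1 h1
        omega
      · have := lo_lt hc'.1 h1
        omega
  exact hmap.trans (Finset.card_insert_le _ _)

end Pool.Agent.Work.MP_b25393_ag.U
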