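import Pool.Agent.Work.MP_b25393_ag.U.Stmts

/-! CLO: the support is closed. -/

set_option autoImplicit false

namespace Pool.Agent.Work.MP_b25393_ag.U

open scoped Classical

namespace I_CLO

lemma cnt_mono (F : Finset (ℝ × ℝ)) (σ u v u' v' : ℝ) (hu : u' ≤ u) (hv : v ≤ v') :
    cnt F σ u v ≤ cnt F σ u' v' := by
  unfold cnt
  apply Finset.card_le_card
  intro l hl
  rw [Finset.mem_filter] at hl ⊢
  exact ⟨hl.1, hl.2.1, hu.trans hl.2.2.1, hl.2.2.2.trans hv⟩

end I_CLO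

open I_CLO

theorem CLO_pf : S_CLO := by
  intro U F σ
  rw [← closure_subset_iff_isClosed]
  intro t ht
  rw [Metric.mem_closure_iff] at ht
  intro η hη
  obtain ⟨t', ht', hd⟩ := ht (η / 2) (half_pos hη)
  obtain ⟨a, ha, hev⟩ := ht' (η / 2) (half_pos hη)
  refine ⟨a, ha, hev.mono fun n hn => hn.trans ?_⟩
  rw [Real.dist_eq, abs_lt] at hd
  exact_mod_cast cnt_mono (F n) σ _ _ _ _ (by linarith) (by linarith)

end Pool.Agent.Work.MP_b25393_ag.U
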