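import Pool.Agent.Work.MP_b25393_ag.U.Stmts

/-!
# Item CNT: the gaps closed over a point
-/

set_option autoImplicit false

namespace Pool.Agent.Work.MP_b25393_ag.U

open scoped Classical

namespace I_CNT

theorem lo_on_le (L : Finset (ℝ × ℝ)) (x : ℝ) {y y' : ℝ} (h : y < y') :
    lo L (x, y) + on L (x, y) ≤ lo L (x, y') := by
  unfold lo on
  rw [← Finset.card_union_of_disjoint]
  · refine Finset.card_le_card ?_
    intro l hl
    rw [Finset.mem_union, Finset.mem_filter, Finset.mem_filter] at hl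
    rw [Finset.mem_filter]
    rcases hl with ⟨h1, h2⟩ | ⟨h1, h2⟩
    · exact ⟨h1, lt_trans h2 h⟩
    · exact ⟨h1, lt_of_eq_of_lt h2 h⟩
  · rw [Finset.disjoint_filter]
    intro l _ h1 h2
    exact absurd h2 (ne_of_lt h1)

theorem lo_on_card (L : Finset (ℝ × ℝ)) (x y : ℝ) : lo L (x, y) + on L (x, y) ≤ L.card := by
  unfold lo on
  rw [← Finset.card_union_of_disjoint]
  · refine Finset.card_le_card ?_
    intro l hl
    rw [Finset.mem_union, Finset.mem_filter, Finset.mem_filter] at hl
    rcases hl with h1 | h1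
    · exact h1.1
    · exact h1.1
  · rw [Finset.disjoint_filter]
    intro l _ h1 h2
    exact absurd h2 (ne_of_lt h1)

theorem on_pos {L : Finset (ℝ × ℝ)} {x y : ℝ} :
    y ∈ L.image (fun l => val l x) ↔ 1 ≤ on L (x, y) := by
  rw [Finset.mem_image]
  unfold on
  constructor
  · rintro ⟨l, hl, rfl⟩
    exact Finset.card_pos.2 ⟨l, Finset.mem_filter.2 ⟨hl, rfl⟩⟩
  · intro h
    obtain ⟨l, hl⟩ := Finset.card_pos.1 h
    rw [Finset.mem_filter] at hl
    exact ⟨l, hl.1, hl.2⟩

theorem sum_on (L : Finset (ℝ × ℝ)) (x : ℝ) :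
    ∑ y ∈ L.image (fun l => val l x), on L (x, y) = L.card := by
  rw [Finset.card_eq_sum_card_image (fun l => val l x) L]
  rfl

theorem closed_eq (L : Finset (ℝ × ℝ)) (x : ℝ) :
    ((Finset.Ico 1 L.card).filter fun r => Cl L r x) =
      (L.image (fun l => val l x)).biUnion
        (fun y => Finset.Ioo (lo L (x, y)) (lo L (x, y) + on L (x, y))) := by
  ext r
  rw [Finset.mem_filter, Finset.mem_Ico, Finset.mem_biUnion]
  constructor
  · rintro ⟨_, y, h1, h2⟩
    refine ⟨y, on_pos.2 ?_, Finset.mem_Ioo.2 ⟨h1, h2⟩⟩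
    omega
  · rintro ⟨y, _, hr⟩
    rw [Finset.mem_Ioo] at hr
    have h3 := lo_on_card L x y
    exact ⟨⟨by omega, by omega⟩, y, hr.1, hr.2⟩

theorem card_closed (L : Finset (ℝ × ℝ)) (x : ℝ) :
    ((Finset.Ico 1 L.card).filter fun r => Cl L r x).card + nv L x = L.card := by
  rw [closed_eq, Finset.card_biUnion]
  · unfold nv
    rw [Finset.card_eq_sum_ones (L.image fun l => val l x), ← Finset.sum_add_distrib]
    conv_rhs => rw [← sum_on L x]
    refine Finset.sum_congr rfl fun y hy => ?_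
    have := on_pos.1 hy
    rw [Nat.card_Ioo]
    omega
  · intro y _ y' _ hne
    rw [Function.onFun, Finset.disjoint_left]
    intro r hr hr'
    rw [Finset.mem_Ioo] at hr hr'
    rcases lt_or_gt_of_ne hne with h | h
    · have := lo_on_le L x h
      omega
    · have := lo_on_le L x h
      omega

theorem sum_vts (L : Finset (ℝ × ℝ)) (x : ℝ) :
    ∑ v ∈ (vts L).filter (fun v => v.1 = x), ((on L v : ℤ) - 1) + nv L x = L.card := by
  have h1 : ∑ v ∈ (vts L).filter (fun v => v.1 = x), ((on L v : ℤ) - 1) =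
      ∑ y ∈ L.image (fun l => val l x), ((on L (x, y) : ℤ) - 1) := by
    have h2 : ∑ y ∈ (L.image (fun l => val l x)).filter (fun y => 2 ≤ on L (x, y)),
        ((on L (x, y) : ℤ) - 1) = ∑ y ∈ L.image (fun l => val l x), ((on L (x, y) : ℤ) - 1) := by
      refine Finset.sum_subset (Finset.filter_subset _ _) ?_
      intro y hy hy'
      have h3 := on_pos.1 hy
      rw [Finset.mem_filter, not_and] at hy'
      have h4 := hy' hy
      have h5 : on L (x, y) = 1 := by omega
      rw [h5]
      norm_num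
    rw [← h2]
    refine Finset.sum_bij (fun v _ => v.2) ?_ ?_ ?_ ?_
    · intro v hv
      rw [Finset.mem_filter, mem_vts] at hv
      obtain ⟨h3, rfl⟩ := hv
      rw [Finset.mem_filter]
      exact ⟨on_pos.2 (le_trans (by norm_num) h3), h3⟩
    · intro v hv w hw h
      rw [Finset.mem_filter] at hv hw
      exact Prod.ext (hv.2.trans hw.2.symm) h
    · intro y hy
      rw [Finset.mem_filter] at hy
      exact ⟨(x, y), Finset.mem_filter.2 ⟨mem_vts.2 hy.2, rfl⟩, rfl⟩
    · intro v hv
      rw [Finset.mem_filter] at hv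
      obtain ⟨_, rfl⟩ := hv
      rfl
  rw [h1, Finset.sum_sub_distrib]
  unfold nv
  have h3 := sum_on L x
  have h4 : (∑ y ∈ L.image (fun l => val l x), (on L (x, y) : ℤ)) = L.card := by
    exact_mod_cast h3
  rw [h4]
  simp

end I_CNT

/-- The gaps closed over a point. -/
theorem CNT_pf : S_CNT := fun L x => ⟨I_CNT.card_closed L x, I_CNT.sum_vts L x⟩

end Pool.Agent.Work.MP_b25393_ag.U
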