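import Pool.Agent.Work.MP_b25393_ag.U.Stmts

/-!
Item GFI of the block U: Sylvester-Gallai off the vertical direction.
-/

set_option autoImplicit false

namespace Pool.Agent.Work.MP_b25393_ag.U

open scoped Classical

namespace I_GFI

/-- every non vertical line through two points contains a third one -/
def Third (P : Finset (ℝ × ℝ)) : Prop :=
  ∀ a b : ℝ, ∀ p ∈ P, ∀ q ∈ P, p.1 ≠ q.1 → p.2 = a * p.1 + b → q.2 = a * q.1 + b →
    ∃ r ∈ P, r.2 = a * r.1 + b ∧ r ≠ p ∧ r ≠ q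

/-- `δ` is at most every positive vertical distance -/
def Mn (P : Finset (ℝ × ℝ)) (δ : ℝ) : Prop :=
  ∀ a b : ℝ, ∀ q ∈ P, ∀ r ∈ P, q.1 ≠ r.1 → q.2 = a * q.1 + b → r.2 = a * r.1 + b →
    ∀ p ∈ P, p.2 ≠ a * p.1 + b → δ ≤ |p.2 - (a * p.1 + b)|

theorem side {P : Finset (ℝ × ℝ)} {δ a b t : ℝ} (hδ : 0 < δ) (hM : Mn P δ) {p z z' : ℝ × ℝ}
    (hp : p ∈ P) (hz : z ∈ P) (hz' : z' ∈ P) (hd : |p.2 - (a * p.1 + b)| = δ)
    (h1 : z.2 = a * z.1 + b) (h2 : z'.2 = a * z'.1 + b) (hne : z'.1 ≠ p.1)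
    (ht : z'.1 - z.1 = t * (z'.1 - p.1)) (ht0 : 0 < t) (ht1 : t < 1) : False := by
  have hx : z'.1 - p.1 ≠ 0 := sub_ne_zero.mpr hne
  set m : ℝ := (z'.2 - p.2) / (z'.1 - p.1) with hm
  have hm' : m * (z'.1 - p.1) = z'.2 - p.2 := by rw [hm]; field_simp
  -- the difference at `z.1`
  have key : z.2 - (m * z.1 + (p.2 - m * p.1)) = -(t * (p.2 - (a * p.1 + b))) := by
    have e1 : m * z.1 = m * z'.1 - t * (m * (z'.1 - p.1)) := by
      have : z.1 = z'.1 - t * (z'.1 - p.1) := by linarith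
      rw [this]; ring
    have e2 : m * z'.1 = m * p.1 + (z'.2 - p.2) := by linarith
    have e3 : z.1 = z'.1 - t * (z'.1 - p.1) := by linarith
    rw [e1, hm', h1, e2, e3, h2]
    ring
  have hdne : p.2 - (a * p.1 + b) ≠ 0 := by
    intro h
    rw [h, abs_zero] at hd
    linarith
  have hzne : z.2 ≠ m * z.1 + (p.2 - m * p.1) := by
    intro h
    rw [sub_eq_zero.mpr h] at key
    have : t * (p.2 - (a * p.1 + b)) = 0 := by linarith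
    rcases mul_eq_zero.1 this with h | h
    · linarith
    · exact hdne h
  have h := hM m (p.2 - m * p.1) p hp z' hz' (fun e => hne e.symm) (by ring) (by linarith) z hz hzne
  rw [key, abs_neg, abs_mul, hd, abs_of_pos ht0] at h
  nlinarith

theorem side_r {P : Finset (ℝ × ℝ)} {δ a b : ℝ} (hδ : 0 < δ) (hM : Mn P δ) {p z z' : ℝ × ℝ}
    (hp : p ∈ P) (hz : z ∈ P) (hz' : z' ∈ P) (hd : |p.2 - (a * p.1 + b)| = δ)
    (h1 : z.2 = a * z.1 + b) (h2 : z'.2 = a * z'.1 + b) (hne : z ≠ z')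
    (hl : p.1 < z.1) (hl' : p.1 < z'.1) : False := by
  have hx : z.1 ≠ z'.1 := fun e => hne (Prod.ext e (by rw [h1, h2, e]))
  rcases lt_or_gt_of_ne hx with h | h
  · have h0 : 0 < z'.1 - p.1 := by linarith
    refine side hδ hM hp hz hz' hd h1 h2 (by linarith [hl'] : p.1 < z'.1).ne'
      (t := (z'.1 - z.1) / (z'.1 - p.1)) ?_ ?_ ?_
    · field_simp
    · exact div_pos (by linarith) h0
    · rw [div_lt_one h0]; linarith
  · have h0 : 0 < z.1 - p.1 := by linarith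
    refine side hδ hM hp hz' hz hd h2 h1 (by linarith [hl] : p.1 < z.1).ne'
      (t := (z.1 - z'.1) / (z.1 - p.1)) ?_ ?_ ?_
    · field_simp
    · exact div_pos (by linarith) h0
    · rw [div_lt_one h0]; linarith

theorem side_l {P : Finset (ℝ × ℝ)} {δ a b : ℝ} (hδ : 0 < δ) (hM : Mn P δ) {p z z' : ℝ × ℝ}
    (hp : p ∈ P) (hz : z ∈ P) (hz' : z' ∈ P) (hd : |p.2 - (a * p.1 + b)| = δ)
    (h1 : z.2 = a * z.1 + b) (h2 : z'.2 = a * z'.1 + b) (hne : z ≠ z')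
    (hl : z.1 < p.1) (hl' : z'.1 < p.1) : False := by
  have hx : z.1 ≠ z'.1 := fun e => hne (Prod.ext e (by rw [h1, h2, e]))
  rcases lt_or_gt_of_ne hx with h | h
  · -- `z.1 < z'.1 < p.1`
    have h0 : z.1 - p.1 < 0 := by linarith
    refine side hδ hM hp hz' hz hd h2 h1 (by linarith [hl] : z.1 < p.1).ne
      (t := (z.1 - z'.1) / (z.1 - p.1)) ?_ ?_ ?_
    · have := h0.ne
      field_simp
    · exact div_pos_of_neg_of_neg (by linarith) h0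
    · rw [div_lt_one_of_neg h0]; linarith
  · have h0 : z'.1 - p.1 < 0 := by linarith
    refine side hδ hM hp hz hz' hd h1 h2 (by linarith [hl'] : z'.1 < p.1).ne
      (t := (z'.1 - z.1) / (z'.1 - p.1)) ?_ ?_ ?_
    · have := h0.ne
      field_simp
    · exact div_pos_of_neg_of_neg (by linarith) h0
    · rw [div_lt_one_of_neg h0]; linarith

/-- A minimal pair: one point of the line on each side and one above or below `p`. -/
theorem three {P : Finset (ℝ × ℝ)} {δ a b : ℝ} (hδ : 0 < δ) (hM : Mn P δ) (hT : Third P)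
    {p q r : ℝ × ℝ} (hp : p ∈ P) (hq : q ∈ P) (hr : r ∈ P) (hqr : q.1 ≠ r.1)
    (h1 : q.2 = a * q.1 + b) (h2 : r.2 = a * r.1 + b) (hd : |p.2 - (a * p.1 + b)| = δ) :
    (∃ z ∈ P, z.2 = a * z.1 + b ∧ z.1 < p.1) ∧ (∃ z ∈ P, z.2 = a * z.1 + b ∧ p.1 < z.1) ∧
      ∃ z ∈ P, z.2 = a * z.1 + b ∧ z.1 = p.1 := by
  obtain ⟨s, hs, h3, hsq, hsr⟩ := hT a b q hq r hr hqr h1 h2
  have hqr' : q ≠ r := fun e => hqr (by rw [e])
  have R : ∀ {z z' : ℝ × ℝ}, z ∈ P → z' ∈ P → z.2 = a * z.1 + b → z'.2 = a * z'.1 + b →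
      z ≠ z' → p.1 < z.1 → p.1 < z'.1 → False := fun hz hz' h1 h2 hne hl hl' =>
    side_r hδ hM hp hz hz' hd h1 h2 hne hl hl'
  have L : ∀ {z z' : ℝ × ℝ}, z ∈ P → z' ∈ P → z.2 = a * z.1 + b → z'.2 = a * z'.1 + b →
      z ≠ z' → z.1 < p.1 → z'.1 < p.1 → False := fun hz hz' h1 h2 hne hl hl' =>
    side_l hδ hM hp hz hz' hd h1 h2 hne hl hl'
  have M : ∀ {z z' : ℝ × ℝ}, z.2 = a * z.1 + b → z'.2 = a * z'.1 + b →
      z ≠ z' → z.1 = p.1 → z'.1 = p.1 → False := fun h1 h2 hne e e' =>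
    hne (Prod.ext (e.trans e'.symm) (by rw [h1, h2, e, e']))
  rcases lt_trichotomy q.1 p.1 with a1 | a1 | a1 <;>
  rcases lt_trichotomy r.1 p.1 with a2 | a2 | a2 <;>
  rcases lt_trichotomy s.1 p.1 with a3 | a3 | a3 <;>
  first
    | exact (R hq hr h1 h2 hqr' a1 a2).elim
    | exact (R hs hq h3 h1 hsq a3 a1).elim
    | exact (R hs hr h3 h2 hsr a3 a2).elim
    | exact (L hq hr h1 h2 hqr' a1 a2).elim
    | exact (L hs hq h3 h1 hsq a3 a1).elim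
    | exact (L hs hr h3 h2 hsr a3 a2).elim
    | exact (M h1 h2 hqr' a1 a2).elim
    | exact (M h3 h1 hsq a3 a1).elim
    | exact (M h3 h2 hsr a3 a2).elim
    | exact ⟨⟨q, hq, h1, a1⟩, ⟨r, hr, h2, a2⟩, ⟨s, hs, h3, a3⟩⟩
    | exact ⟨⟨q, hq, h1, a1⟩, ⟨s, hs, h3, a3⟩, ⟨r, hr, h2, a2⟩⟩
    | exact ⟨⟨r, hr, h2, a2⟩, ⟨q, hq, h1, a1⟩, ⟨s, hs, h3, a3⟩⟩
    | exact ⟨⟨r, hr, h2, a2⟩, ⟨s, hs, h3, a3⟩, ⟨q, hq, h1, a1⟩⟩
    | exact ⟨⟨s, hs, h3, a3⟩, ⟨q, hq, h1, a1⟩, ⟨r, hr, h2, a2⟩⟩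
    | exact ⟨⟨s, hs, h3, a3⟩, ⟨r, hr, h2, a2⟩, ⟨q, hq, h1, a1⟩⟩

/-- The line through `u` and `z` and a point `v` vertically at distance `δ` from `u`. -/
theorem through {P : Finset (ℝ × ℝ)} {δ : ℝ} (hδ : 0 < δ) (hM : Mn P δ) (hT : Third P)
    {u v z : ℝ × ℝ} (hu : u ∈ P) (hv : v ∈ P) (hz : z ∈ P) (huv : u.1 = v.1)
    (hd : |v.2 - u.2| = δ) (hzu : z.1 ≠ u.1) :
    (∃ w ∈ P, w.2 - u.2 = (z.2 - u.2) / (z.1 - u.1) * (w.1 - u.1) ∧ w.1 < u.1) ∧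
      ∃ w ∈ P, w.2 - u.2 = (z.2 - u.2) / (z.1 - u.1) * (w.1 - u.1) ∧ u.1 < w.1 := by
  set m : ℝ := (z.2 - u.2) / (z.1 - u.1) with hm
  have hx : z.1 - u.1 ≠ 0 := sub_ne_zero.mpr hzu
  have hm' : m * (z.1 - u.1) = z.2 - u.2 := by rw [hm]; field_simp
  have h := three (a := m) (b := u.2 - m * u.1) hδ hM hT hv hu hz (fun e => hzu e.symm)
    (by ring) (by linarith) (by rw [← huv]; rw [show v.2 - (m * u.1 + (u.2 - m * u.1)) = v.2 - u.2 by ring]; exact hd)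
  obtain ⟨⟨w, hw, hw1, hw2⟩, ⟨w', hw', hw1', hw2'⟩, _⟩ := h
  exact ⟨⟨w, hw, by rw [hw1]; ring, by rw [huv]; exact hw2⟩,
    ⟨w', hw', by rw [hw1']; ring, by rw [huv]; exact hw2'⟩⟩

/-- The contradiction, `hi` above `lo`. -/
theorem final {P : Finset (ℝ × ℝ)} {δ : ℝ} (hδ : 0 < δ) (hM : Mn P δ) (hT : Third P)
    {hi lo : ℝ × ℝ} (hh : hi ∈ P) (hl : lo ∈ P) (h1 : hi.1 = lo.1) (h2 : hi.2 = lo.2 + δ)
    {z₀ : ℝ × ℝ} (hz₀ : z₀ ∈ P) (hz₀' : z₀.1 < lo.1) : False := by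
  have hne : (P.filter fun z => z.1 < lo.1).Nonempty := ⟨z₀, Finset.mem_filter.2 ⟨hz₀, hz₀'⟩⟩
  obtain ⟨z, hz, hmin⟩ := Finset.exists_min_image (P.filter fun z => z.1 < lo.1)
    (fun z => (lo.2 - z.2) / (lo.1 - z.1)) hne
  rw [Finset.mem_filter] at hz
  have hd1 : |hi.2 - lo.2| = δ := by rw [h2]; rw [add_sub_cancel_left]; exact abs_of_pos hδ
  have hd2 : |lo.2 - hi.2| = δ := by rw [abs_sub_comm]; exact hd1
  obtain ⟨w, hw, hw1, hw2⟩ := (through hδ hM hT hl hh hz.1 h1.symm hd1 hz.2.ne).2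
  obtain ⟨z', hz', hz1, hz2⟩ := (through hδ hM hT hh hl hw h1 hd2 (by rw [h1]; exact hw2.ne')).1
  rw [h1] at hz2 hz1
  have hm := hmin z' (Finset.mem_filter.2 ⟨hz', hz2⟩)
  set m : ℝ := (lo.2 - z.2) / (lo.1 - z.1) with hmdef
  have hzm : (z.2 - lo.2) / (z.1 - lo.1) = m := by
    rw [hmdef, ← neg_sub lo.2 z.2, ← neg_sub lo.1 z.1, neg_div_neg_eq]
  rw [hzm] at hw1
  have hw0 : 0 < w.1 - lo.1 := by linarith
  have hz0 : 0 < lo.1 - z'.1 := by linarith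
  have hm' : m ≤ (lo.2 - z'.2) / (lo.1 - z'.1) := hm
  rw [le_div_iff₀ hz0] at hm'
  -- slope of the line through `hi` and `w`
  set m' : ℝ := (w.2 - hi.2) / (w.1 - lo.1) with hm'def
  have hm'e : m' * (w.1 - lo.1) = w.2 - hi.2 := by rw [hm'def]; field_simp
  have hlt : m' < m := by
    have : m' * (w.1 - lo.1) < m * (w.1 - lo.1) := by rw [hm'e, ← hw1]; linarith
    exact lt_of_mul_lt_mul_right this hw0.le
  have h3 : m' * (lo.1 - z'.1) < m * (lo.1 - z'.1) := mul_lt_mul_of_pos_right hlt hz0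
  nlinarith [hz1]

end I_GFI

open I_GFI in
theorem GFI_pf : S_GFI := by
  intro P hxx hcol
  by_contra hcon
  have hT : Third P := by
    intro a b p hp q hq hpq h1 h2
    by_contra h
    refine hcon ⟨a, b, p, hp, q, hq, hpq, h1, h2, fun r hr hr' => ?_⟩
    by_contra hr2
    rw [not_or] at hr2
    exact h ⟨r, hr, hr', hr2.1, hr2.2⟩
  -- the finite set of distances
  obtain ⟨p₀, hp₀, q₀, hq₀, hpq₀⟩ := hxx
  let D : (ℝ × ℝ) × (ℝ × ℝ) × (ℝ × ℝ) → ℝ := fun t =>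
    |t.1.2 - (t.2.1.2 + (t.2.2.2 - t.2.1.2) / (t.2.2.1 - t.2.1.1) * (t.1.1 - t.2.1.1))|
  let A := (P ×ˢ P ×ˢ P).filter fun t => t.2.1.1 ≠ t.2.2.1 ∧ D t ≠ 0
  have hline : ∀ {a b : ℝ} {q r : ℝ × ℝ}, q.1 ≠ r.1 → q.2 = a * q.1 + b → r.2 = a * r.1 + b →
      ∀ p : ℝ × ℝ, D (p, q, r) = |p.2 - (a * p.1 + b)| := by
    intro a b q r hqr h1 h2 p
    have hx : r.1 - q.1 ≠ 0 := sub_ne_zero.mpr fun e => hqr e.symm
    have : (r.2 - q.2) / (r.1 - q.1) = a := by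
      rw [div_eq_iff hx, h1, h2]; ring
    show |p.2 - (q.2 + (r.2 - q.2) / (r.1 - q.1) * (p.1 - q.1))| = _
    rw [this, h1]
    congr 1
    ring
  have hA : A.Nonempty := by
    have hx : q₀.1 - p₀.1 ≠ 0 := sub_ne_zero.mpr fun e => hpq₀ e.symm
    by_contra hem
    refine hcol ⟨(q₀.2 - p₀.2) / (q₀.1 - p₀.1),
      p₀.2 - (q₀.2 - p₀.2) / (q₀.1 - p₀.1) * p₀.1, fun p hp => ?_⟩
    by_contra hp'
    refine hem ⟨(p, p₀, q₀), Finset.mem_filter.2 ⟨Finset.mem_product.2 ⟨hp,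
      Finset.mem_product.2 ⟨hp₀, hq₀⟩⟩, hpq₀, ?_⟩⟩
    intro h0
    apply hp'
    have : p.2 - (p₀.2 + (q₀.2 - p₀.2) / (q₀.1 - p₀.1) * (p.1 - p₀.1)) = 0 := abs_eq_zero.1 h0
    linarith
  obtain ⟨⟨p, q, r⟩, ht, hmin⟩ := Finset.exists_min_image A D hA
  rw [Finset.mem_filter, Finset.mem_product, Finset.mem_product] at ht
  obtain ⟨⟨hp, hq, hr⟩, hqr, hD⟩ := ht
  simp only at hp hq hr hqr
  set δ : ℝ := D (p, q, r) with hδdef
  have hδ : 0 < δ := lt_of_le_of_ne (abs_nonneg _) (Ne.symm hD)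
  have hM : Mn P δ := by
    intro a b q' hq' r' hr' hqr' h1 h2 p' hp' hne
    have e := hline hqr' h1 h2 p'
    rw [← e]
    refine hmin (p', q', r') (Finset.mem_filter.2 ⟨Finset.mem_product.2 ⟨hp',
      Finset.mem_product.2 ⟨hq', hr'⟩⟩, hqr', ?_⟩)
    rw [e]
    exact abs_ne_zero.2 (sub_ne_zero.2 hne)
  have hx : r.1 - q.1 ≠ 0 := sub_ne_zero.mpr fun e => hqr e.symm
  have e1 : q.2 = (r.2 - q.2) / (r.1 - q.1) * q.1 +
      (q.2 - (r.2 - q.2) / (r.1 - q.1) * q.1) := by ring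
  have e2 : r.2 = (r.2 - q.2) / (r.1 - q.1) * r.1 +
      (q.2 - (r.2 - q.2) / (r.1 - q.1) * q.1) := by
    have : (r.2 - q.2) / (r.1 - q.1) * (r.1 - q.1) = r.2 - q.2 := by field_simp
    linarith
  have e3 := hline hqr e1 e2 p
  obtain ⟨⟨z, hz, hz1, hz2⟩, _, ⟨b, hb, hb1, hb2⟩⟩ := three hδ hM hT hp hq hr hqr e1 e2
    (by rw [← e3])
  have hpb : |p.2 - b.2| = δ := by
    rw [hb1, hb2, ← e3]
  rcases le_or_gt b.2 p.2 with h | h
  · refine final hδ hM hT hp hb hb2.symm ?_ hz (by rw [hb2]; exact hz2)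
    rw [abs_of_nonneg (by linarith)] at hpb
    linarith
  · refine final hδ hM hT hb hp hb2 ?_ hz hz2
    rw [abs_of_neg (by linarith)] at hpb
    linarith

end Pool.Agent.Work.MP_b25393_ag.U
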