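import Pool.Agent.Work.MP_b25393_ag.U.Stmts

/-!
# Item GIN: Sylvester-Gallai with an infinite column
-/

set_option autoImplicit false

namespace Pool.Agent.Work.MP_b25393_ag.U

open scoped Classical

namespace I_GIN

/-- the top points of the columns -/
def Top (P : Set (ℝ × ℝ)) : Set (ℝ × ℝ) := {z | z ∈ P ∧ ∀ t, (z.1, t) ∈ P → t ≤ z.2}

/-- the bottom points of the columns -/
def Bot (P : Set (ℝ × ℝ)) : Set (ℝ × ℝ) := {z | z ∈ P ∧ ∀ t, (z.1, t) ∈ P → z.2 ≤ t}

theorem top_finite {P : Set (ℝ × ℝ)} (h : (Prod.fst '' P).Finite) : (Top P).Finite := by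
  refine Set.Finite.of_finite_image (f := Prod.fst) (h.subset ?_) ?_
  · rintro x ⟨z, hz, rfl⟩
    exact ⟨z, hz.1, rfl⟩
  · intro z hz z' hz' hzz
    have h1 : z'.2 ≤ z.2 := hz.2 z'.2 (by rw [hzz]; exact hz'.1)
    have h2 : z.2 ≤ z'.2 := hz'.2 z.2 (by rw [← hzz]; exact hz.1)
    exact Prod.ext hzz (le_antisymm h2 h1)

theorem bot_finite {P : Set (ℝ × ℝ)} (h : (Prod.fst '' P).Finite) : (Bot P).Finite := by
  refine Set.Finite.of_finite_image (f := Prod.fst) (h.subset ?_) ?_
  · rintro x ⟨z, hz, rfl⟩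
    exact ⟨z, hz.1, rfl⟩
  · intro z hz z' hz' hzz
    have h1 : z.2 ≤ z'.2 := hz.2 z'.2 (by rw [hzz]; exact hz'.1)
    have h2 : z'.2 ≤ z.2 := hz'.2 z.2 (by rw [← hzz]; exact hz.1)
    exact Prod.ext hzz (le_antisymm h1 h2)

end I_GIN

open I_GIN in
/-- [GIN] -/
theorem GIN_pf : S_GIN := by
  intro P hP hX c hinf hq
  set X : Set ℝ := Prod.fst '' P with hXdef
  set E : Set (ℝ × ℝ) := Top P ∪ Bot P with hE
  have hEfin : E.Finite := (top_finite hX).union (bot_finite hX)
  -- the ordinates over `c` of the lines through two extreme points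
  set B : Set ℝ := (fun q : (ℝ × ℝ) × (ℝ × ℝ) =>
    q.1.2 + (q.2.2 - q.1.2) / (q.2.1 - q.1.1) * (c - q.1.1)) '' (E ×ˢ E) with hB
  have hBfin : B.Finite := (hEfin.prod hEfin).image _
  obtain ⟨t, ht, htB⟩ := hinf.exists_notMem_finite hBfin
  have htP : (c, t) ∈ P := ht
  -- the points off the column `c`
  set Q : Set (ℝ × ℝ) := P ∩ Prod.fst ⁻¹' (X \ {c}) with hQ
  have hQc : IsCompact Q := by
    refine hP.inter_right ?_
    exact ((hX.subset Set.sdiff_subset).isClosed).preimage continuous_fst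
  have hQmem : ∀ z ∈ P, z.1 ≠ c → z ∈ Q := fun z hz hzc => ⟨hz, ⟨z, hz, rfl⟩, hzc⟩
  have hQn : Q.Nonempty := by
    obtain ⟨q, hqP, hqc⟩ := hq
    exact ⟨q, hQmem q hqP hqc⟩
  set f : ℝ × ℝ → ℝ := fun z => (z.2 - t) / (z.1 - c) with hf
  have hne : ∀ z ∈ Q, z.1 - c ≠ 0 := fun z hz => sub_ne_zero.mpr hz.2.2
  have hfc : ContinuousOn f Q := by
    refine ContinuousOn.div ?_ ?_ hne
    · exact (continuous_snd.sub continuous_const).continuousOn
    · exact (continuous_fst.sub continuous_const).continuousOn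
  obtain ⟨z, hz, hmax⟩ := hQc.exists_isMaxOn hQn hfc
  have hmax' : ∀ r ∈ P, r.1 ≠ c → f r ≤ f z := fun r hr hrc => hmax (hQmem r hr hrc)
  -- a point with maximal slope is extreme
  have hext : ∀ r ∈ P, r.1 ≠ c → f r = f z → r ∈ E := by
    intro r hr hrc hfr
    rcases lt_or_gt_of_ne hrc with h | h
    · right
      refine ⟨hr, fun s hs => ?_⟩
      have h1 : f (r.1, s) ≤ f r := by
        rw [hfr]
        exact hmax' (r.1, s) hs hrc
      have h2 : r.1 - c < 0 := by linarith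
      have h3 : (s - t) / (r.1 - c) ≤ (r.2 - t) / (r.1 - c) := h1
      rw [div_le_div_right_of_neg h2] at h3
      linarith
    · left
      refine ⟨hr, fun s hs => ?_⟩
      have h1 : f (r.1, s) ≤ f r := by
        rw [hfr]
        exact hmax' (r.1, s) hs hrc
      have h2 : 0 < r.1 - c := by linarith
      have h3 : (s - t) / (r.1 - c) ≤ (r.2 - t) / (r.1 - c) := h1
      rw [div_le_div_iff_of_pos_right h2] at h3
      linarith
  have hzc : z.1 ≠ c := hz.2.2
  have hz0 : z.1 - c ≠ 0 := hne z hz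
  have hzline : f z * (z.1 - c) = z.2 - t := by
    show (z.2 - t) / (z.1 - c) * (z.1 - c) = z.2 - t
    rw [div_mul_cancel₀ _ hz0]
  refine ⟨f z, t - f z * c, (c, t), htP, z, hz.1, fun h => hzc h.symm, ?_, ?_, ?_⟩
  · show t = f z * c + (t - f z * c)
    ring
  · linarith
  · intro r hr hrl
    by_cases hrc : r.1 = c
    · left
      refine Prod.ext hrc ?_
      rw [hrl, hrc]
      ring
    · right
      have hr0 : r.1 - c ≠ 0 := sub_ne_zero.mpr hrc
      have hfr : f r = f z := by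
        show (r.2 - t) / (r.1 - c) = f z
        rw [div_eq_iff hr0, hrl]
        ring
      by_cases hrz : r.1 = z.1
      · refine Prod.ext hrz ?_
        rw [hrl, hrz]
        linarith
      · exfalso
        apply htB
        refine ⟨(z, r), ⟨hext z hz.1 hzc rfl, hext r hr hrc hfr⟩, ?_⟩
        show z.2 + (r.2 - z.2) / (r.1 - z.1) * (c - z.1) = t
        have h5 : r.1 - z.1 ≠ 0 := sub_ne_zero.mpr hrz
        have h6 : (r.2 - z.2) / (r.1 - z.1) = f z := by
          rw [div_eq_iff h5, hrl]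
          linarith
        rw [h6]
        linarith

end Pool.Agent.Work.MP_b25393_ag.U
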