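import Pool.Agent.Work.MP_b25393_ag.U.Stmts

/-!
# No normalised sequence
-/

set_option autoImplicit false

namespace Pool.Agent.Work.MP_b25393_ag.U

open scoped Classical

namespace I_LIM

/-- The support points. -/
def PP (S : Finset ℝ) (U : Ultrafilter ℕ) (F : ℕ → Finset (ℝ × ℝ)) : Set (ℝ × ℝ) :=
  {p | p.1 ∈ S ∧ Sp U F p.1 p.2}

theorem PP_closed (hCLO : S_CLO) (S : Finset ℝ) (U : Ultrafilter ℕ) (F : ℕ → Finset (ℝ × ℝ)) :
    IsClosed (PP S U F) := by
  have e : PP S U F = ⋃ σ ∈ S, ({σ} : Set ℝ) ×ˢ {t : ℝ | Sp U F σ t} := by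
    ext ⟨s, t⟩
    simp only [PP, Set.mem_ofPred_eq, Set.mem_iUnion, Set.mem_prod, Set.mem_singleton_iff]
    constructor
    · rintro ⟨h1, h2⟩
      exact ⟨s, h1, rfl, h2⟩
    · rintro ⟨σ, h1, rfl, h2⟩
      exact ⟨h1, h2⟩
  rw [e]
  exact isClosed_biUnion_finset fun σ _ => isClosed_singleton.prod (hCLO U F σ)

/-- Splitting a filtered set. -/
theorem card_le3 (F : Finset (ℝ × ℝ)) (p q r s : ℝ × ℝ → Prop) [DecidablePred p]
    [DecidablePred q] [DecidablePred r] [DecidablePred s]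
    (h : ∀ l ∈ F, p l → q l ∨ r l ∨ s l) :
    ((F.filter p).card : ℝ) ≤ (F.filter q).card + (F.filter r).card + (F.filter s).card := by
  have h1 : F.filter p ⊆ F.filter q ∪ F.filter r ∪ F.filter s := by
    intro l hl
    rw [Finset.mem_filter] at hl
    rw [Finset.mem_union, Finset.mem_union, Finset.mem_filter, Finset.mem_filter,
      Finset.mem_filter]
    rcases h l hl.1 hl.2 with h | h | h
    · exact Or.inl (Or.inl ⟨hl.1, h⟩)
    · exact Or.inl (Or.inr ⟨hl.1, h⟩)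
    · exact Or.inr ⟨hl.1, h⟩
  have h2 := (Finset.card_le_card h1).trans ((Finset.card_union_le _ _).trans
    (Nat.add_le_add_right (Finset.card_union_le _ _) _))
  exact_mod_cast h2

theorem card_le2 (F : Finset (ℝ × ℝ)) (p q r : ℝ × ℝ → Prop) [DecidablePred p]
    [DecidablePred q] [DecidablePred r]
    (h : ∀ l ∈ F, p l → q l ∨ r l) :
    ((F.filter p).card : ℝ) ≤ (F.filter q).card + (F.filter r).card := by
  have h1 : F.filter p ⊆ F.filter q ∪ F.filter r := by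
    intro l hl
    rw [Finset.mem_filter] at hl
    rw [Finset.mem_union, Finset.mem_filter, Finset.mem_filter]
    rcases h l hl.1 hl.2 with h | h
    · exact Or.inl ⟨hl.1, h⟩
    · exact Or.inr ⟨hl.1, h⟩
  have h2 := (Finset.card_le_card h1).trans (Finset.card_union_le _ _)
  exact_mod_cast h2

theorem card_le1 (F : Finset (ℝ × ℝ)) (p q : ℝ × ℝ → Prop) [DecidablePred p]
    [DecidablePred q] (h : ∀ l ∈ F, p l → q l) :
    ((F.filter p).card : ℝ) ≤ (F.filter q).card := by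
  have h1 : F.filter p ⊆ F.filter q := by
    intro l hl
    rw [Finset.mem_filter] at hl ⊢
    exact ⟨hl.1, h l hl.1 hl.2⟩
  exact_mod_cast Finset.card_le_card h1

/-- A support point is not in the tail. -/
theorem bounded (U : Ultrafilter ℕ) (F : ℕ → Finset (ℝ × ℝ)) (σ t C : ℝ)
    (hcard : ∀ᶠ n in (U : Filter ℕ), 1 ≤ (F n).card)
    (hC : ∀ a : ℝ, 0 < a → ∀ᶠ n in (U : Filter ℕ),
      (tai (F n) σ C : ℝ) ≤ a * ((F n).card : ℝ)) (ht : Sp U F σ t) : |t| ≤ C := by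
  by_contra hlt
  push Not at hlt
  obtain ⟨a, ha, hev⟩ := ht ((|t| - C) / 2) (by linarith)
  obtain ⟨n, h1, h2, h3⟩ := (hcard.and (hev.and (hC (a / 2) (by linarith)))).exists
  have h4 : (cnt (F n) σ (t - (|t| - C) / 2) (t + (|t| - C) / 2) : ℝ) ≤ tai (F n) σ C := by
    unfold cnt tai
    refine card_le1 _ _ _ ?_
    rintro l _ ⟨e1, e2, e3⟩
    refine ⟨e1, ?_⟩
    rcases le_or_gt 0 t with h0 | h0
    · rw [abs_of_nonneg h0] at hlt e2 e3
      exact lt_of_lt_of_le (by linarith) (le_abs_self _)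
    · rw [abs_of_neg h0] at hlt e2 e3
      exact lt_of_lt_of_le (by linarith) (neg_le_abs _)
  have h5 : (1 : ℝ) ≤ (F n).card := by exact_mod_cast h1
  nlinarith

end I_LIM

open I_LIM in
/-- No normalised sequence. -/
theorem LIM_pf (hSUP : S_SUP) (hCLO : S_CLO) (hTWO : S_TWO) (hBDD : S_BDD) (hGEO : S_GEO) :
    S_LIM := by
  intro S U F θ β i j hθ hβ hθβ hi hj hij hSq hN
  obtain ⟨C, hC1, hC⟩ := hBDD S U F θ β i j hθ hβ hθβ hi hj hij hSq hN
  have hcard := hSq.inf 1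
  have hθ' : θ < β := by
    have h0 : (0 : ℝ) ≤ S.card := Nat.cast_nonneg _
    nlinarith
  have hclosed := PP_closed hCLO S U F
  have hsub : PP S U F ⊆ (S : Set ℝ) ×ˢ Set.Icc (-C) C := by
    rintro ⟨σ, t⟩ ⟨h1, h2⟩
    exact ⟨h1, abs_le.1 (bounded U F σ t C hcard (hC σ h1) h2)⟩
  have hcomp : IsCompact (PP S U F) :=
    (S.finite_toSet.isCompact.prod isCompact_Icc).of_isClosed_subset hclosed hsub
  have hfin : (Prod.fst '' PP S U F).Finite := by
    refine S.finite_toSet.subset ?_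
    rintro _ ⟨p, hp, rfl⟩
    exact hp.1
  -- support points of the classes `i`, `j`
  have hneg : ∀ σ ∈ S, (∀ᶠ n in (U : Filter ℕ),
      β * (F n).card ≤ (((F n).filter fun l => l.1 = σ ∧ l.2 ≤ 0).card : ℝ)) →
      ∃ t, t ≤ 0 ∧ Sp U F σ t := by
    intro σ hσ hev
    obtain ⟨t, -, h2, h3⟩ := hSUP U F σ (-1) 0 (β - θ) (by linarith) hcard (by
      filter_upwards [hev, hN] with n h1 h2
      have h3 := h2.out σ hσ
      have h4 : (((F n).filter fun l => l.1 = σ ∧ l.2 ≤ 0).card : ℝ) ≤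
          cnt (F n) σ (-1) 0 + tai (F n) σ 1 := by
        unfold cnt tai
        refine card_le2 _ _ _ _ ?_
        rintro l _ ⟨e1, e2⟩
        by_cases e3 : -1 ≤ l.2
        · exact Or.inl ⟨e1, e3, e2⟩
        · push Not at e3
          exact Or.inr ⟨e1, lt_of_lt_of_le (by linarith) (neg_le_abs l.2)⟩
      linarith)
    exact ⟨t, h2, h3⟩
  have hpos : ∀ σ ∈ S, (∀ᶠ n in (U : Filter ℕ),
      β * (F n).card ≤ (((F n).filter fun l => l.1 = σ ∧ 0 ≤ l.2).card : ℝ)) →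
      ∃ t, 0 ≤ t ∧ Sp U F σ t := by
    intro σ hσ hev
    obtain ⟨t, h1, -, h3⟩ := hSUP U F σ 0 1 (β - θ) (by linarith) hcard (by
      filter_upwards [hev, hN] with n h1 h2
      have h3 := h2.out σ hσ
      have h4 : (((F n).filter fun l => l.1 = σ ∧ 0 ≤ l.2).card : ℝ) ≤
          cnt (F n) σ 0 1 + tai (F n) σ 1 := by
        unfold cnt tai
        refine card_le2 _ _ _ _ ?_
        rintro l _ ⟨e1, e2⟩
        by_cases e3 : l.2 ≤ 1
        · exact Or.inl ⟨e1, e2, e3⟩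
        · push Not at e3
          exact Or.inr ⟨e1, lt_of_lt_of_le e3 (le_abs_self l.2)⟩
      linarith)
    exact ⟨t, h1, h3⟩
  obtain ⟨t₁, ht₁, hs₁⟩ := hneg i hi (hN.mono fun n h => h.il)
  obtain ⟨t₂, ht₂, hs₂⟩ := hpos i hi (hN.mono fun n h => h.ir)
  obtain ⟨t₃, ht₃, hs₃⟩ := hneg j hj (hN.mono fun n h => h.jl)
  obtain ⟨t₄, ht₄, hs₄⟩ := hpos j hj (hN.mono fun n h => h.jr)
  -- the support is not on a line
  have hline : ¬ ∃ a b : ℝ, ∀ p ∈ PP S U F, p.2 = a * p.1 + b := by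
    rintro ⟨a, b, hab⟩
    have e1 : t₁ = a * i + b := hab (i, t₁) ⟨hi, hs₁⟩
    have e2 : t₂ = a * i + b := hab (i, t₂) ⟨hi, hs₂⟩
    have e3 : t₃ = a * j + b := hab (j, t₃) ⟨hj, hs₃⟩
    have e4 : t₄ = a * j + b := hab (j, t₄) ⟨hj, hs₄⟩
    have f1 : a * i + b = 0 := by linarith
    have f2 : a * j + b = 0 := by linarith
    have f3 : a * (i - j) = 0 := by linarith
    have ha : a = 0 := (mul_eq_zero.1 f3).resolve_right (sub_ne_zero.2 hij)
    have hb : b = 0 := by rw [ha] at f1; linarith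
    have hz : ∀ σ ∈ S, ∀ t, Sp U F σ t → t = 0 := by
      intro σ hσ t ht
      have := hab (σ, t) ⟨hσ, ht⟩
      simpa [ha, hb] using this
    have g1 : ∀ σ ∈ S, ∀ᶠ n in (U : Filter ℕ),
        (cnt (F n) σ 1 C : ℝ) < θ / 3 * ((F n).card : ℝ) := by
      intro σ hσ
      have h1 : ¬ ∀ᶠ n in (U : Filter ℕ), θ / 3 * ((F n).card : ℝ) ≤ (cnt (F n) σ 1 C : ℝ) := by
        intro h
        obtain ⟨t, h1, -, h3⟩ := hSUP U F σ 1 C (θ / 3) (by linarith) hcard h
        have := hz σ hσ t h3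
        linarith
      have h2 := Ultrafilter.eventually_not.2 h1
      filter_upwards [h2] with n hn
      exact not_le.1 hn
    have g2 : ∀ σ ∈ S, ∀ᶠ n in (U : Filter ℕ),
        (cnt (F n) σ (-C) (-1) : ℝ) < θ / 3 * ((F n).card : ℝ) := by
      intro σ hσ
      have h1 : ¬ ∀ᶠ n in (U : Filter ℕ),
          θ / 3 * ((F n).card : ℝ) ≤ (cnt (F n) σ (-C) (-1) : ℝ) := by
        intro h
        obtain ⟨t, -, h1, h3⟩ := hSUP U F σ (-C) (-1) (θ / 3) (by linarith) hcard h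
        have := hz σ hσ t h3
        linarith
      have h2 := Ultrafilter.eventually_not.2 h1
      filter_upwards [h2] with n hn
      exact not_le.1 hn
    have g1' := (Filter.eventually_all_finset S).2 g1
    have g2' := (Filter.eventually_all_finset S).2 g2
    have g3' := (Filter.eventually_all_finset S).2 (fun σ hσ => hC σ hσ (θ / 3) (by linarith))
    obtain ⟨n, k1, k2, k3, k4⟩ := (g1'.and (g2'.and (g3'.and hN))).exists
    obtain ⟨σ, hσ, hbig⟩ := k4.big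
    have k5 : (((F n).filter fun l => l.1 = σ ∧ 1 ≤ |l.2|).card : ℝ) ≤
        cnt (F n) σ 1 C + cnt (F n) σ (-C) (-1) + tai (F n) σ C := by
      unfold cnt tai
      refine card_le3 _ _ _ _ _ ?_
      rintro l _ ⟨e1, e2⟩
      by_cases e3 : C < |l.2|
      · exact Or.inr (Or.inr ⟨e1, e3⟩)
      · push Not at e3
        rcases le_or_gt 0 l.2 with h0 | h0
        · rw [abs_of_nonneg h0] at e2 e3
          exact Or.inl ⟨e1, e2, e3⟩
        · rw [abs_of_neg h0] at e2 e3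
          exact Or.inr (Or.inl ⟨e1, by linarith, by linarith⟩)
    have k1' := k1 σ hσ
    have k2' := k2 σ hσ
    have k3' := k3 σ hσ
    linarith
  obtain ⟨a, b, p, hp, q, hq, hpq, hp2, hq2, hall⟩ := hGEO (PP S U F) hcomp hfin
    ⟨(i, t₁), ⟨hi, hs₁⟩, (j, t₃), ⟨hj, hs₃⟩, hij⟩ hline
  obtain ⟨σ₃, h3S, h3p, h3q, hs⟩ := hTWO S U F hSq p.1 hp.1 q.1 hq.1 hpq (-a) b
    (by rw [show b - p.1 * -a = p.2 by rw [hp2]; ring]; exact hp.2)
    (by rw [show b - q.1 * -a = q.2 by rw [hq2]; ring]; exact hq.2)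
  have hr := hall (σ₃, a * σ₃ + b) ⟨h3S, by
    show Sp U F σ₃ (a * σ₃ + b)
    rw [show a * σ₃ + b = b - σ₃ * -a by ring]
    exact hs⟩ rfl
  rcases hr with hr | hr
  · exact h3p (congrArg Prod.fst hr)
  · exact h3q (congrArg Prod.fst hr)

end Pool.Agent.Work.MP_b25393_ag.U
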