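import Pool.Agent.Work.MP_b25393_ag.U.Stmts

set_option autoImplicit false

namespace Pool.Agent.Work.MP_b25393_ag.U

open scoped Classical

theorem MED_pf : S_MED := by
  intro T hT
  -- the elements with many elements below or at them
  set G : Finset ℝ := T.filter fun m => (T.card : ℝ) / 2 ≤ ((T.filter fun t => t ≤ m).card : ℝ)
    with hG
  have hmax : T.max' hT ∈ G := by
    rw [hG, Finset.mem_filter]
    refine ⟨Finset.max'_mem T hT, ?_⟩
    have h1 : (T.filter fun t => t ≤ T.max' hT) = T := by
      apply Finset.filter_true_of_mem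
      intro t ht
      exact Finset.le_max' T t ht
    rw [h1]
    have : (0 : ℝ) ≤ (T.card : ℝ) := Nat.cast_nonneg _
    linarith
  have hne : G.Nonempty := ⟨_, hmax⟩
  obtain ⟨m, hmG, hmin⟩ : ∃ m ∈ G, ∀ m' ∈ G, m ≤ m' :=
    ⟨G.min' hne, Finset.min'_mem G hne, fun m' h => Finset.min'_le G m' h⟩
  rw [hG, Finset.mem_filter] at hmG
  refine ⟨m, hmG.1, hmG.2, ?_⟩
  -- split the set at m
  have hsplit : (T.filter fun t => t < m).card + (T.filter fun t => m ≤ t).card = T.card := by
    have h := Finset.card_filter_add_card_filter_not (s := T) (fun t => t < m)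
    simpa only [not_lt] using h
  have hsplit' : ((T.filter fun t => t < m).card : ℝ) + ((T.filter fun t => m ≤ t).card : ℝ)
      = (T.card : ℝ) := by exact_mod_cast hsplit
  by_cases hlt : (T.filter fun t => t < m).Nonempty
  · obtain ⟨m', hm', hmx⟩ : ∃ m' ∈ (T.filter fun t => t < m),
        ∀ t ∈ (T.filter fun t => t < m), t ≤ m' :=
      ⟨_, Finset.max'_mem _ hlt, fun t h => Finset.le_max' _ t h⟩
    rw [Finset.mem_filter] at hm'
    have hnot : m' ∉ G := fun h => absurd (hmin m' h) (not_le.mpr hm'.2)
    have hsmall : ((T.filter fun t => t ≤ m').card : ℝ) < (T.card : ℝ) / 2 := by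
      by_contra hc
      exact hnot (by rw [hG, Finset.mem_filter]; exact ⟨hm'.1, not_lt.mp hc⟩)
    have hsub : (T.filter fun t => t < m) ⊆ (T.filter fun t => t ≤ m') := by
      intro t ht
      have ht2 := Finset.mem_filter.mp ht
      exact Finset.mem_filter.mpr ⟨ht2.1, hmx t ht⟩
    have hle : ((T.filter fun t => t < m).card : ℝ) ≤ ((T.filter fun t => t ≤ m').card : ℝ) := by
      exact_mod_cast Finset.card_le_card hsub
    linarith
  · rw [Finset.not_nonempty_iff_eq_empty] at hlt
    rw [hlt, Finset.card_empty] at hsplit'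
    have : (0 : ℝ) ≤ (T.card : ℝ) := Nat.cast_nonneg _
    push_cast at hsplit'
    linarith

end Pool.Agent.Work.MP_b25393_ag.U
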