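import Pool.Agent.Work.MP_b25393_ag.U.Stmts

set_option autoImplicit false

namespace Pool.Agent.Work.MP_b25393_ag.U

open scoped Classical

namespace I_NRM

theorem tr_inj (x₀ y₀ lam : ℝ) (h : 0 < lam) : Function.Injective (tr x₀ y₀ lam) := by
  intro l m hlm
  unfold tr at hlm
  rw [Prod.mk.injEq] at hlm
  obtain ⟨h1, h2⟩ := hlm
  have h3 := mul_left_cancel₀ h.ne' h2
  rw [h1] at h3
  exact Prod.ext h1 (by linarith)

/-- counting in the image under an injective map -/
theorem card_filter_image (F : Finset (ℝ × ℝ)) (f : ℝ × ℝ → ℝ × ℝ) (hf : Function.Injective f)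
    (p q : ℝ × ℝ → Prop) [DecidablePred p] [DecidablePred q] (hpq : ∀ l, p (f l) ↔ q l) :
    ((F.image f).filter p).card = (F.filter q).card := by
  have h1 : (F.image f).filter p = (F.filter q).image f := by
    ext x
    simp only [Finset.mem_filter, Finset.mem_image]
    constructor
    · rintro ⟨⟨l, hl, rfl⟩, hp⟩
      exact ⟨l, ⟨hl, (hpq l).1 hp⟩, rfl⟩
    · rintro ⟨l, ⟨hl, hq⟩, rfl⟩
      exact ⟨⟨l, hl, rfl⟩, (hpq l).2 hq⟩
  rw [h1, Finset.card_image_of_injective _ hf]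

/-- a median line of a class -/
theorem median (hMED : S_MED) (F : Finset (ℝ × ℝ)) (i : ℝ)
    (hne : 0 < (F.filter fun l => l.1 = i).card) : ∃ m : ℝ,
    ((F.filter fun l => l.1 = i).card : ℝ) / 2 ≤
      ((F.filter fun l => l.1 = i ∧ l.2 ≤ m).card : ℝ) ∧
    ((F.filter fun l => l.1 = i).card : ℝ) / 2 ≤
      ((F.filter fun l => l.1 = i ∧ m ≤ l.2).card : ℝ) := by
  have hinj : ∀ G : Finset (ℝ × ℝ), (∀ l ∈ G, l.1 = i) → (G.image Prod.snd).card = G.card := by
    intro G hG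
    apply Finset.card_image_of_injOn
    intro l hl m hm hlm
    exact Prod.ext ((hG l hl).trans (hG m hm).symm) hlm
  set G := F.filter fun l => l.1 = i with hGdef
  have hG : ∀ l ∈ G, l.1 = i := fun l hl => (Finset.mem_filter.1 hl).2
  have hT : (G.image Prod.snd).Nonempty := (Finset.card_pos.1 hne).image _
  obtain ⟨m, -, h1, h2⟩ := hMED _ hT
  rw [hinj G hG] at h1 h2
  have e1 : ((G.image Prod.snd).filter fun t => t ≤ m).card =
      (F.filter fun l => l.1 = i ∧ l.2 ≤ m).card := by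
    have : (G.image Prod.snd).filter (fun t => t ≤ m) =
        (F.filter fun l => l.1 = i ∧ l.2 ≤ m).image Prod.snd := by
      ext t
      simp only [hGdef, Finset.mem_filter, Finset.mem_image]
      constructor
      · rintro ⟨⟨l, ⟨hl, hi⟩, rfl⟩, ht⟩
        exact ⟨l, ⟨hl, hi, ht⟩, rfl⟩
      · rintro ⟨l, ⟨hl, hi, ht⟩, rfl⟩
        exact ⟨⟨l, ⟨hl, hi⟩, rfl⟩, ht⟩
    rw [this]
    exact hinj _ fun l hl => (Finset.mem_filter.1 hl).2.1
  have e2 : ((G.image Prod.snd).filter fun t => m ≤ t).card =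
      (F.filter fun l => l.1 = i ∧ m ≤ l.2).card := by
    have : (G.image Prod.snd).filter (fun t => m ≤ t) =
        (F.filter fun l => l.1 = i ∧ m ≤ l.2).image Prod.snd := by
      ext t
      simp only [hGdef, Finset.mem_filter, Finset.mem_image]
      constructor
      · rintro ⟨⟨l, ⟨hl, hi⟩, rfl⟩, ht⟩
        exact ⟨l, ⟨hl, hi, ht⟩, rfl⟩
      · rintro ⟨l, ⟨hl, hi, ht⟩, rfl⟩
        exact ⟨⟨l, ⟨hl, hi⟩, rfl⟩, ht⟩
    rw [this]
    exact hinj _ fun l hl => (Finset.mem_filter.1 hl).2.1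
  refine ⟨m, ?_, ?_⟩
  · rw [← e1]; exact h1
  · rw [← e2]; exact h2

end I_NRM

open I_NRM in
theorem NRM_pf (hTRN : S_TRN) (hMED : S_MED) (hSCA : S_SCA) : S_NRM := by
  intro S θ β hθ hβ hSθ
  refine ⟨2 * S.card + 1, fun F hS hN i hi j hj hij hci hcj => ?_⟩
  have hNR : (2 * (S.card : ℝ) + 1) ≤ F.card := by exact_mod_cast hN
  have hSn : (0 : ℝ) ≤ S.card := Nat.cast_nonneg _
  have hFpos : (0 : ℝ) < F.card := by linarith
  have hpos : ∀ s : ℝ, 2 * β * F.card ≤ ((F.filter fun l => l.1 = s).card : ℝ) →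
      0 < (F.filter fun l => l.1 = s).card := by
    intro s hs
    have : (0 : ℝ) < ((F.filter fun l => l.1 = s).card : ℝ) := lt_of_lt_of_le (by positivity) hs
    exact_mod_cast this
  obtain ⟨mi, hmi1, hmi2⟩ := median hMED F i (hpos i hci)
  obtain ⟨mj, hmj1, hmj2⟩ := median hMED F j (hpos j hcj)
  have hij' : i - j ≠ 0 := sub_ne_zero.2 hij
  set x₀ : ℝ := (mj - mi) / (i - j) with hx₀
  set y₀ : ℝ := mi + i * x₀ with hy₀
  have hi0 : i * x₀ - y₀ = -mi := by rw [hy₀]; ring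
  have hj0 : j * x₀ - y₀ = -mj := by
    have : (i - j) * x₀ = mj - mi := by rw [hx₀]; field_simp
    rw [hy₀]
    linarith
  set F1 := F.image (tr x₀ y₀ 1) with hF1
  obtain ⟨hD1, hc1⟩ := hTRN F x₀ y₀ 1 one_pos
  have hS1 : ∀ l ∈ F1, l.1 ∈ S := by
    intro l hl
    obtain ⟨m, hm, rfl⟩ := Finset.mem_image.1 hl
    exact hS m hm
  obtain ⟨W, hW, hout, σ, hσ, hbig⟩ := hSCA S F1 (θ * F.card) (by positivity) hS1 (by
    rw [hF1, hc1]
    nlinarith)
  have hWi : 0 < 1 / W := by positivity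
  obtain ⟨hD2, hc2⟩ := hTRN F1 0 0 (1 / W) hWi
  have hval : ∀ l : ℝ × ℝ, (tr 0 0 (1 / W) l).2 = l.2 / W := by
    intro l
    unfold tr
    simp only
    ring
  have hc : (F1.image (tr 0 0 (1 / W))).card = F.card := by rw [hc2, hF1, hc1]
  have hinj1 := tr_inj x₀ y₀ 1 one_pos
  have hinj2 := tr_inj 0 0 (1 / W) hWi
  have habs : ∀ l : ℝ × ℝ, |(tr 0 0 (1 / W) l).2| = |l.2| / W := by
    intro l
    rw [hval, abs_div, abs_of_pos hW]
  refine ⟨F1.image (tr 0 0 (1 / W)), hc, by rw [hD2, hF1, hD1], ?_⟩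
  -- the classes on both sides of the origin
  have hle : ∀ s m : ℝ, s * x₀ - y₀ = -m →
      ((F1.image (tr 0 0 (1 / W))).filter fun l => l.1 = s ∧ l.2 ≤ 0).card =
        (F.filter fun l => l.1 = s ∧ l.2 ≤ m).card := by
    intro s m hs
    rw [card_filter_image F1 _ hinj2 _ (fun l => l.1 = s ∧ l.2 ≤ 0), hF1,
      card_filter_image F _ hinj1 _ (fun l => l.1 = s ∧ l.2 ≤ m)]
    · intro l
      show l.1 = s ∧ 1 * (l.2 + l.1 * x₀ - y₀) ≤ 0 ↔ _
      refine and_congr_right fun h => ?_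
      rw [h]
      constructor
      · intro h'; linarith
      · intro h'; linarith
    · intro l
      rw [hval]
      refine and_congr_right fun h => ?_
      constructor
      · intro h'
        have := (div_le_iff₀ hW).1 h'
        linarith
      · intro h'
        exact (div_le_iff₀ hW).2 (by linarith)
  have hge : ∀ s m : ℝ, s * x₀ - y₀ = -m →
      ((F1.image (tr 0 0 (1 / W))).filter fun l => l.1 = s ∧ 0 ≤ l.2).card =
        (F.filter fun l => l.1 = s ∧ m ≤ l.2).card := by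
    intro s m hs
    rw [card_filter_image F1 _ hinj2 _ (fun l => l.1 = s ∧ 0 ≤ l.2), hF1,
      card_filter_image F _ hinj1 _ (fun l => l.1 = s ∧ m ≤ l.2)]
    · intro l
      show l.1 = s ∧ 0 ≤ 1 * (l.2 + l.1 * x₀ - y₀) ↔ _
      refine and_congr_right fun h => ?_
      rw [h]
      constructor
      · intro h'; linarith
      · intro h'; linarith
    · intro l
      rw [hval]
      refine and_congr_right fun h => ?_
      constructor
      · intro h'
        have := (le_div_iff₀ hW).1 h'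
        linarith
      · intro h'
        exact (le_div_iff₀ hW).2 (by linarith)
  refine ⟨?_, ?_, ⟨σ, hσ, ?_⟩, ?_, ?_, ?_, ?_⟩
  · intro l hl
    obtain ⟨m, hm, rfl⟩ := Finset.mem_image.1 hl
    exact hS1 m hm
  · intro s hs
    rw [hc]
    refine le_trans (le_of_eq ?_) (hout s hs)
    unfold tai
    rw [card_filter_image F1 _ hinj2 _ (fun l => l.1 = s ∧ W < |l.2|)]
    intro l
    rw [habs]
    refine and_congr_right fun _ => ?_
    rw [lt_div_iff₀ hW, one_mul]
  · rw [hc]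
    refine lt_of_lt_of_le hbig (le_of_eq ?_)
    rw [card_filter_image F1 _ hinj2 _ (fun l => l.1 = σ ∧ W ≤ |l.2|)]
    intro l
    rw [habs]
    refine and_congr_right fun _ => ?_
    rw [le_div_iff₀ hW, one_mul]
  · rw [hc, hle i mi hi0]
    linarith
  · rw [hc, hge i mi hi0]
    linarith
  · rw [hc, hle j mj hj0]
    linarith
  · rw [hc, hge j mj hj0]
    linarith

end Pool.Agent.Work.MP_b25393_ag.U
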