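import Pool.Agent.Work.MP_b25393_ag.U.Stmts

/-!
# Item SCA: choice of the scale
-/

set_option autoImplicit false

namespace Pool.Agent.Work.MP_b25393_ag.U

open scoped Classical

namespace I_SCA

theorem card_le (S : Finset ℝ) (F : Finset (ℝ × ℝ)) (K : ℝ) (hS : ∀ l ∈ F, l.1 ∈ S)
    (h : ∀ σ ∈ S, (tai F σ 0 : ℝ) ≤ K) : (F.card : ℝ) ≤ (S.card : ℝ) * (1 + K) := by
  have h1 : F.card = ∑ σ ∈ S, (F.filter fun l => l.1 = σ).card :=
    Finset.card_eq_sum_card_fiberwise (fun l hl => hS l hl)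
  have h2 : ∀ σ ∈ S, ((F.filter fun l => l.1 = σ).card : ℝ) ≤ 1 + K := by
    intro σ hσ
    have h3 : (F.filter fun l => l.1 = σ) ⊆
        insert ((σ, 0) : ℝ × ℝ) (F.filter fun l => l.1 = σ ∧ 0 < |l.2|) := by
      intro l hl
      rw [Finset.mem_filter] at hl
      rw [Finset.mem_insert, Finset.mem_filter]
      by_cases h0 : l.2 = 0
      · exact Or.inl (Prod.ext hl.2 h0)
      · exact Or.inr ⟨hl.1, hl.2, abs_pos.2 h0⟩
    have h4 : (F.filter fun l => l.1 = σ).card ≤ tai F σ 0 + 1 :=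
      (Finset.card_le_card h3).trans (Finset.card_insert_le _ _)
    have h5 : ((F.filter fun l => l.1 = σ).card : ℝ) ≤ (tai F σ 0 : ℝ) + 1 := by exact_mod_cast h4
    have h6 := h σ hσ
    linarith
  rw [h1]
  push_cast
  calc ∑ σ ∈ S, ((F.filter fun l => l.1 = σ).card : ℝ) ≤ ∑ _σ ∈ S, (1 + K) :=
        Finset.sum_le_sum h2
    _ = (S.card : ℝ) * (1 + K) := by rw [Finset.sum_const, nsmul_eq_mul]

end I_SCA

theorem SCA_pf : S_SCA := by
  intro S F K hK hS hcard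
  set T : Finset ℝ := insert 0 (F.image fun l => |l.2|) with hT
  have h0T : (0 : ℝ) ∈ T := Finset.mem_insert_self _ _
  have hpos : ∀ w ∈ T, 0 ≤ w := by
    intro w hw
    rw [hT, Finset.mem_insert, Finset.mem_image] at hw
    rcases hw with rfl | ⟨l, -, rfl⟩
    · exact le_refl _
    · exact abs_nonneg _
  have hmem : ∀ l ∈ F, |l.2| ∈ T := by
    intro l hl
    rw [hT]
    exact Finset.mem_insert_of_mem (Finset.mem_image_of_mem _ hl)
  set G : Finset ℝ := T.filter fun w => ∀ σ ∈ S, (tai F σ w : ℝ) ≤ K with hG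
  have hGne : G.Nonempty := by
    obtain ⟨w, hw, hmax⟩ := Finset.exists_max_image T id ⟨0, h0T⟩
    refine ⟨w, Finset.mem_filter.2 ⟨hw, ?_⟩⟩
    intro σ _
    have : tai F σ w = 0 := by
      unfold tai
      rw [Finset.card_eq_zero, Finset.filter_eq_empty_iff]
      rintro l hl ⟨-, h⟩
      exact absurd (hmax _ (hmem l hl)) (not_le.2 h)
    rw [this]
    simpa using hK
  obtain ⟨W, hW, hmin⟩ := Finset.exists_min_image G id hGne
  rw [hG, Finset.mem_filter] at hW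
  obtain ⟨hWT, hWgood⟩ := hW
  have hW0 : 0 < W := by
    rcases lt_or_eq_of_le (hpos W hWT) with h | h
    · exact h
    · exfalso
      rw [← h] at hWgood
      exact absurd (I_SCA.card_le S F K hS hWgood) (not_le.2 hcard)
  refine ⟨W, hW0, hWgood, ?_⟩
  obtain ⟨W', hW', hmax'⟩ := Finset.exists_max_image (T.filter fun w => w < W) id
    ⟨0, Finset.mem_filter.2 ⟨h0T, hW0⟩⟩
  rw [Finset.mem_filter] at hW'
  have hbad : ¬ ∀ σ ∈ S, (tai F σ W' : ℝ) ≤ K := by
    intro h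
    have := hmin W' (Finset.mem_filter.2 ⟨hW'.1, h⟩)
    exact absurd this (not_le.2 hW'.2)
  push Not at hbad
  obtain ⟨σ, hσ, hlt⟩ := hbad
  refine ⟨σ, hσ, hlt.trans_le ?_⟩
  unfold tai
  norm_cast
  refine Finset.card_le_card ?_
  intro l hl
  rw [Finset.mem_filter] at hl ⊢
  refine ⟨hl.1, hl.2.1, ?_⟩
  by_contra hc
  have := hmax' |l.2| (Finset.mem_filter.2 ⟨hmem l hl.1, not_le.1 hc⟩)
  exact absurd this (not_le.2 hl.2.2)

end Pool.Agent.Work.MP_b25393_ag.U
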