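import Pool.Agent.Work.MP_b25393_ag.U.Stmts

/-! Item STR of block U: the strip Melchior inequality with gain. -/

set_option autoImplicit false

namespace Pool.Agent.Work.MP_b25393_ag.U

open scoped Classical

namespace I_STR

/-- a closed gap is closed at the abscissa of a vertex -/
theorem mem_of_Cl {L : Finset (ℝ × ℝ)} {r : ℕ} {x : ℝ} (h : Cl L r x) :
    x ∈ (vts L).image Prod.fst := by
  obtain ⟨y, h1, h2⟩ := h
  refine Finset.mem_image.mpr ⟨(x, y), mem_vts.mpr ?_, rfl⟩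
  omega

/-- abscissae of vertices where the gap is closed -/
noncomputable def ZZ (L : Finset (ℝ × ℝ)) (r : ℕ) : Finset ℝ :=
  ((vts L).image Prod.fst).filter fun x => Cl L r x

/-- open walls -/
noncomputable def OO (L : Finset (ℝ × ℝ)) (W : Finset ℝ) (r : ℕ) : Finset ℝ :=
  W.filter fun w => ¬ Cl L r w

/-- chain vertices off the walls -/
noncomputable def CC (L : Finset (ℝ × ℝ)) (W : Finset ℝ) (r : ℕ) : Finset ℝ :=
  ((chn L r).filter fun v => v.1 ∉ W).image Prod.fst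

/-- the never closing pairs of one gap -/
noncomputable def nv1 (L : Finset (ℝ × ℝ)) (W : Finset ℝ) (r : ℕ) : Finset (ℝ × ℝ) :=
  (nxt W).filter fun q => ∀ x, q.1 ≤ x → x ≤ q.2 → ¬ Cl L r x

theorem mem_nxt {T : Finset ℝ} {q : ℝ × ℝ} : q ∈ nxt T ↔ Nxt T q.1 q.2 := by
  unfold nxt
  rw [Finset.mem_filter, Finset.mem_product]
  constructor
  · exact fun h => h.2
  · exact fun h => ⟨⟨h.1, h.2.1⟩, h⟩

theorem gap (hSUC : S_SUC) (hCHN : S_CHN) (L : Finset (ℝ × ℝ)) (W : Finset ℝ) (r : ℕ) :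
    (ZZ L r).card + (nv1 L W r).card ≤ (CC L W r).card + (OO L W r).card + 1 := by
  have hdisj : Disjoint (ZZ L r) (OO L W r) := by
    rw [Finset.disjoint_left]
    intro x hx hx'
    exact (Finset.mem_filter.mp hx').2 (Finset.mem_filter.mp hx).2
  have h1 := hSUC (ZZ L r) (OO L W r) (CC L W r) hdisj (by
    intro z z' hn hz hz'
    have hz1 : Cl L r z := (Finset.mem_filter.mp hz).2
    have hz2 : Cl L r z' := (Finset.mem_filter.mp hz').2
    have hopen : ∀ x, z < x → x < z' → ¬ Cl L r x := by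
      intro x hx1 hx2 hx
      exact hn.2.2.2 x (Finset.mem_union_left _ (Finset.mem_filter.mpr ⟨mem_of_Cl hx, hx⟩))
        ⟨hx1, hx2⟩
    obtain ⟨v, hv, hv1, hv2⟩ := hCHN L r z z' hn.2.2.1 hz1 hz2 hopen
    refine ⟨v.1, Finset.mem_image.mpr ⟨v, Finset.mem_filter.mpr ⟨hv, fun hW => ?_⟩, rfl⟩,
      hv1, hv2⟩
    exact hn.2.2.2 v.1 (Finset.mem_union_right _ (Finset.mem_filter.mpr
      ⟨hW, hopen v.1 hv1 hv2⟩)) ⟨hv1, hv2⟩)
  have h2 : nv1 L W r ⊆ (nxt (ZZ L r ∪ OO L W r)).filter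
      fun q => q.1 ∈ OO L W r ∧ q.2 ∈ OO L W r := by
    intro q hq
    obtain ⟨hq1, hq2⟩ := Finset.mem_filter.mp hq
    rw [mem_nxt] at hq1
    have e1 : q.1 ∈ OO L W r := Finset.mem_filter.mpr
      ⟨hq1.1, hq2 q.1 le_rfl hq1.2.2.1.le⟩
    have e2 : q.2 ∈ OO L W r := Finset.mem_filter.mpr
      ⟨hq1.2.1, hq2 q.2 hq1.2.2.1.le le_rfl⟩
    refine Finset.mem_filter.mpr ⟨mem_nxt.mpr ⟨Finset.mem_union_right _ e1,
      Finset.mem_union_right _ e2, hq1.2.2.1, fun z hz hz' => ?_⟩, e1, e2⟩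
    rcases Finset.mem_union.mp hz with h | h
    · exact hq2 z hz'.1.le hz'.2.le (Finset.mem_filter.mp h).2
    · exact hq1.2.2.2 z (Finset.mem_filter.mp h).1 hz'
  have h3 := Finset.card_le_card h2
  omega

theorem nev_card (L : Finset (ℝ × ℝ)) (W : Finset ℝ) :
    (nev L W).card = ∑ r ∈ Finset.Ico 1 L.card, (nv1 L W r).card := by
  unfold nev nv1
  rw [Finset.card_filter, Finset.sum_product]
  refine Finset.sum_congr rfl fun r _ => ?_
  rw [Finset.card_filter]

/-- swapping the order of counting -/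
theorem swap {α β : Type*} (A : Finset α) (B : Finset β) (P : α → β → Prop)
    [∀ a b, Decidable (P a b)] :
    ∑ a ∈ A, (B.filter fun b => P a b).card = ∑ b ∈ B, (A.filter fun a => P a b).card := by
  simp only [Finset.card_filter]
  exact Finset.sum_comm

theorem sumZ (hCNT : S_CNT) (L : Finset (ℝ × ℝ)) :
    ((∑ r ∈ Finset.Ico 1 L.card, (ZZ L r).card : ℕ) : ℤ) =
      ∑ v ∈ vts L, ((on L v : ℤ) - 1) := by
  unfold ZZ
  rw [swap (Finset.Ico 1 L.card) ((vts L).image Prod.fst) (fun r x => Cl L r x)]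
  push_cast
  rw [← Finset.sum_fiberwise_of_maps_to (s := vts L) (t := (vts L).image Prod.fst) (g := Prod.fst)
    (fun v hv => Finset.mem_image_of_mem _ hv)]
  refine Finset.sum_congr rfl fun x _ => ?_
  obtain ⟨h1, h2⟩ := hCNT L x
  have h3 : (((Finset.Ico 1 L.card).filter fun r => Cl L r x).card : ℤ) + nv L x = L.card := by
    exact_mod_cast h1
  linarith

theorem sumO (hCNT : S_CNT) (L : Finset (ℝ × ℝ)) (W : Finset ℝ) (hL : 1 ≤ L.card) :
    ((∑ r ∈ Finset.Ico 1 L.card, (OO L W r).card : ℕ) : ℤ) =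
      ∑ w ∈ W, ((nv L w : ℤ) - 1) := by
  unfold OO
  rw [swap (Finset.Ico 1 L.card) W (fun r x => ¬ Cl L r x)]
  push_cast
  refine Finset.sum_congr rfl fun x _ => ?_
  obtain ⟨h1, _⟩ := hCNT L x
  have h3 := Finset.card_filter_add_card_filter_not (s := Finset.Ico 1 L.card)
    (fun r => Cl L r x)
  rw [Nat.card_Ico] at h3
  omega

theorem sumC (L : Finset (ℝ × ℝ)) (W : Finset ℝ) :
    ∑ r ∈ Finset.Ico 1 L.card, (CC L W r).card ≤
      2 * ((vts L).filter fun v => v.1 ∉ W).card := by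
  have h1 : ∀ r ∈ Finset.Ico 1 L.card, (CC L W r).card ≤
      (((vts L).filter fun v => v.1 ∉ W).filter fun v => lo L v + on L v = r ∨ lo L v = r).card := by
    intro r _
    unfold CC chn
    refine Finset.card_image_le.trans (Finset.card_le_card fun v hv => ?_)
    simp only [Finset.mem_filter] at hv ⊢
    tauto
  refine (Finset.sum_le_sum h1).trans ?_
  rw [swap (Finset.Ico 1 L.card) ((vts L).filter fun v => v.1 ∉ W)
    (fun r v => lo L v + on L v = r ∨ lo L v = r)]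
  rw [mul_comm, ← smul_eq_mul, ← Finset.sum_const]
  refine Finset.sum_le_sum fun v _ => ?_
  have h2 : ((Finset.Ico 1 L.card).filter fun r => lo L v + on L v = r ∨ lo L v = r) ⊆
      {lo L v + on L v, lo L v} := by
    intro r hr
    rw [Finset.mem_filter] at hr
    rw [Finset.mem_insert, Finset.mem_singleton]
    rcases hr.2 with h | h
    · exact Or.inl h.symm
    · exact Or.inr h.symm
  exact (Finset.card_le_card h2).trans (Finset.card_le_two)

theorem split (hCNT : S_CNT) (L : Finset (ℝ × ℝ)) (W : Finset ℝ) :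
    ∑ v ∈ vts L, ((on L v : ℤ) - 1) =
      ∑ v ∈ (vts L).filter (fun v => v.1 ∉ W), ((on L v : ℤ) - 1) +
        ∑ w ∈ W, ((L.card : ℤ) - nv L w) := by
  rw [← Finset.sum_filter_add_sum_filter_not (vts L) (fun v => v.1 ∉ W)]
  congr 1
  rw [← Finset.sum_fiberwise_of_maps_to (s := (vts L).filter fun v => ¬ v.1 ∉ W) (t := W)
    (g := Prod.fst) (fun v hv => by
      have := (Finset.mem_filter.mp hv).2
      exact not_not.mp this)]
  refine Finset.sum_congr rfl fun w hw => ?_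
  obtain ⟨_, h2⟩ := hCNT L w
  have h3 : ((vts L).filter fun v => ¬ v.1 ∉ W).filter (fun v => v.1 = w) =
      (vts L).filter fun v => v.1 = w := by
    ext v
    simp only [Finset.mem_filter, not_not]
    constructor
    · exact fun h => ⟨h.1.1, h.2⟩
    · exact fun h => ⟨⟨h.1, h.2 ▸ hw⟩, h.2⟩
  rw [h3]
  linarith

end I_STR

open I_STR

/-- **Item STR.** -/
theorem STR_pf (hSUC : S_SUC) (hCHN : S_CHN) (hCNT : S_CNT) : S_STR := by
  intro L W hL
  have h1 : ∑ r ∈ Finset.Ico 1 L.card, ((ZZ L r).card + (nv1 L W r).card) ≤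
      ∑ r ∈ Finset.Ico 1 L.card, ((CC L W r).card + (OO L W r).card + 1) :=
    Finset.sum_le_sum fun r _ => gap hSUC hCHN L W r
  rw [Finset.sum_add_distrib, Finset.sum_add_distrib, Finset.sum_add_distrib, ← nev_card,
    Finset.sum_const, Nat.card_Ico, smul_eq_mul, mul_one] at h1
  have h2 := sumC L W
  have h3 := sumZ hCNT L
  have h4 := sumO hCNT L W hL
  have h5 := split hCNT L W
  have h6 : ((∑ r ∈ Finset.Ico 1 L.card, (ZZ L r).card : ℕ) : ℤ) + (nev L W).card ≤
      2 * (((vts L).filter fun v => v.1 ∉ W).card : ℤ) +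
        ((∑ r ∈ Finset.Ico 1 L.card, (OO L W r).card : ℕ) : ℤ) + ((L.card : ℤ) - 1) := by
    omega
  rw [h3, h4, h5] at h6
  have h7 : ∑ v ∈ (vts L).filter (fun v => v.1 ∉ W), (3 - (on L v : ℤ)) =
      2 * (((vts L).filter fun v => v.1 ∉ W).card : ℤ) -
        ∑ v ∈ (vts L).filter (fun v => v.1 ∉ W), ((on L v : ℤ) - 1) := by
    have h8 : 2 * (((vts L).filter fun v => v.1 ∉ W).card : ℤ) =
        ∑ v ∈ (vts L).filter (fun v => v.1 ∉ W), (2 : ℤ) := by
      rw [Finset.sum_const, nsmul_eq_mul]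
      ring
    rw [h8, ← Finset.sum_sub_distrib]
    exact Finset.sum_congr rfl fun v _ => by ring
  have h8 : ∑ w ∈ W, (2 * (nv L w : ℤ) - (L.card : ℤ)) =
      ∑ w ∈ W, ((nv L w : ℤ) - 1) - ∑ w ∈ W, ((L.card : ℤ) - nv L w) + W.card := by
    have h9 : (W.card : ℤ) = ∑ w ∈ W, (1 : ℤ) := by
      rw [Finset.sum_const, nsmul_eq_mul, mul_one]
    rw [h9, ← Finset.sum_sub_distrib, ← Finset.sum_add_distrib]
    exact Finset.sum_congr rfl fun v _ => by ring
  unfold DW
  rw [h7, h8]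
  linarith

end Pool.Agent.Work.MP_b25393_ag.U
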