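import Pool.Agent.Work.MP_b25393_ag.U.Stmts

/-!
Item SUC of the block U of MP_b25393_ag: counting consecutive pairs.
-/

set_option autoImplicit false

namespace Pool.Agent.Work.MP_b25393_ag.U

open scoped Classical

namespace I_SUC

theorem nxt_fst_inj {T : Finset ℝ} {w w' w'' : ℝ} (h1 : Nxt T w w') (h2 : Nxt T w w'') :
    w' = w'' := by
  rcases lt_trichotomy w' w'' with h | h | h
  · exact absurd ⟨h1.2.2.1, h⟩ (h2.2.2.2 w' h1.2.1)
  · exact h
  · exact absurd ⟨h2.2.2.1, h⟩ (h1.2.2.2 w'' h2.2.1)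

theorem nxt_snd_inj {T : Finset ℝ} {w w' v : ℝ} (h1 : Nxt T w v) (h2 : Nxt T w' v) :
    w = w' := by
  rcases lt_trichotomy w w' with h | h | h
  · exact absurd ⟨h, h2.2.2.1⟩ (h1.2.2.2 w' h2.1)
  · exact h
  · exact absurd ⟨h, h1.2.2.1⟩ (h2.2.2.2 w h1.1)

theorem mem_nxt {T : Finset ℝ} {q : ℝ × ℝ} : q ∈ nxt T ↔ Nxt T q.1 q.2 := by
  unfold nxt
  rw [Finset.mem_filter, Finset.mem_product]
  constructor
  · exact fun h => h.2
  · exact fun h => ⟨⟨h.1, h.2.1⟩, h⟩

theorem card_le (T : Finset ℝ) : T.card ≤ (nxt T).card + 1 := by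
  rcases T.eq_empty_or_nonempty with h | h
  · subst h
    simp
  · have hsub : T.erase (T.max' h) ⊆ (nxt T).image Prod.fst := by
      intro z hz
      rw [Finset.mem_erase] at hz
      have hlt : z < T.max' h := lt_of_le_of_ne (T.le_max' z hz.2) hz.1
      have hne : (T.filter fun y => z < y).Nonempty :=
        ⟨T.max' h, Finset.mem_filter.mpr ⟨T.max'_mem h, hlt⟩⟩
      have hm := Finset.min'_mem _ hne
      rw [Finset.mem_filter] at hm
      refine Finset.mem_image.mpr ⟨(z, (T.filter fun y => z < y).min' hne), ?_, rfl⟩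
      rw [mem_nxt]
      refine ⟨hz.2, hm.1, hm.2, ?_⟩
      rintro y hy ⟨h1, h2⟩
      have h3 := Finset.min'_le _ y (Finset.mem_filter.mpr ⟨hy, h1⟩)
      exact absurd h2 (not_lt.mpr h3)
    have h1 := Finset.card_le_card hsub
    have h2 : ((nxt T).image Prod.fst).card ≤ (nxt T).card := Finset.card_image_le
    rw [Finset.card_erase_of_mem (T.max'_mem h)] at h1
    omega

theorem both_le (Z O C : Finset ℝ)
    (hC : ∀ z z' : ℝ, Nxt (Z ∪ O) z z' → z ∈ Z → z' ∈ Z → ∃ c ∈ C, z < c ∧ c < z') :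
    ((nxt (Z ∪ O)).filter fun q => q.1 ∈ Z ∧ q.2 ∈ Z).card ≤ C.card := by
  have hex : ∀ q ∈ (nxt (Z ∪ O)).filter (fun q => q.1 ∈ Z ∧ q.2 ∈ Z),
      ∃ c ∈ C, q.1 < c ∧ c < q.2 := by
    intro q hq
    rw [Finset.mem_filter, mem_nxt] at hq
    exact hC q.1 q.2 hq.1 hq.2.1 hq.2.2
  choose! f hf using hex
  apply Finset.card_le_card_of_injOn f (fun q hq => (hf q hq).1)
  intro q hq q' hq' he
  have h1 := (hf q hq).2
  have h2 := (hf q' hq').2
  rw [Finset.mem_coe, Finset.mem_filter, mem_nxt] at hq hq'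
  rw [he] at h1
  have h3 : q.1 = q'.1 := by
    rcases lt_trichotomy q.1 q'.1 with h | h | h
    · exact absurd ⟨h, h2.1.trans h1.2⟩ (hq.1.2.2.2 _ hq'.1.1)
    · exact h
    · exact absurd ⟨h, h1.1.trans h2.2⟩ (hq'.1.2.2.2 _ hq.1.1)
  refine Prod.ext h3 ?_
  have h4 := hq.1
  rw [h3] at h4
  exact nxt_fst_inj h4 hq'.1

end I_SUC

theorem SUC_pf : S_SUC := by
  intro Z O C _ hC
  have h1 := I_SUC.card_le (Z ∪ O)
  have h2 := I_SUC.both_le Z O C hC
  have hl : ((nxt (Z ∪ O)).filter fun q => q.1 ∈ O).card ≤ O.card := by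
    apply Finset.card_le_card_of_injOn Prod.fst
    · intro q hq
      rw [Finset.mem_coe, Finset.mem_filter] at hq
      exact hq.2
    · intro q hq q' hq' he
      rw [Finset.mem_coe, Finset.mem_filter, I_SUC.mem_nxt] at hq hq'
      have h4 := hq.1
      rw [he] at h4
      exact Prod.ext he (I_SUC.nxt_fst_inj h4 hq'.1)
  have hr : ((nxt (Z ∪ O)).filter fun q => q.2 ∈ O).card ≤ O.card := by
    apply Finset.card_le_card_of_injOn Prod.snd
    · intro q hq
      rw [Finset.mem_coe, Finset.mem_filter] at hq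
      exact hq.2
    · intro q hq q' hq' he
      rw [Finset.mem_coe, Finset.mem_filter, I_SUC.mem_nxt] at hq hq'
      have h4 := hq.1
      rw [he] at h4
      exact Prod.ext (I_SUC.nxt_snd_inj h4 hq'.1) he
  have hunion : nxt (Z ∪ O) ⊆ ((nxt (Z ∪ O)).filter fun q => q.1 ∈ Z ∧ q.2 ∈ Z) ∪
      (((nxt (Z ∪ O)).filter fun q => q.1 ∈ O) ∪ ((nxt (Z ∪ O)).filter fun q => q.2 ∈ O)) := by
    intro q hq
    have hq' := I_SUC.mem_nxt.mp hq
    have ha := Finset.mem_union.mp hq'.1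
    have hb := Finset.mem_union.mp hq'.2.1
    simp only [Finset.mem_union, Finset.mem_filter]
    tauto
  have hinter : ((nxt (Z ∪ O)).filter fun q => q.1 ∈ O) ∩
      ((nxt (Z ∪ O)).filter fun q => q.2 ∈ O) =
      (nxt (Z ∪ O)).filter fun q => q.1 ∈ O ∧ q.2 ∈ O := by
    ext q
    simp only [Finset.mem_inter, Finset.mem_filter]
    tauto
  have h3 := Finset.card_le_card hunion
  have h4 := Finset.card_union_le ((nxt (Z ∪ O)).filter fun q => q.1 ∈ Z ∧ q.2 ∈ Z)
      (((nxt (Z ∪ O)).filter fun q => q.1 ∈ O) ∪ ((nxt (Z ∪ O)).filter fun q => q.2 ∈ O))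
  have h5 := Finset.card_union_add_card_inter ((nxt (Z ∪ O)).filter fun q => q.1 ∈ O)
      ((nxt (Z ∪ O)).filter fun q => q.2 ∈ O)
  rw [hinter] at h5
  have h6 : (Z ∪ O).card = Z.card + O.card := Finset.card_union_of_disjoint (by assumption)
  omega

end Pool.Agent.Work.MP_b25393_ag.U
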