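import Pool.Agent.Work.MP_b25393_ag.U.Stmts

/-!
Item TAI of the block U of MP_b25393_ag: tail lines.
-/

set_option autoImplicit false

namespace Pool.Agent.Work.MP_b25393_ag.U

open scoped Classical

namespace I_TAI

/-- the constant -/
noncomputable def cst (S : Finset ℝ) : ℝ :=
  2 + ∑ q ∈ S ×ˢ (S ×ˢ S), 2 * |q.1 - q.2.1| / |q.1 - q.2.2|

theorem term_nonneg (q : ℝ × (ℝ × ℝ)) : 0 ≤ 2 * |q.1 - q.2.1| / |q.1 - q.2.2| :=
  div_nonneg (mul_nonneg (by norm_num) (abs_nonneg _)) (abs_nonneg _)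

theorem one_le_cst (S : Finset ℝ) : 1 ≤ cst S := by
  have h : 0 ≤ ∑ q ∈ S ×ˢ (S ×ˢ S), 2 * |q.1 - q.2.1| / |q.1 - q.2.2| :=
    Finset.sum_nonneg fun q _ => term_nonneg q
  unfold cst
  linarith

theorem lt_cst {S : Finset ℝ} {a b c : ℝ} (ha : a ∈ S) (hb : b ∈ S) (hc : c ∈ S) :
    2 * |a - b| / |a - c| < cst S - 1 := by
  have hm : ((a, (b, c)) : ℝ × (ℝ × ℝ)) ∈ S ×ˢ (S ×ˢ S) :=
    Finset.mem_product.2 ⟨ha, Finset.mem_product.2 ⟨hb, hc⟩⟩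
  have h := Finset.single_le_sum (f := fun q : ℝ × (ℝ × ℝ) => 2 * |q.1 - q.2.1| / |q.1 - q.2.2|)
    (fun q _ => term_nonneg q) hm
  have h' : 2 * |a - b| / |a - c| ≤
      ∑ q ∈ S ×ˢ (S ×ˢ S), 2 * |q.1 - q.2.1| / |q.1 - q.2.2| := h
  unfold cst
  linarith

theorem card_tail (S : Finset ℝ) (F : Finset (ℝ × ℝ)) (t : ℕ) (hS : ∀ l ∈ F, l.1 ∈ S)
    (ht : ∀ σ ∈ S, tai F σ 1 ≤ t) : (F.filter fun l => 1 < |l.2|).card ≤ S.card * t := by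
  have hmap : ∀ l ∈ F.filter (fun l => 1 < |l.2|), l.1 ∈ S :=
    fun l hl => hS l (Finset.mem_filter.1 hl).1
  rw [Finset.card_eq_sum_card_fiberwise hmap]
  have hle : ∀ σ ∈ S, ((F.filter fun l => 1 < |l.2|).filter fun l => l.1 = σ).card ≤ t := by
    intro σ hσ
    refine le_trans (Finset.card_le_card ?_) (ht σ hσ)
    intro l hl
    rw [Finset.mem_filter, Finset.mem_filter] at hl
    exact Finset.mem_filter.2 ⟨hl.1.1, hl.2, hl.1.2⟩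
  calc _ ≤ ∑ σ ∈ S, t := Finset.sum_le_sum hle
    _ = S.card * t := by rw [Finset.sum_const, smul_eq_mul]

theorem far {S : Finset ℝ} {σ₀ : ℝ} (hσ : σ₀ ∈ S) {c l : ℝ × ℝ} (hc : c.1 ∈ S) (hl : l.1 ∈ S)
    (hc0 : c.1 ≠ σ₀) (hl0 : l.1 ≠ σ₀) (hC : cst S < |c.2|) {x : ℝ} (hx : val l x = val c x)
    (h1 : -1 ≤ val c x - σ₀ * x) (h2 : val c x - σ₀ * x ≤ 1) : 1 < |l.2| := by
  have ha : 0 < |σ₀ - c.1| := abs_pos.2 (sub_ne_zero.2 (Ne.symm hc0))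
  have hb : 0 < |σ₀ - l.1| := abs_pos.2 (sub_ne_zero.2 (Ne.symm hl0))
  have hk := lt_cst hσ hc hl
  rw [div_lt_iff₀ hb] at hk
  have hC1 : 0 ≤ cst S - 1 := by have := one_le_cst S; linarith
  -- the distance of the abscissa
  have e1 : (σ₀ - c.1) * x = c.2 - (val c x - σ₀ * x) := by unfold val; ring
  have e2 : l.2 = (val c x - σ₀ * x) + (σ₀ - l.1) * x := by rw [← hx]; unfold val; ring
  have hbb : |val c x - σ₀ * x| ≤ 1 := abs_le.2 ⟨h1, h2⟩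
  have h3 : cst S - 1 < |σ₀ - c.1| * |x| := by
    rw [← abs_mul, e1]
    have := abs_sub_abs_le_abs_sub c.2 (val c x - σ₀ * x)
    linarith
  have h4 : 2 < |σ₀ - l.1| * |x| := by
    have h5 : 2 * |σ₀ - c.1| < (|σ₀ - l.1| * |x|) * |σ₀ - c.1| := by
      calc 2 * |σ₀ - c.1| < (cst S - 1) * |σ₀ - l.1| := hk
        _ ≤ (|σ₀ - c.1| * |x|) * |σ₀ - l.1| := mul_le_mul_of_nonneg_right h3.le hb.le
        _ = (|σ₀ - l.1| * |x|) * |σ₀ - c.1| := by ring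
    exact lt_of_mul_lt_mul_right h5 ha.le
  have h6 : |σ₀ - l.1| * |x| ≤ |l.2| + |val c x - σ₀ * x| := by
    rw [← abs_mul]
    have : (σ₀ - l.1) * x = l.2 - (val c x - σ₀ * x) := by rw [e2]; ring
    rw [this]
    exact abs_sub _ _
  linarith

end I_TAI

theorem TAI_pf (hBOX : S_BOX) : S_TAI := by
  intro S
  refine ⟨I_TAI.cst S, I_TAI.one_le_cst S, ?_⟩
  intro F t hS ht σ₀ hσ
  have h := hBOX F (F.filter fun l => l.1 ≠ σ₀ ∧ I_TAI.cst S < |l.2|) σ₀ (-1) 1 (S.card * t)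
    (Finset.filter_subset _ _) (by
      intro c hc
      rw [Finset.mem_filter] at hc
      refine ⟨hc.2.1, F.filter fun l => 1 < |l.2|, I_TAI.card_tail S F t hS ht, ?_⟩
      intro l hl _ hl0 x hx h1 h2
      exact Finset.mem_filter.2 ⟨hl, I_TAI.far hσ (hS c hc.1) (hS l hl) hc.2.1 hl0 hc.2.2 hx h1 h2⟩)
  push_cast at h
  exact h

end Pool.Agent.Work.MP_b25393_ag.U
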