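import Pool.Agent.Work.MP_b25393_ag.U.Stmts

/-!
Item TDD: the deficiency of `F` is the deficiency with walls of the transformed arrangement.
-/

set_option autoImplicit false

namespace Pool.Agent.Work.MP_b25393_ag.U

open scoped Classical

namespace I_TDD

theorem val_tl {σ : ℝ} {l : ℝ × ℝ} (h : l.1 ≠ σ) (x y : ℝ) :
    val (tl σ l) (y - σ * x) = x ↔ val l x = y := by
  have h' : l.1 - σ ≠ 0 := sub_ne_zero.mpr h
  have e : val (tl σ l) (y - σ * x) = (y - σ * x - l.2) / (l.1 - σ) := by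
    unfold val tl
    field_simp
    ring
  rw [e, div_eq_iff h']
  unfold val
  constructor
  · intro h1
    linarith
  · intro h1
    rw [← h1]
    ring

theorem tl_inj {σ : ℝ} {l m : ℝ × ℝ} (hl : l.1 ≠ σ) (hm : m.1 ≠ σ) (h : tl σ l = tl σ m) :
    l = m := by
  have hl' : l.1 - σ ≠ 0 := sub_ne_zero.mpr hl
  have hm' : m.1 - σ ≠ 0 := sub_ne_zero.mpr hm
  have h1 := congrArg Prod.fst h
  have h2 := congrArg Prod.snd h
  simp only [tl] at h1 h2
  have e1 : l.1 - σ = m.1 - σ := by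
    have := congrArg (fun t => 1 / t) h1
    simpa using this
  have e2 : l.1 = m.1 := by linarith
  rw [e1] at h2
  have e3 : -l.2 = -m.2 := by
    have := congrArg (fun t => t * (m.1 - σ)) h2
    simpa [div_mul_cancel₀ _ hm'] using this
  exact Prod.ext e2 (by linarith)

theorem injOn (F : Finset (ℝ × ℝ)) (σ : ℝ) :
    Set.InjOn (tl σ) (↑(F.filter fun l => l.1 ≠ σ) : Set (ℝ × ℝ)) := by
  intro l hl m hm h
  have hl2 := (Finset.mem_filter.mp (Finset.mem_coe.mp hl)).2
  have hm2 := (Finset.mem_filter.mp (Finset.mem_coe.mp hm)).2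
  exact tl_inj hl2 hm2 h

theorem card_tL (F : Finset (ℝ × ℝ)) (σ : ℝ) :
    (tL F σ).card = (F.filter fun l => l.1 ≠ σ).card :=
  Finset.card_image_of_injOn (injOn F σ)

theorem mem_cls {F : Finset (ℝ × ℝ)} {σ w : ℝ} : w ∈ cls F σ ↔ (σ, w) ∈ F := by
  unfold cls
  rw [Finset.mem_image]
  constructor
  · rintro ⟨l, hl, rfl⟩
    rw [Finset.mem_filter] at hl
    obtain ⟨h1, h2⟩ := hl
    rw [← h2]
    exact h1
  · intro h
    exact ⟨(σ, w), Finset.mem_filter.mpr ⟨h, rfl⟩, rfl⟩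

/-- multiplicities -/
theorem on_eq (F : Finset (ℝ × ℝ)) (σ x y : ℝ) :
    on F (x, y) = on (tL F σ) (y - σ * x, x) + (if y - σ * x ∈ cls F σ then 1 else 0) := by
  unfold on
  simp only
  rw [← Finset.card_filter_add_card_filter_not (s := F.filter fun l => val l x = y)
    (fun l : ℝ × ℝ => l.1 ≠ σ)]
  congr 1
  · unfold tL
    rw [Finset.filter_image]
    rw [Finset.card_image_of_injOn]
    · congr 1
      ext l
      simp only [Finset.mem_filter]
      constructor
      · rintro ⟨⟨h1, h2⟩, h3⟩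
        exact ⟨⟨h1, h3⟩, (val_tl h3 x y).mpr h2⟩
      · rintro ⟨⟨h1, h3⟩, h2⟩
        exact ⟨⟨h1, (val_tl h3 x y).mp h2⟩, h3⟩
    · intro l hl m hm h
      have hl2 := Finset.mem_filter.mp (Finset.mem_coe.mp hl)
      have hm2 := Finset.mem_filter.mp (Finset.mem_coe.mp hm)
      exact injOn F σ (Finset.mem_coe.mpr hl2.1) (Finset.mem_coe.mpr hm2.1) h
  · split_ifs with hw
    · rw [mem_cls] at hw
      rw [Finset.card_eq_one]
      refine ⟨(σ, y - σ * x), ?_⟩
      ext l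
      simp only [Finset.mem_filter, Finset.mem_singleton, not_not]
      constructor
      · rintro ⟨⟨h1, h2⟩, h3⟩
        refine Prod.ext h3 ?_
        unfold val at h2
        rw [h3] at h2
        simp only
        linarith
      · intro h
        subst h
        refine ⟨⟨hw, ?_⟩, rfl⟩
        unfold val
        simp only
        ring
    · rw [Finset.card_eq_zero]
      ext l
      simp only [Finset.mem_filter, not_not, Finset.notMem_empty, iff_false]
      rintro ⟨⟨h1, h2⟩, h3⟩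
      apply hw
      rw [mem_cls]
      have : l = (σ, y - σ * x) := by
        refine Prod.ext h3 ?_
        unfold val at h2
        rw [h3] at h2
        simp only
        linarith
      rw [← this]
      exact h1

theorem sum_on (L : Finset (ℝ × ℝ)) (w : ℝ) :
    ∑ y ∈ L.image (fun l => val l w), (on L (w, y) : ℤ) = (L.card : ℤ) := by
  rw [Finset.card_eq_sum_card_image (fun l => val l w) L]
  push_cast
  rfl

theorem one_le_on {L : Finset (ℝ × ℝ)} {w y : ℝ} :
    1 ≤ on L (w, y) ↔ y ∈ L.image (fun l => val l w) := by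
  unfold on
  rw [Nat.one_le_iff_ne_zero, Finset.card_ne_zero, Finset.mem_image]
  constructor
  · rintro ⟨l, hl⟩
    rw [Finset.mem_filter] at hl
    exact ⟨l, hl.1, hl.2⟩
  · rintro ⟨l, h1, h2⟩
    exact ⟨l, Finset.mem_filter.mpr ⟨h1, h2⟩⟩

theorem part1 (F : Finset (ℝ × ℝ)) (σ : ℝ) :
    ∑ p ∈ (vts F).filter (fun p => p.2 - σ * p.1 ∉ cls F σ), (3 - (on F p : ℤ)) =
      ∑ v ∈ (vts (tL F σ)).filter (fun v => v.1 ∉ cls F σ), (3 - (on (tL F σ) v : ℤ)) := by
  refine Finset.sum_nbij' (fun p => (p.2 - σ * p.1, p.1)) (fun v => (v.2, v.1 + σ * v.2))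
    ?_ ?_ ?_ ?_ ?_
  · rintro ⟨x, y⟩ hp
    rw [Finset.mem_filter, mem_vts] at hp ⊢
    obtain ⟨h1, h2⟩ := hp
    simp only at h2 ⊢
    rw [on_eq F σ, if_neg h2] at h1
    exact ⟨h1, h2⟩
  · rintro ⟨u, v⟩ hp
    rw [Finset.mem_filter, mem_vts] at hp ⊢
    obtain ⟨h1, h2⟩ := hp
    simp only at h1 h2 ⊢
    have e : u + σ * v - σ * v = u := by ring
    rw [on_eq F σ, e, if_neg h2]
    exact ⟨h1, h2⟩
  · rintro ⟨x, y⟩ _
    simp only
    refine Prod.ext rfl ?_
    simp only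
    ring
  · rintro ⟨u, v⟩ _
    simp only
    refine Prod.ext ?_ rfl
    simp only
    ring
  · rintro ⟨x, y⟩ hp
    rw [Finset.mem_filter] at hp
    have h2 : y - σ * x ∉ cls F σ := hp.2
    simp only
    rw [on_eq F σ x y, if_neg h2]
    simp

theorem part2 (F : Finset (ℝ × ℝ)) (σ : ℝ) :
    ∑ p ∈ (vts F).filter (fun p => ¬ (p.2 - σ * p.1 ∉ cls F σ)), (3 - (on F p : ℤ)) =
      ∑ w ∈ cls F σ, (2 * (nv (tL F σ) w : ℤ) - ((tL F σ).card : ℤ)) := by
  have h1 : ∀ w ∈ cls F σ, (2 * (nv (tL F σ) w : ℤ) - ((tL F σ).card : ℤ)) =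
      ∑ y ∈ (tL F σ).image (fun l => val l w), (2 - (on (tL F σ) (w, y) : ℤ)) := by
    intro w _
    rw [Finset.sum_sub_distrib, sum_on, Finset.sum_const, nsmul_eq_mul]
    unfold nv
    ring
  rw [Finset.sum_congr rfl h1, Finset.sum_sigma']
  refine Finset.sum_nbij' (fun p => (⟨p.2 - σ * p.1, p.1⟩ : Σ _ : ℝ, ℝ))
    (fun v => (v.2, v.1 + σ * v.2)) ?_ ?_ ?_ ?_ ?_
  · rintro ⟨x, y⟩ hp
    rw [Finset.mem_filter, mem_vts] at hp
    obtain ⟨h1, h2⟩ := hp
    simp only [not_not] at h2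
    rw [on_eq F σ, if_pos h2] at h1
    have h3 : 1 ≤ on (tL F σ) (y - σ * x, x) := by
      have h4 : 2 ≤ on (tL F σ) (y - σ * x, x) + 1 := h1
      omega
    rw [Finset.mem_sigma]
    exact ⟨h2, one_le_on.mp h3⟩
  · rintro ⟨u, v⟩ hp
    rw [Finset.mem_sigma] at hp
    obtain ⟨h1, h2⟩ := hp
    simp only at h1 h2 ⊢
    have e : u + σ * v - σ * v = u := by ring
    rw [Finset.mem_filter, mem_vts, on_eq F σ, e, if_pos h1]
    refine ⟨?_, by simpa using h1⟩
    have := one_le_on.mpr h2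
    omega
  · rintro ⟨x, y⟩ _
    simp only
    refine Prod.ext rfl ?_
    simp only
    ring
  · rintro ⟨u, v⟩ _
    simp only
    have e : u + σ * v - σ * v = u := by ring
    rw [e]
  · rintro ⟨x, y⟩ hp
    rw [Finset.mem_filter] at hp
    have h2 : y - σ * x ∈ cls F σ := by simpa using hp.2
    simp only
    rw [on_eq F σ x y, if_pos h2]
    push_cast
    ring

end I_TDD

open I_TDD in
/-- TDD -/
theorem TDD_pf : S_TDD := by
  intro F σ
  refine ⟨?_, card_tL F σ⟩
  unfold DD DW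
  rw [← Finset.sum_filter_add_sum_filter_not (vts F) (fun p => p.2 - σ * p.1 ∉ cls F σ),
    part1, part2]

end Pool.Agent.Work.MP_b25393_ag.U
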