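import Pool.Agent.Work.MP_b25393_ag.U.Stmts

/-!
# Invariance of the deficiency under homotheties
-/

set_option autoImplicit false

namespace Pool.Agent.Work.MP_b25393_ag.U

open scoped Classical

namespace I_TRN

/-- the map of the plane -/
noncomputable def T (x₀ y₀ lam : ℝ) (p : ℝ × ℝ) : ℝ × ℝ := (lam * (p.1 - x₀), lam * (p.2 - y₀))

theorem T_inj {x₀ y₀ lam : ℝ} (h : 0 < lam) : Function.Injective (T x₀ y₀ lam) := by
  intro p q hpq
  unfold T at hpq
  have h1 := congrArg Prod.fst hpq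
  have h2 := congrArg Prod.snd hpq
  simp only at h1 h2
  have h3 := mul_left_cancel₀ h.ne' h1
  have h4 := mul_left_cancel₀ h.ne' h2
  exact Prod.ext (by linarith) (by linarith)

theorem T_surj {x₀ y₀ lam : ℝ} (h : 0 < lam) (p : ℝ × ℝ) : ∃ q, T x₀ y₀ lam q = p := by
  have h' := h.ne'
  refine ⟨(p.1 / lam + x₀, p.2 / lam + y₀), ?_⟩
  unfold T
  refine Prod.ext ?_ ?_
  · simp only [add_sub_cancel_right]
    field_simp
  · simp only [add_sub_cancel_right]
    field_simp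

theorem tr_inj {x₀ y₀ lam : ℝ} (h : 0 < lam) : Function.Injective (tr x₀ y₀ lam) := by
  intro l m hlm
  unfold tr at hlm
  rw [Prod.mk.injEq] at hlm
  obtain ⟨h1, h2⟩ := hlm
  have h3 := mul_left_cancel₀ h.ne' h2
  rw [h1] at h3
  exact Prod.ext h1 (by linarith)

theorem val_tr (x₀ y₀ lam : ℝ) (l : ℝ × ℝ) (x : ℝ) :
    val (tr x₀ y₀ lam l) (lam * (x - x₀)) = lam * (val l x - y₀) := by
  unfold val tr
  ring

theorem on_tr {x₀ y₀ lam : ℝ} (h : 0 < lam) (F : Finset (ℝ × ℝ)) (p : ℝ × ℝ) :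
    on (F.image (tr x₀ y₀ lam)) (T x₀ y₀ lam p) = on F p := by
  unfold on
  rw [Finset.filter_image, Finset.card_image_of_injective _ (tr_inj h)]
  congr 1
  refine Finset.filter_congr fun l _ => ?_
  show val (tr x₀ y₀ lam l) (lam * (p.1 - x₀)) = lam * (p.2 - y₀) ↔ val l p.1 = p.2
  rw [val_tr]
  constructor
  · intro h1
    have h2 := mul_left_cancel₀ h.ne' h1
    linarith
  · intro h1
    rw [h1]

theorem vts_tr {x₀ y₀ lam : ℝ} (h : 0 < lam) (F : Finset (ℝ × ℝ)) :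
    vts (F.image (tr x₀ y₀ lam)) = (vts F).image (T x₀ y₀ lam) := by
  ext p
  obtain ⟨q, rfl⟩ := T_surj h p (x₀ := x₀) (y₀ := y₀)
  rw [mem_vts, on_tr h, ← mem_vts]
  constructor
  · intro hq
    exact Finset.mem_image_of_mem _ hq
  · intro hq
    obtain ⟨r, hr, hrq⟩ := Finset.mem_image.1 hq
    rwa [← T_inj h hrq]

end I_TRN

theorem TRN_pf : S_TRN := by
  intro F x₀ y₀ lam h
  refine ⟨?_, Finset.card_image_of_injective _ (I_TRN.tr_inj h)⟩
  unfold DD
  rw [I_TRN.vts_tr h, Finset.sum_image fun p _ q _ hpq => I_TRN.T_inj h hpq]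
  refine Finset.sum_congr rfl fun p _ => ?_
  rw [I_TRN.on_tr h]

end Pool.Agent.Work.MP_b25393_ag.U
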