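import Pool.Agent.Work.MP_b25393_ag.U.Stmts

/-! No point lies on lines of exactly two of the limit families. -/

set_option autoImplicit false

namespace Pool.Agent.Work.MP_b25393_ag.U

open scoped Classical

namespace I_TWO

theorem cnt_mono (F : Finset (ℝ × ℝ)) (σ u v u' v' : ℝ) (h1 : u' ≤ u) (h2 : v ≤ v') :
    cnt F σ u v ≤ cnt F σ u' v' := by
  unfold cnt
  apply Finset.card_le_card
  intro l hl
  rw [Finset.mem_filter] at hl ⊢
  exact ⟨hl.1, hl.2.1, h1.trans hl.2.2.1, hl.2.2.2.trans h2⟩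

/-- a common `η` for finitely many conditions -/
theorem common (S : Finset ℝ) (P : ℝ → ℝ → Prop)
    (hm : ∀ σ η η', 0 < η' → η' ≤ η → P σ η → P σ η') (h : ∀ σ ∈ S, ∃ η, 0 < η ∧ P σ η) :
    ∃ η, 0 < η ∧ ∀ σ ∈ S, P σ η := by
  induction S using Finset.induction_on with
  | empty => exact ⟨1, one_pos, fun σ hσ => absurd hσ (Finset.notMem_empty σ)⟩
  | insert s S hs ih =>
    obtain ⟨η₁, h1, h2⟩ := ih (fun σ hσ => h σ (Finset.mem_insert_of_mem hσ))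
    obtain ⟨η₂, h3, h4⟩ := h s (Finset.mem_insert_self s S)
    refine ⟨min η₁ η₂, lt_min h1 h3, ?_⟩
    intro σ hσ
    rcases Finset.mem_insert.1 hσ with rfl | hσ
    · exact hm _ _ _ (lt_min h1 h3) (min_le_right _ _) h4
    · exact hm _ _ _ (lt_min h1 h3) (min_le_left _ _) (h2 σ hσ)

theorem geo {σ₁ σ₂ σ₃ x y x' y' η' K : ℝ} (h12 : σ₁ ≠ σ₂)
    (h1 : |y' - σ₁ * x' - (y - σ₁ * x)| ≤ η') (h2 : |y' - σ₂ * x' - (y - σ₂ * x)| ≤ η')
    (hη : 0 ≤ η') (hK : 1 + 2 * |σ₁ - σ₃| / |σ₁ - σ₂| ≤ K) :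
    |y' - σ₃ * x' - (y - σ₃ * x)| ≤ K * η' := by
  have hd : 0 < |σ₁ - σ₂| := abs_pos.2 (sub_ne_zero.2 h12)
  have h3 : |(σ₁ - σ₂) * (x' - x)| ≤ 2 * η' := by
    have : (σ₁ - σ₂) * (x' - x) =
        (y' - σ₂ * x' - (y - σ₂ * x)) - (y' - σ₁ * x' - (y - σ₁ * x)) := by ring
    rw [this]
    refine (abs_sub _ _).trans ?_
    linarith
  rw [abs_mul] at h3
  have h4 : |x' - x| ≤ 2 * η' / |σ₁ - σ₂| := by
    rw [le_div_iff₀ hd]
    linarith
  have h5 : y' - σ₃ * x' - (y - σ₃ * x) =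
      (y' - σ₁ * x' - (y - σ₁ * x)) + (σ₁ - σ₃) * (x' - x) := by ring
  rw [h5]
  refine (abs_add_le _ _).trans ?_
  rw [abs_mul]
  have h6 : |σ₁ - σ₃| * |x' - x| ≤ |σ₁ - σ₃| * (2 * η' / |σ₁ - σ₂|) :=
    mul_le_mul_of_nonneg_left h4 (abs_nonneg _)
  have h7 : η' + |σ₁ - σ₃| * (2 * η' / |σ₁ - σ₂|) =
      (1 + 2 * |σ₁ - σ₃| / |σ₁ - σ₂|) * η' := by
    field_simp
  calc |y' - σ₁ * x' - (y - σ₁ * x)| + |σ₁ - σ₃| * |x' - x| ≤
      η' + |σ₁ - σ₃| * (2 * η' / |σ₁ - σ₂|) := add_le_add h1 h6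
    _ = (1 + 2 * |σ₁ - σ₃| / |σ₁ - σ₂|) * η' := h7
    _ ≤ K * η' := mul_le_mul_of_nonneg_right hK hη

/-- the third lines -/
noncomputable def third (F : Finset (ℝ × ℝ)) (S : Finset ℝ) (σ₁ σ₂ x y η : ℝ) :
    Finset (ℝ × ℝ) :=
  (S.filter fun s => s ≠ σ₁ ∧ s ≠ σ₂).biUnion fun s =>
    F.filter fun l => l.1 = s ∧ (y - s * x) - η ≤ l.2 ∧ l.2 ≤ (y - s * x) + η

end I_TWO

theorem TWO_pf (hBOX : S_BOX) : S_TWO := by
  intro S U F hS σ₁ hσ₁ σ₂ hσ₂ h12 x y hp1 hp2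
  by_contra hcon
  have hno : ∀ s ∈ S.filter (fun s => s ≠ σ₁ ∧ s ≠ σ₂), ∃ η, 0 < η ∧ ∀ a : ℝ, 0 < a →
      ∀ᶠ n in (U : Filter ℕ),
        (cnt (F n) s ((y - s * x) - η) ((y - s * x) + η) : ℝ) < a * ((F n).card : ℝ) := by
    intro s hs
    rw [Finset.mem_filter] at hs
    have h1 : ¬ Sp U F s (y - s * x) := fun h => hcon ⟨s, hs.1, hs.2.1, hs.2.2, h⟩
    unfold Sp at h1
    push Not at h1
    obtain ⟨η, hη, h2⟩ := h1
    exact ⟨η, hη, fun a ha => h2 a ha⟩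
  obtain ⟨η, hη, hall⟩ := I_TWO.common _ (fun s η => ∀ a : ℝ, 0 < a →
      ∀ᶠ n in (U : Filter ℕ),
        (cnt (F n) s ((y - s * x) - η) ((y - s * x) + η) : ℝ) < a * ((F n).card : ℝ))
    (by
      intro s η η' _ hle h a ha
      filter_upwards [h a ha] with n hn
      refine lt_of_le_of_lt ?_ hn
      exact_mod_cast I_TWO.cnt_mono _ _ _ _ _ _ (by linarith) (by linarith)) hno
  -- the constant `K`
  set M : ℝ := ∑ s ∈ S, |σ₁ - s| with hM
  have hd : 0 < |σ₁ - σ₂| := abs_pos.2 (sub_ne_zero.2 h12)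
  have hM0 : 0 ≤ M := Finset.sum_nonneg (fun s _ => abs_nonneg _)
  set K : ℝ := 1 + 2 * M / |σ₁ - σ₂| with hK
  have hK1 : 1 ≤ K := by
    rw [hK]
    have : 0 ≤ 2 * M / |σ₁ - σ₂| := by positivity
    linarith
  have hKs : ∀ s ∈ S, 1 + 2 * |σ₁ - s| / |σ₁ - σ₂| ≤ K := by
    intro s hs
    rw [hK]
    have : |σ₁ - s| ≤ M := Finset.single_le_sum (f := fun s => |σ₁ - s|)
      (fun i _ => abs_nonneg _) hs
    gcongr
  set η' : ℝ := η / K with hη'
  have hη'0 : 0 < η' := div_pos hη (by linarith)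
  have hKη : K * η' = η := by
    rw [hη']
    field_simp
  obtain ⟨a₁, ha₁, he1⟩ := hp1 η' hη'0
  obtain ⟨a₂, ha₂, he2⟩ := hp2 η' hη'0
  set a : ℝ := a₁ / (8 * ((S.card : ℝ) + 1)) with ha
  have ha0 : 0 < a := by positivity
  have haS : 2 * ((S.card : ℝ) * a) ≤ a₁ / 4 := by
    have h1 : (S.card : ℝ) * a ≤ ((S.card : ℝ) + 1) * a :=
      mul_le_mul_of_nonneg_right (by linarith) ha0.le
    have h2 : ((S.card : ℝ) + 1) * a = a₁ / 8 := by
      rw [ha]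
      field_simp
    linarith
  have he3 : ∀ᶠ n in (U : Filter ℕ), ∀ s ∈ S.filter (fun s => s ≠ σ₁ ∧ s ≠ σ₂),
      (cnt (F n) s ((y - s * x) - η) ((y - s * x) + η) : ℝ) < a * ((F n).card : ℝ) := by
    rw [Filter.eventually_all_finset]
    intro s hs
    exact hall s hs a ha0
  have he4 := hS.sl
  have he5 := hS.df (a₁ * a₂ / 8) (by positivity)
  obtain ⟨N₀, hN₀⟩ := exists_nat_ge (4 / a₁ + 8 / (a₁ * a₂) + 1)
  have he6 := hS.inf N₀
  obtain ⟨n, h1, h2, h3, h4, h5, h6⟩ := (he1.and (he2.and (he3.and (he4.and (he5.and he6))))).exists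
  set N : ℝ := ((F n).card : ℝ) with hN
  have hNN : 4 / a₁ + 8 / (a₁ * a₂) + 1 ≤ N := hN₀.trans (by rw [hN]; exact_mod_cast h6)
  have hp4 : 0 < 4 / a₁ := by positivity
  have hp8 : 0 < 8 / (a₁ * a₂) := by positivity
  have hN1 : 4 ≤ a₁ * N := by
    have : 4 / a₁ ≤ N := by linarith
    rw [div_le_iff₀ ha₁] at this
    linarith
  have hN2 : 8 ≤ a₁ * a₂ * N := by
    have : 8 / (a₁ * a₂) ≤ N := by linarith
    rw [div_le_iff₀ (by positivity)] at this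
    linarith
  have hN0 : 1 ≤ N := by linarith
  set t : ℕ := ⌊(S.card : ℝ) * (a * N)⌋₊ with ht
  have ht1 : (t : ℝ) ≤ (S.card : ℝ) * (a * N) := Nat.floor_le (by positivity)
  set B : Finset (ℝ × ℝ) := (F n).filter fun l => l.1 = σ₂ ∧ (y - σ₂ * x) - η' ≤ l.2 ∧
    l.2 ≤ (y - σ₂ * x) + η' with hB
  have hT : (I_TWO.third (F n) S σ₁ σ₂ x y η).card ≤ t := by
    rw [ht]
    apply Nat.le_floor
    have hc : ((I_TWO.third (F n) S σ₁ σ₂ x y η).card : ℝ) ≤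
        ∑ s ∈ S.filter (fun s => s ≠ σ₁ ∧ s ≠ σ₂),
          (cnt (F n) s ((y - s * x) - η) ((y - s * x) + η) : ℝ) := by
      unfold I_TWO.third cnt
      exact_mod_cast Finset.card_biUnion_le
    refine hc.trans ((Finset.sum_le_sum fun s hs => (h3 s hs).le).trans ?_)
    rw [Finset.sum_const, nsmul_eq_mul]
    have : ((S.filter (fun s => s ≠ σ₁ ∧ s ≠ σ₂)).card : ℝ) ≤ S.card := by
      exact_mod_cast Finset.card_filter_le _ _
    exact mul_le_mul_of_nonneg_right this (by positivity)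
  have hbox := hBOX (F n) B σ₁ ((y - σ₁ * x) - η') ((y - σ₁ * x) + η') t
    (Finset.filter_subset _ _) (by
      intro c hc
      rw [hB, Finset.mem_filter] at hc
      obtain ⟨hcF, hc1, hc2, hc3⟩ := hc
      refine ⟨by rw [hc1]; exact h12.symm, I_TWO.third (F n) S σ₁ σ₂ x y η, hT, ?_⟩
      intro l hl hlc hl1 x' hx' hu hv
      have hls := h4 l hl
      have hl2 : l.1 ≠ σ₂ := by
        rw [← hc1]
        exact slope_ne hlc hx'
      unfold I_TWO.third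
      rw [Finset.mem_biUnion]
      refine ⟨l.1, Finset.mem_filter.2 ⟨hls, hl1, hl2⟩, Finset.mem_filter.2 ⟨hl, rfl, ?_⟩⟩
      have hg := I_TWO.geo (σ₁ := σ₁) (σ₂ := σ₂) (σ₃ := l.1) (x := x) (y := y) (x' := x')
        (y' := val c x') (η' := η') (K := K) h12
        (abs_le.2 ⟨by linarith, by linarith⟩)
        (by
          have : val c x' - σ₂ * x' = c.2 := by
            unfold val
            rw [hc1]
            ring
          rw [this]
          exact abs_le.2 ⟨by linarith, by linarith⟩) hη'0.le (hKs _ hls)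
      rw [hKη] at hg
      have h7 : val c x' - l.1 * x' = l.2 := by
        rw [← hx']
        unfold val
        ring
      rw [h7] at hg
      have := abs_le.1 hg
      constructor <;> linarith)
  have hbox' : (B.card : ℝ) * ((cnt (F n) σ₁ ((y - σ₁ * x) - η') ((y - σ₁ * x) + η') : ℝ) - 1 -
      2 * t) ≤ (DD (F n) : ℝ) + N := by
    rw [hN]
    exact_mod_cast hbox
  have hBc : a₂ * N ≤ (B.card : ℝ) := h2
  have h8 : a₁ * N / 2 ≤ (cnt (F n) σ₁ ((y - σ₁ * x) - η') ((y - σ₁ * x) + η') : ℝ) - 1 -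
      2 * t := by
    have h9 : 2 * ((S.card : ℝ) * (a * N)) ≤ a₁ / 4 * N := by
      have := mul_le_mul_of_nonneg_right haS (by linarith : (0 : ℝ) ≤ N)
      linarith
    linarith
  have h10 : (a₂ * N) * (a₁ * N / 2) ≤ (DD (F n) : ℝ) + N := by
    refine le_trans ?_ hbox'
    exact mul_le_mul hBc h8 (by positivity) (by positivity)
  have h11 : N ≤ a₁ * a₂ / 8 * N ^ 2 := by nlinarith
  have h12' : 0 < a₁ * a₂ * N ^ 2 := by positivity
  nlinarith [h5, h10, h11, h12']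

end Pool.Agent.Work.MP_b25393_ag.U
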