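import Pool.Agent.Work.MP_b25393_ag.U.Stmts

set_option autoImplicit false

namespace Pool.Agent.Work.MP_b25393_ag.U

open scoped Classical

/-- consecutive pairs inside `[u, v]` -/
theorem CLCx_count (T : Finset ℝ) (hN : S_NXT) (u v : ℝ) :
    (T.filter fun t => u ≤ t ∧ t ≤ v).card ≤
      ((nxt T).filter fun q => u ≤ q.1 ∧ q.2 ≤ v).card + 1 := by
  set T' := T.filter fun t => u ≤ t ∧ t ≤ v with hT'
  rcases T'.eq_empty_or_nonempty with h | h
  · rw [h]
    simp
  · have h1 := (hN T').2.1 h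
    rw [← h1]
    have h2 : nxt T' ⊆ (nxt T).filter fun q => u ≤ q.1 ∧ q.2 ≤ v := by
      intro q hq
      unfold nxt at hq ⊢
      rw [Finset.mem_filter, Finset.mem_product] at hq
      obtain ⟨-, h3, h4, h5, h6⟩ := hq
      have h3' := Finset.mem_filter.mp h3
      have h4' := Finset.mem_filter.mp h4
      rw [Finset.mem_filter, Finset.mem_filter, Finset.mem_product]
      refine ⟨⟨⟨h3'.1, h4'.1⟩, h3'.1, h4'.1, h5, fun z hz hzz => ?_⟩, h3'.2.1, h4'.2.2⟩
      refine h6 z ?_ hzz
      rw [hT', Finset.mem_filter]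
      exact ⟨hz, h3'.2.1.trans hzz.1.le, hzz.2.le.trans h4'.2.2⟩
    exact Nat.add_le_add_right (Finset.card_le_card h2) 1

theorem CLC_pf' (hNXT : S_NXT) : S_CLC := by
  intro F σ u v c hc hcσ T hT
  have h1 : cnt F σ u v = ((cls F σ).filter fun t => u ≤ t ∧ t ≤ v).card := by
    unfold cnt cls
    rw [Finset.filter_image, Finset.card_image_of_injOn]
    · congr 1
      ext l
      simp only [Finset.mem_filter]
      tauto
    · intro l hl l' hl' h
      simp only [Finset.coe_filter, Finset.mem_filter, Set.mem_ofPred_eq] at hl hl'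
      exact Prod.ext (hl.1.2.trans hl'.1.2.symm) h
  have h2 := CLCx_count (cls F σ) hNXT u v
  rw [h1]
  -- the non clean pairs
  set A := (nxt (cls F σ)).filter fun q => u ≤ q.1 ∧ q.2 ≤ v with hA
  set B := (nxt (cls F σ)).filter fun q => u ≤ q.1 ∧ q.2 ≤ v ∧ ClF F σ c q.1 q.2 with hB
  have h3 : A ⊆ B ∪ T.biUnion fun l =>
      (nxt (cls F σ)).filter fun q => q.1 ≤ val c (crs l c).1 - σ * (crs l c).1 ∧
        val c (crs l c).1 - σ * (crs l c).1 ≤ q.2 := by
    intro q hq
    rw [hA, Finset.mem_filter] at hq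
    by_cases hcl : ClF F σ c q.1 q.2
    · exact Finset.mem_union_left _ (Finset.mem_filter.mpr ⟨hq.1, hq.2.1, hq.2.2, hcl⟩)
    · refine Finset.mem_union_right _ ?_
      unfold ClF at hcl
      push Not at hcl
      obtain ⟨l, hl, hlc, hlσ, x, hx, hx1, hx2⟩ := hcl
      have hs := slope_ne hlc hx
      have hxx := eq_crs hs hx
      rw [Finset.mem_biUnion]
      refine ⟨l, hT l hl hlc hlσ x hx (hq.2.1.trans hx1) (hx2.trans hq.2.2), ?_⟩
      rw [Finset.mem_filter, ← hxx]
      exact ⟨hq.1, hx1, hx2⟩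
  have h4 := Finset.card_le_card h3
  have h5 : (T.biUnion fun l =>
      (nxt (cls F σ)).filter fun q => q.1 ≤ val c (crs l c).1 - σ * (crs l c).1 ∧
        val c (crs l c).1 - σ * (crs l c).1 ≤ q.2).card ≤ T.card * 2 := by
    refine Finset.card_biUnion_le_card_mul _ _ _ fun l _ => ?_
    exact (hNXT (cls F σ)).2.2 _
  have h6 := Finset.card_union_le B (T.biUnion fun l =>
      (nxt (cls F σ)).filter fun q => q.1 ≤ val c (crs l c).1 - σ * (crs l c).1 ∧
        val c (crs l c).1 - σ * (crs l c).1 ≤ q.2)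
  omega

end Pool.Agent.Work.MP_b25393_ag.U
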