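import Pool.Agent.Work.MP_b25393_ag.U.Stmts

set_option autoImplicit false

namespace Pool.Agent.Work.MP_b25393_ag.U

open scoped Classical

theorem STC_pf' (hNXT : S_NXT) (hSTR : S_STR) (hCLG : S_CLG) : S_STC := by
  intro L W hL
  have h1 := hSTR L W hL
  have h2 := (hNXT W).1
  have h3 : ((L ×ˢ nxt W).filter fun q => Cln L q.1 q.2.1 q.2.2).card =
      ∑ p ∈ nxt W, (L.filter fun c => Cln L c p.1 p.2).card := by
    rw [Finset.card_filter, Finset.sum_product_right]
    refine Finset.sum_congr rfl fun p _ => ?_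
    rw [Finset.card_filter]
  have h4 : (nev L W).card =
      ∑ p ∈ nxt W, ((Finset.Ico 1 L.card).filter fun r => ∀ x, p.1 ≤ x → x ≤ p.2 →
        ¬ Cl L r x).card := by
    unfold nev
    rw [Finset.card_filter, Finset.sum_product_right]
    refine Finset.sum_congr rfl fun p _ => ?_
    rw [Finset.card_filter]
  have h5 : ∑ p ∈ nxt W, (L.filter fun c => Cln L c p.1 p.2).card ≤
      ∑ p ∈ nxt W, (((Finset.Ico 1 L.card).filter fun r => ∀ x, p.1 ≤ x → x ≤ p.2 →
        ¬ Cl L r x).card + 1) := by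
    refine Finset.sum_le_sum fun p hp => ?_
    have hp' : Nxt W p.1 p.2 := (Finset.mem_filter.mp hp).2
    exact hCLG L p.1 p.2 hp'.2.2.1.le
  rw [Finset.sum_add_distrib, ← h4, Finset.sum_const, smul_eq_mul, mul_one] at h5
  rw [h3]
  have h6 : ((∑ p ∈ nxt W, (L.filter fun c => Cln L c p.1 p.2).card : ℕ) : ℤ) ≤
      ((nev L W).card : ℤ) + (nxt W).card := by exact_mod_cast h5
  have h7 : ((nxt W).card : ℤ) ≤ W.card := by exact_mod_cast h2
  linarith

end Pool.Agent.Work.MP_b25393_ag.U
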