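import Pool.Agent.Work.MP_b25393_ag.U.ProjE
import Pool.Agent.Work.MP_b25393_ag.U.I_AFF
import Pool.Agent.Work.MP_b25393_ag.U.I_BDD
import Pool.Agent.Work.MP_b25393_ag.U.I_BOX
import Pool.Agent.Work.MP_b25393_ag.U.I_CHN
import Pool.Agent.Work.MP_b25393_ag.U.I_CLA
import Pool.Agent.Work.MP_b25393_ag.U.X_CLC
import Pool.Agent.Work.MP_b25393_ag.U.I_CLG
import Pool.Agent.Work.MP_b25393_ag.U.I_CLO
import Pool.Agent.Work.MP_b25393_ag.U.I_CNT
import Pool.Agent.Work.MP_b25393_ag.U.I_GEO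
import Pool.Agent.Work.MP_b25393_ag.U.I_GFI
import Pool.Agent.Work.MP_b25393_ag.U.I_GIN
import Pool.Agent.Work.MP_b25393_ag.U.I_LIM
import Pool.Agent.Work.MP_b25393_ag.U.I_MED
import Pool.Agent.Work.MP_b25393_ag.U.I_NRM
import Pool.Agent.Work.MP_b25393_ag.U.I_NXT
import Pool.Agent.Work.MP_b25393_ag.U.I_SCA
import Pool.Agent.Work.MP_b25393_ag.U.X_STC
import Pool.Agent.Work.MP_b25393_ag.U.I_STR
import Pool.Agent.Work.MP_b25393_ag.U.I_SUC
import Pool.Agent.Work.MP_b25393_ag.U.I_SUP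
import Pool.Agent.Work.MP_b25393_ag.U.I_TAI
import Pool.Agent.Work.MP_b25393_ag.U.I_TDD
import Pool.Agent.Work.MP_b25393_ag.U.I_TRN
import Pool.Agent.Work.MP_b25393_ag.U.I_TWO

/-! Block U: assembly. -/

set_option autoImplicit false

open scoped LinearAlgebra.Projectivization

namespace Pool.Agent.Work.MP_b25393_ag.U

open Pool.Agent.Work.MP_b25393_ag.Str
open scoped Classical

theorem STR_ok : S_STR := STR_pf SUC_pf CHN_pf CNT_pf
theorem STC_ok : S_STC := STC_pf' NXT_pf STR_ok CLG_pf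
theorem CLA_ok : S_CLA := CLA_pf STC_ok TDD_pf
theorem BOX_ok : S_BOX := BOX_pf CLA_ok (CLC_pf' NXT_pf)
theorem TAI_ok : S_TAI := TAI_pf BOX_ok
theorem BDD_ok : S_BDD := BDD_pf TAI_ok
theorem TWO_ok : S_TWO := TWO_pf BOX_ok
theorem GEO_ok : S_GEO := GEO_pf GFI_pf GIN_pf
theorem LIM_ok : S_LIM := LIM_pf SUP_pf CLO_pf TWO_ok BDD_ok GEO_ok
theorem NRM_ok : S_NRM := NRM_pf TRN_pf MED_pf SCA_pf
theorem AFF_ok : S_AFF := AFF_pf NRM_ok LIM_ok

theorem AffIn_ok : AffIn := AFF_ok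

universe u

/-- the theorem in terms of the shared definitions -/
theorem main_ok {k : Type u} [Field k] (σ : k →+* ℝ) (M : PP k) (Z : Finset (PP k))
    (hZ : ∀ z ∈ Z, inc z M) : ∃ ε : ℝ, 0 < ε ∧ ∃ d0 : ℕ, ∀ A : Finset (PP k), nondeg A →
      d0 ≤ A.card → ((A.filter fun L => ∀ z ∈ Z, ¬ inc z L).card : ℝ) ≤ ε * A.card →
      slope A ≤ 5 / 2 - ε := main_of AffIn_ok σ M Z hZ

end Pool.Agent.Work.MP_b25393_ag.U
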