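import Pool.Agent.Work.MP_b25393_ag.U.Stmts

set_option autoImplicit false

namespace Pool.Agent.Work.MP_b25393_ag.U

open scoped Classical

theorem GEO_pf (hGFI : S_GFI) (hGIN : S_GIN) : S_GEO := by
  intro P hP hfin hpq hnl
  by_cases hc : ∃ c : ℝ, {t : ℝ | (c, t) ∈ P}.Infinite
  · obtain ⟨c, hc⟩ := hc
    refine hGIN P hP hfin c hc ?_
    obtain ⟨p, hp, q, hq, hne⟩ := hpq
    by_cases h : p.1 = c
    · exact ⟨q, hq, fun h' => hne (h.trans h'.symm)⟩
    · exact ⟨p, hp, h⟩
  · have hc' : ∀ c : ℝ, {t : ℝ | (c, t) ∈ P}.Finite := fun c => by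
      by_contra h
      exact hc ⟨c, h⟩
    have hPf : P.Finite := by
      have hsub : P ⊆ ⋃ c ∈ Prod.fst '' P, (fun t => (c, t)) '' {t : ℝ | (c, t) ∈ P} := by
        intro p hp
        refine Set.mem_biUnion (Set.mem_image_of_mem _ hp) ?_
        exact ⟨p.2, hp, rfl⟩
      exact Set.Finite.subset (hfin.biUnion fun c _ => (hc' c).image _) hsub
    have h := hGFI hPf.toFinset
    simp only [Set.Finite.mem_toFinset] at h
    exact h hpq hnl

end Pool.Agent.Work.MP_b25393_ag.U
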