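import Pool.Agent.Work.MP_b25393_ag.U.X_STC

/-! Item STC (proof in `X_STC`). -/

set_option autoImplicit false

namespace Pool.Agent.Work.MP_b25393_ag.U

open scoped Classical

theorem STC_pf (hNXT : S_NXT) (hSTR : S_STR) (hCLG : S_CLG) : S_STC := STC_pf' hNXT hSTR hCLG

end Pool.Agent.Work.MP_b25393_ag.U
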