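import Pool.Agent.Work.MP_b25393_ag.U.Stmts

/-!
Mass has support (S_SUP).
-/

set_option autoImplicit false

namespace Pool.Agent.Work.MP_b25393_ag.U

open scoped Classical

namespace I_SUP

/-- The number of lines with offset in a covered interval. -/
theorem cnt_le_sum (F : Finset (ℝ × ℝ)) (σ u v : ℝ) (T : Finset ℝ) (η : ℝ → ℝ)
    (hT : ∀ b, u ≤ b → b ≤ v → ∃ t ∈ T, t - η t < b ∧ b < t + η t) :
    cnt F σ u v ≤ ∑ t ∈ T, cnt F σ (t - η t) (t + η t) := by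
  unfold cnt
  refine le_trans (Finset.card_le_card ?_) Finset.card_biUnion_le
  intro l hl
  rw [Finset.mem_filter] at hl
  obtain ⟨t, ht, h1, h2⟩ := hT l.2 hl.2.2.1 hl.2.2.2
  rw [Finset.mem_biUnion]
  exact ⟨t, ht, Finset.mem_filter.mpr ⟨hl.1, hl.2.1, h1.le, h2.le⟩⟩

end I_SUP

open I_SUP in
theorem SUP_pf : S_SUP := by
  intro U F σ u v a ha hF hc
  by_contra hno
  have hno' : ∀ t : ℝ, u ≤ t → t ≤ v → ∃ η : ℝ, 0 < η ∧ ∀ a' : ℝ, 0 < a' →
      ∀ᶠ n in (U : Filter ℕ), (cnt (F n) σ (t - η) (t + η) : ℝ) < a' * ((F n).card : ℝ) := by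
    intro t h1 h2
    have h3 : ¬ Sp U F σ t := fun h => hno ⟨t, h1, h2, h⟩
    unfold Sp at h3
    push Not at h3
    obtain ⟨η, hη, h4⟩ := h3
    refine ⟨η, hη, fun a' ha' => ?_⟩
    exact h4 a' ha'
  choose! η hη hcnt using hno'
  -- finite subcover
  obtain ⟨T, hTsub, hTcov⟩ := (isCompact_Icc (a := u) (b := v)).elim_nhds_subcover
    (fun t => Set.Ioo (t - η t) (t + η t)) (fun t ht => by
      apply Ioo_mem_nhds
      · have := hη t ht.1 ht.2; linarith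
      · have := hη t ht.1 ht.2; linarith)
  have hcov : ∀ b, u ≤ b → b ≤ v → ∃ t ∈ T, t - η t < b ∧ b < t + η t := by
    intro b h1 h2
    have := hTcov ⟨h1, h2⟩
    rw [Set.mem_iUnion₂] at this
    obtain ⟨t, ht, h3⟩ := this
    exact ⟨t, ht, h3.1, h3.2⟩
  have hpos : (0 : ℝ) < (T.card : ℝ) + 1 := by positivity
  have hev : ∀ᶠ n in (U : Filter ℕ), ∀ t ∈ T,
      (cnt (F n) σ (t - η t) (t + η t) : ℝ) < a / ((T.card : ℝ) + 1) * ((F n).card : ℝ) := by
    rw [Filter.eventually_all_finset]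
    intro t ht
    have h1 := hTsub t ht
    exact hcnt t h1.1 h1.2 _ (div_pos ha hpos)
  obtain ⟨n, h1, h2, h3⟩ := (hF.and (hc.and hev)).exists
  have h4 := cnt_le_sum (F n) σ u v T η hcov
  have h5 : (cnt (F n) σ u v : ℝ) ≤ ∑ t ∈ T, (cnt (F n) σ (t - η t) (t + η t) : ℝ) := by
    exact_mod_cast h4
  have h6 : ∑ t ∈ T, (cnt (F n) σ (t - η t) (t + η t) : ℝ) ≤
      T.card • (a / ((T.card : ℝ) + 1) * ((F n).card : ℝ)) :=
    Finset.sum_le_card_nsmul _ _ _ fun t ht => (h3 t ht).le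
  have h7 : (0 : ℝ) < ((F n).card : ℝ) := by
    have : (1 : ℝ) ≤ ((F n).card : ℝ) := by exact_mod_cast h1
    linarith
  have h8 : (T.card : ℝ) * (a / ((T.card : ℝ) + 1) * ((F n).card : ℝ)) <
      a * ((F n).card : ℝ) := by
    have : (T.card : ℝ) * (a / ((T.card : ℝ) + 1) * ((F n).card : ℝ)) =
        (a * ((F n).card : ℝ)) * ((T.card : ℝ) / ((T.card : ℝ) + 1)) := by ring
    rw [this]
    have h9 : (T.card : ℝ) / ((T.card : ℝ) + 1) < 1 := by
      rw [div_lt_one hpos]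
      linarith
    have h10 : 0 < a * ((F n).card : ℝ) := mul_pos ha h7
    calc (a * ((F n).card : ℝ)) * ((T.card : ℝ) / ((T.card : ℝ) + 1))
        < (a * ((F n).card : ℝ)) * 1 := mul_lt_mul_of_pos_left h9 h10
      _ = a * ((F n).card : ℝ) := mul_one _
  rw [nsmul_eq_mul] at h6
  linarith

end Pool.Agent.Work.MP_b25393_ag.U
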