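import Pool.Agent.Work.MP_b25393_ag.Str.Count

/-! Block U, projective part: the defect `Del A = ∑ (3 - mult)`, adding lines, pencils. -/

set_option autoImplicit false

open scoped LinearAlgebra.Projectivization

namespace Pool.Agent.Work.MP_b25393_ag.U

open Projectivization Matrix Filter Topology Pool.Agent.Work.MP_b25393_ag.Str
open scoped Classical

variable {F : Type*} [Field F]

/-- The defect. -/
noncomputable def Del (A : Finset (PP F)) : ℝ := ∑ p ∈ verts A, (3 - (mult A p : ℝ))

lemma Del_eq (A : Finset (PP F)) : Del A = 3 * f0 A - f1 A := by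
  unfold Del f0 f1
  rw [Finset.sum_sub_distrib, Finset.sum_const, nsmul_eq_mul]
  push_cast
  ring

lemma CC_eq (A : Finset (PP F)) : CC A = 3 - 2 * A.card + ∑ p ∈ verts A, ((mult A p : ℝ) - 1) := by
  rw [← f1_sub_f0]
  unfold CC
  ring

lemma CC_le (A : Finset (PP F)) (hA : 3 ≤ A.card) : 2 * CC A ≤ (A.card : ℝ) ^ 2 := by
  have h0 : (3 : ℝ) ≤ A.card := by exact_mod_cast hA
  have h1 : ∑ p ∈ verts A, ((mult A p : ℝ) - 1) ≤ (A.card : ℝ) * (A.card - 1) / 2 := by
    have h := sum_mult A
    have h4 : ∀ n : ℕ, ((n * (n - 1) : ℕ) : ℝ) = (n : ℝ) * (n - 1) := by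
      intro n
      rcases Nat.eq_zero_or_pos n with h0 | h0
      · simp [h0]
      · rw [Nat.cast_mul, Nat.cast_sub h0]
        simp
    rw [← h4, ← h, Nat.cast_sum, Finset.sum_div]
    refine Finset.sum_le_sum fun p hp => ?_
    have h5 := mem_verts.mp hp
    have h6 : (2 : ℝ) ≤ mult A p := by exact_mod_cast h5
    rw [h4]
    nlinarith
  rw [CC_eq]
  nlinarith

lemma slope_eq_sub (A : Finset (PP F)) (hA : nondeg A) :
    slope A = 5 / 2 - (Del A - 3) / (2 * CC A) := by
  have h := (CC_pos A hA).ne'
  have h2 : slope A = ((9 : ℝ) - 5 * A.card + 3 * f1 A - 4 * f0 A) / CC A := rfl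
  rw [h2, Del_eq, div_eq_iff h]
  have h3 : (3 * (f0 A : ℝ) - f1 A - 3) / (2 * CC A) * CC A = (3 * (f0 A : ℝ) - f1 A - 3) / 2 := by
    field_simp
  rw [sub_mul, h3]
  unfold CC
  ring

/-- a quadratic lower bound for the defect gives the slope bound -/
lemma slope_le (A : Finset (PP F)) (hA : nondeg A) (c : ℝ) (hD : c * (A.card : ℝ) ^ 2 + 3 ≤ Del A)
    (hc : 0 ≤ c) : slope A ≤ 5 / 2 - c := by
  have h1 := CC_pos A hA
  have h2 := CC_le A hA.1
  rw [slope_eq_sub A hA]
  have h3 : c ≤ (Del A - 3) / (2 * CC A) := by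
    rw [le_div_iff₀ (by positivity)]
    have := mul_le_mul_of_nonneg_left h2 hc
    linarith
  linarith

/-- the number of vertices of `A` on a line outside `A` -/
lemma card_on_le {A : Finset (PP F)} {L : PP F} (hL : L ∉ A) :
    ((verts A).filter (fun p => inc p L)).card ≤ A.card := by
  -- choose a line through each vertex
  have hex : ∀ p ∈ (verts A).filter (fun p => inc p L), ∃ M ∈ A, inc p M := by
    intro p hp
    have h1 := mem_verts.mp (Finset.mem_filter.mp hp).1
    obtain ⟨M, hM⟩ := Finset.card_pos.mp (show 0 < (A.filter (fun L => inc p L)).card by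
      change 0 < mult A p
      omega)
    exact ⟨M, (Finset.mem_filter.mp hM).1, (Finset.mem_filter.mp hM).2⟩
  choose! g hg1 hg2 using hex
  refine Finset.card_le_card_of_injOn g (fun p hp => hg1 p hp) ?_
  intro p hp q hq hpq
  have hp' := Finset.mem_coe.mp hp
  have hq' := Finset.mem_coe.mp hq
  have hne : g p ≠ L := by
    intro h
    exact hL (h ▸ hg1 p hp')
  have h3 : inc q (g p) := by
    have h3 := hg2 q hq'
    rw [← hpq] at h3
    exact h3
  exact point_unique hne (hg2 p hp') (Finset.mem_filter.mp hp').2 h3 (Finset.mem_filter.mp hq').2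

/-- ADD -/
lemma Del_insert {A : Finset (PP F)} {L : PP F} (hL : L ∉ A) :
    Del A - A.card ≤ Del (insert L A) := by
  have hsub : verts A ⊆ verts (insert L A) := by
    intro p hp
    rw [mem_verts] at hp ⊢
    rw [mult_insert hL]
    omega
  have h1 : Del (insert L A) = ∑ p ∈ verts A, (3 - (mult (insert L A) p : ℝ)) +
      ∑ p ∈ verts (insert L A) \ verts A, (3 - (mult (insert L A) p : ℝ)) := by
    unfold Del
    rw [add_comm, Finset.sum_sdiff hsub]
  have h2 : 0 ≤ ∑ p ∈ verts (insert L A) \ verts A, (3 - (mult (insert L A) p : ℝ)) := by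
    refine Finset.sum_nonneg fun p hp => ?_
    rw [Finset.mem_sdiff, mem_verts, mem_verts] at hp
    have h3 : mult (insert L A) p ≤ 2 := by
      rw [mult_insert hL]
      split_ifs <;> omega
    have h4 : (mult (insert L A) p : ℝ) ≤ 2 := by exact_mod_cast h3
    linarith
  have h3 : ∑ p ∈ verts A, (3 - (mult (insert L A) p : ℝ)) =
      Del A - ((verts A).filter (fun p => inc p L)).card := by
    unfold Del
    have h4 : (((verts A).filter (fun p => inc p L)).card : ℝ) =
        ∑ p ∈ verts A, (if inc p L then (1 : ℝ) else 0) := by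
      rw [Finset.card_filter]
      push_cast
      rfl
    rw [h4, ← Finset.sum_sub_distrib]
    refine Finset.sum_congr rfl fun p _ => ?_
    rw [mult_insert hL]
    split_ifs <;> push_cast <;> ring
  have h4 : (((verts A).filter (fun p => inc p L)).card : ℝ) ≤ A.card := by
    exact_mod_cast card_on_le hL
  rw [h1, h3]
  linarith

/-- adding several lines -/
lemma Del_union (A B : Finset (PP F)) (hAB : Disjoint A B) :
    Del A - (B.card : ℝ) * (A.card + B.card) ≤ Del (A ∪ B) := by
  induction B using Finset.induction_on with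
  | empty => simp
  | insert L B hL ih =>
    rw [Finset.disjoint_insert_right] at hAB
    have h1 := ih hAB.2
    have hLu : L ∉ A ∪ B := by
      rw [Finset.mem_union]
      tauto
    have h2 := Del_insert hLu
    rw [Finset.card_union_of_disjoint hAB.2] at h2
    rw [Finset.union_insert, Finset.card_insert_of_notMem hL]
    push_cast at h2 ⊢
    nlinarith

/-- NP: a point on at least three quarters of the lines -/
lemma slope_of_pencil (A : Finset (PP F)) (hA : nondeg A) (P : PP F)
    (hP : 3 * (A.card : ℝ) / 4 ≤ mult A P) : slope A ≤ 9 / 4 := by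
  have h0 := hA.1
  have hnd := hA.2 P
  have hoff := card_off A P
  have hP2 : 2 ≤ mult A P := by
    have h1 : (2 : ℝ) < mult A P + 1 := by
      have : (3 : ℝ) ≤ A.card := by exact_mod_cast h0
      linarith
    have h2 : 2 < mult A P + 1 := by exact_mod_cast h1
    omega
  have h1 := CC_ge A P hP2
  have h2 := EE_le A P hP2
  have h3 := CC_pos A hA
  have hd : (A.card : ℝ) = mult A P + (off A P).card := by exact_mod_cast hoff.symm
  have hj : (2 : ℝ) ≤ (off A P).card := by
    have : 2 ≤ (off A P).card := by omega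
    exact_mod_cast this
  rw [slope_eq_two_add A hA]
  have h4 : EE A / CC A ≤ 1 / 4 := by
    rw [div_le_iff₀ h3]
    rw [hd] at hP
    set k : ℝ := (mult A P : ℝ)
    set j : ℝ := ((off A P).card : ℝ)
    have h5 : 3 * j ≤ k := by linarith
    nlinarith
  linarith

end Pool.Agent.Work.MP_b25393_ag.U
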