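import Pool.Agent.Work.MP_b25393_ag.U.ProjT
import Pool.Agent.Work.MP_b25393_ag.U.Defs

/-! Block U, projective part: affine families as projective arrangements. -/

set_option autoImplicit false

open scoped LinearAlgebra.Projectivization

namespace Pool.Agent.Work.MP_b25393_ag.U

open Projectivization Matrix Filter Topology Pool.Agent.Work.MP_b25393_ag.Str
open scoped Classical

/-- The line `y = s x + b`. -/
noncomputable def ln (l : ℝ × ℝ) : PP ℝ := mk ℝ ![-l.1, 1, -l.2] (by
  intro h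
  have := congrFun h 1
  simp at this)

/-- The affine point. -/
noncomputable def aff (p : ℝ × ℝ) : PP ℝ := mk ℝ ![p.1, p.2, 1] (by
  intro h
  have := congrFun h 2
  simp at this)

lemma inc_aff_ln (p l : ℝ × ℝ) : inc (aff p) (ln l) ↔ val l p.1 = p.2 := by
  unfold aff ln
  rw [inc_mk_mk, Fin.sum_univ_three]
  simp only [Matrix.cons_val_zero, Matrix.cons_val_one, Matrix.cons_val_two, Matrix.head_cons,
    Matrix.tail_cons]
  unfold val
  constructor
  · intro h
    linarith
  · intro h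
    linarith

lemma inc_dir_ln (s : ℝ) (l : ℝ × ℝ) : inc (dir s) (ln l) ↔ l.1 = s := by
  unfold dir ln
  rw [inc_mk_mk, Fin.sum_univ_three]
  simp only [Matrix.cons_val_zero, Matrix.cons_val_one, Matrix.cons_val_two, Matrix.head_cons,
    Matrix.tail_cons]
  constructor
  · intro h
    linarith
  · intro h
    linarith

lemma ln_injective : Function.Injective ln := by
  intro l m h
  unfold ln at h
  rw [mk_eq_mk_iff'] at h
  obtain ⟨c, hc⟩ := h
  have h0 := congrFun hc 0
  have h1 := congrFun hc 1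
  have h2 := congrFun hc 2
  simp at h0 h1 h2
  rw [h1] at h0 h2
  refine Prod.ext ?_ ?_ <;> linarith

lemma aff_injective : Function.Injective aff := by
  intro l m h
  unfold aff at h
  rw [mk_eq_mk_iff'] at h
  obtain ⟨c, hc⟩ := h
  have h0 := congrFun hc 0
  have h1 := congrFun hc 1
  have h2 := congrFun hc 2
  simp at h0 h1 h2
  rw [h2] at h0 h1
  refine Prod.ext ?_ ?_ <;> linarith

lemma dir_injective : Function.Injective dir := by
  intro l m h
  unfold dir at h
  rw [mk_eq_mk_iff'] at h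
  obtain ⟨c, hc⟩ := h
  have h0 := congrFun hc 0
  have h1 := congrFun hc 1
  simp at h0 h1
  rw [h0] at h1
  linarith

lemma aff_ne_dir (p : ℝ × ℝ) (s : ℝ) : aff p ≠ dir s := by
  intro h
  unfold aff dir at h
  rw [mk_eq_mk_iff'] at h
  obtain ⟨c, hc⟩ := h
  have h2 := congrFun hc 2
  simp at h2

/-- a line through `(1 : s : 0)` which is not the line at infinity is affine, of slope `s` -/
lemma eq_ln {L : PP ℝ} {s : ℝ} (h : inc (dir s) L) (hL : L ≠ inft) :
    ∃ b : ℝ, L = ln (s, b) := by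
  have h1 : inc (mk ℝ ![1, s, 0] (by
      intro h
      have := congrFun h 0
      simp at this)) (mk ℝ L.rep L.rep_nonzero) := by
    rw [L.mk_rep]
    exact h
  rw [inc_mk_mk, Fin.sum_univ_three] at h1
  simp only [Matrix.cons_val_zero, Matrix.cons_val_one, Matrix.cons_val_two, Matrix.head_cons,
    Matrix.tail_cons] at h1
  have hb : L.rep 1 ≠ 0 := by
    intro h0
    apply hL
    have h2 : L.rep 0 = 0 := by
      rw [h0] at h1
      linarith
    rw [← L.mk_rep]
    unfold inft
    rw [mk_eq_mk_iff']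
    refine ⟨L.rep 2, ?_⟩
    funext i
    fin_cases i
    · simp [h2]
    · simp [h0]
    · simp
  refine ⟨-L.rep 2 / L.rep 1, ?_⟩
  conv => lhs; rw [← L.mk_rep]
  unfold ln
  rw [mk_eq_mk_iff']
  refine ⟨L.rep 1, ?_⟩
  funext i
  fin_cases i
  · simp
    linarith
  · simp
  · simp
    field_simp

lemma mult_aff (F : Finset (ℝ × ℝ)) (p : ℝ × ℝ) : mult (F.image ln) (aff p) = on F p := by
  unfold mult on
  rw [Finset.filter_image, Finset.card_image_of_injective _ ln_injective]
  congr 1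
  ext l
  simp only [Finset.mem_filter, inc_aff_ln]

lemma mult_dir (F : Finset (ℝ × ℝ)) (s : ℝ) :
    mult (F.image ln) (dir s) = (F.filter fun l => l.1 = s).card := by
  unfold mult
  rw [Finset.filter_image, Finset.card_image_of_injective _ ln_injective]
  congr 1
  ext l
  simp only [Finset.mem_filter, inc_dir_ln]

lemma verts_ln (F : Finset (ℝ × ℝ)) : verts (F.image ln) = (vts F).image aff ∪
    ((F.image Prod.fst).filter fun s => 2 ≤ (F.filter fun l => l.1 = s).card).image dir := by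
  ext p
  constructor
  · intro hp
    unfold verts at hp
    obtain ⟨⟨L, L'⟩, hL, rfl⟩ := Finset.mem_image.mp hp
    obtain ⟨h1, h2, h3⟩ := Finset.mem_offDiag.mp hL
    obtain ⟨l, hl, rfl⟩ := Finset.mem_image.mp h1
    obtain ⟨m, hm, rfl⟩ := Finset.mem_image.mp h2
    have hlm : l ≠ m := fun h => h3 (by rw [h])
    rw [Finset.mem_union]
    by_cases h : l.1 = m.1
    · right
      have h4 : meet (ln l) (ln m) = dir l.1 :=
        meet_eq h3 ((inc_dir_ln _ _).mpr rfl) ((inc_dir_ln _ _).mpr h.symm)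
      refine Finset.mem_image.mpr ⟨l.1, Finset.mem_filter.mpr
        ⟨Finset.mem_image_of_mem _ hl, ?_⟩, h4.symm⟩
      have : 1 < (F.filter fun l' => l'.1 = l.1).card := by
        rw [Finset.one_lt_card]
        exact ⟨l, Finset.mem_filter.mpr ⟨hl, rfl⟩, m, Finset.mem_filter.mpr ⟨hm, h.symm⟩, hlm⟩
      exact this
    · left
      have h4 : meet (ln l) (ln m) = aff (crs l m) :=
        meet_eq h3 ((inc_aff_ln _ _).mpr (val_crs_left l m))
          ((inc_aff_ln _ _).mpr (val_crs_right h))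
      refine Finset.mem_image.mpr ⟨crs l m, ?_, h4.symm⟩
      unfold vts
      exact Finset.mem_image.mpr ⟨(l, m), Finset.mem_filter.mpr
        ⟨Finset.mem_offDiag.mpr ⟨hl, hm, hlm⟩, h⟩, rfl⟩
  · intro hp
    rw [mem_verts]
    rcases Finset.mem_union.mp hp with h | h
    · obtain ⟨v, hv, rfl⟩ := Finset.mem_image.mp h
      rw [mult_aff]
      exact mem_vts.mp hv
    · obtain ⟨s, hs, rfl⟩ := Finset.mem_image.mp h
      rw [mult_dir]
      exact (Finset.mem_filter.mp hs).2

/-- **EMB** -/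
theorem Del_ln (F : Finset (ℝ × ℝ)) : (DD F : ℝ) - F.card ≤ Del (F.image ln) := by
  unfold Del
  rw [verts_ln, Finset.sum_union]
  · rw [Finset.sum_image (fun x _ y _ h => aff_injective h),
      Finset.sum_image (fun x _ y _ h => dir_injective h)]
    have h1 : ∑ x ∈ vts F, (3 - (mult (F.image ln) (aff x) : ℝ)) = (DD F : ℝ) := by
      unfold DD
      push_cast
      exact Finset.sum_congr rfl fun v _ => by rw [mult_aff]
    rw [h1]
    obtain ⟨S, hS⟩ : ∃ S : Finset ℝ, S = (F.image Prod.fst).filter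
      fun s => 2 ≤ (F.filter fun l => l.1 = s).card := ⟨_, rfl⟩
    rw [← hS]
    have h2 : ∑ s ∈ S, ((F.filter fun l => l.1 = s).card : ℝ) ≤ F.card := by
      have h3 : ∑ s ∈ S, (F.filter fun l => l.1 = s).card ≤ F.card := by
        have h4 : F.card = ∑ s ∈ F.image Prod.fst, (F.filter fun l => l.1 = s).card :=
          Finset.card_eq_sum_card_fiberwise fun l hl => Finset.mem_coe.2
            (Finset.mem_image_of_mem _ (Finset.mem_coe.1 hl))
        rw [h4]
        exact Finset.sum_le_sum_of_subset (by rw [hS]; exact Finset.filter_subset _ _)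
      exact_mod_cast h3
    have h3 : -(∑ s ∈ S, ((F.filter fun l => l.1 = s).card : ℝ)) ≤
        ∑ s ∈ S, (3 - (mult (F.image ln) (dir s) : ℝ)) := by
      rw [← Finset.sum_neg_distrib]
      refine Finset.sum_le_sum fun s _ => ?_
      rw [mult_dir]
      linarith
    linarith
  · rw [Finset.disjoint_left]
    intro p hp hp'
    obtain ⟨v, _, rfl⟩ := Finset.mem_image.mp hp
    obtain ⟨s, _, h⟩ := Finset.mem_image.mp hp'
    exact aff_ne_dir v s h.symm

/-- The affine input. -/
def AffIn : Prop := ∀ (S : Finset ℝ) (dl : ℝ), 0 < dl → ∃ e : ℝ, 0 < e ∧ ∃ N0 : ℕ,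
  ∀ F : Finset (ℝ × ℝ), (∀ l ∈ F, l.1 ∈ S) → N0 ≤ F.card →
    (∀ s ∈ S, ((F.filter fun l => l.1 = s).card : ℝ) ≤ (1 - dl) * F.card) →
    e * (F.card : ℝ) ^ 2 ≤ (DD F : ℝ)

variable {k : Type*} [Field k]

/-- **RES**: the projective theorem. -/
theorem main_of (hA : AffIn) (σ : k →+* ℝ) (M : PP k) (Z : Finset (PP k))
    (hZ : ∀ z ∈ Z, inc z M) : ∃ ε : ℝ, 0 < ε ∧ ∃ d0 : ℕ, ∀ A : Finset (PP k), nondeg A →
      d0 ≤ A.card → ((A.filter fun L => ∀ z ∈ Z, ¬ inc z L).card : ℝ) ≤ ε * A.card →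
      slope A ≤ 5 / 2 - ε := by
  obtain ⟨T, hT, hTM, hTZ⟩ := exists_emb σ M Z hZ
  obtain ⟨S, hS⟩ : ∃ S : Finset ℝ, ∀ s, s ∈ S ↔ dir s ∈ Z.image T := by
    refine ⟨(Z.image T).preimage dir dir_injective.injOn, fun s => ?_⟩
    rw [Finset.mem_preimage]
  obtain ⟨e, he, N0, hN⟩ := hA S (1 / 8) (by norm_num)
  obtain ⟨c, hc⟩ : ∃ c : ℝ, c = min e 1 := ⟨_, rfl⟩
  have hc0 : 0 < c := by rw [hc]; exact lt_min he one_pos
  have hce : c ≤ e := by rw [hc]; exact min_le_left _ _
  have hc1 : c ≤ 1 := by rw [hc]; exact min_le_right _ _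
  obtain ⟨N1, hN1⟩ := exists_nat_ge (200 / c)
  refine ⟨c / 16, by positivity, max (2 * N0) N1, fun A hA0 hd hfew => ?_⟩
  have hd1 : (2 * N0 : ℝ) ≤ A.card := by exact_mod_cast (le_max_left _ _).trans hd
  have hd2 : 200 / c ≤ A.card := hN1.trans (by exact_mod_cast (le_max_right _ _).trans hd)
  have hd3 : 200 ≤ c * A.card := by
    rw [div_le_iff₀ hc0] at hd2
    linarith
  obtain ⟨d, hdd⟩ : ∃ d : ℝ, d = (A.card : ℝ) := ⟨_, rfl⟩
  rw [← hdd] at hd1 hd2 hd3 hfew
  have hd200 : 200 ≤ d := by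
    have h1 : c * d ≤ d := by
      have : 0 ≤ d := by rw [hdd]; positivity
      nlinarith
    linarith
  -- the image arrangement
  obtain ⟨A', hA'⟩ : ∃ A' : Finset (PP ℝ), A' = A.image T := ⟨_, rfl⟩
  have hcard : (A'.card : ℝ) = d := by rw [hA', hT.card, hdd]
  have hnd : nondeg A' := hA' ▸ hT.nondeg A hA0
  rw [← hT.slope A, ← hA']
  -- pencils
  by_cases hpen : ∃ P : PP ℝ, 3 * (A'.card : ℝ) / 4 ≤ mult A' P
  · obtain ⟨P, hP⟩ := hpen
    have h1 := slope_of_pencil A' hnd P hP
    linarith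
  push Not at hpen
  -- the affine part
  obtain ⟨F, hF⟩ : ∃ F : Finset (ℝ × ℝ), ∀ l, l ∈ F ↔ l.1 ∈ S ∧ ln l ∈ A' := by
    refine ⟨(A'.preimage ln ln_injective.injOn).filter fun l => l.1 ∈ S, fun l => ?_⟩
    rw [Finset.mem_filter, Finset.mem_preimage]
    tauto
  have hFsub : F.image ln ⊆ A' := by
    intro L hL
    obtain ⟨l, hl, rfl⟩ := Finset.mem_image.mp hL
    exact ((hF l).mp hl).2
  have hFcard : (F.image ln).card = F.card := Finset.card_image_of_injective _ ln_injective
  -- the rest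
  obtain ⟨B, hB⟩ : ∃ B : Finset (PP ℝ), B = A' \ F.image ln := ⟨_, rfl⟩
  have hBcard : (B.card : ℝ) ≤ c / 16 * d + 1 := by
    have h1 : B ⊆ insert inft ((A.filter fun L => ∀ z ∈ Z, ¬ inc z L).image T) := by
      intro L hL
      rw [hB, Finset.mem_sdiff] at hL
      obtain ⟨hL1, hL2⟩ := hL
      rw [hA'] at hL1
      obtain ⟨K, hK, rfl⟩ := Finset.mem_image.mp hL1
      by_cases hinf : T K = inft
      · rw [hinf]
        exact Finset.mem_insert_self _ _
      · refine Finset.mem_insert_of_mem (Finset.mem_image_of_mem _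
          (Finset.mem_filter.mpr ⟨hK, fun z hz hzK => ?_⟩))
        obtain ⟨s, hs⟩ := hTZ z hz
        have h2 : inc (dir s) (T K) := by
          rw [← hs]
          exact (hT.inc z K).mpr hzK
        obtain ⟨b, hb⟩ := eq_ln h2 hinf
        apply hL2
        rw [hb]
        refine Finset.mem_image_of_mem _ ((hF (s, b)).mpr ⟨?_, ?_⟩)
        · rw [hS, ← hs]
          exact Finset.mem_image_of_mem _ hz
        · rw [hA', ← hb]
          exact Finset.mem_image_of_mem _ hK
    have h2 : B.card ≤ (A.filter fun L => ∀ z ∈ Z, ¬ inc z L).card + 1 := by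
      refine (Finset.card_le_card h1).trans ((Finset.card_insert_le _ _).trans ?_)
      exact Nat.add_le_add_right Finset.card_image_le 1
    have h3 : (B.card : ℝ) ≤ ((A.filter fun L => ∀ z ∈ Z, ¬ inc z L).card : ℝ) + 1 := by
      exact_mod_cast h2
    linarith
  have hsum : (F.card : ℝ) + B.card = d := by
    have h1 : B.card + (F.image ln).card = A'.card := by
      rw [hB]
      exact Finset.card_sdiff_add_card_eq_card hFsub
    have h2 : (B.card : ℝ) + (F.image ln).card = A'.card := by exact_mod_cast h1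
    rw [hFcard, hcard] at h2
    linarith
  have hFbig : 7 / 8 * d ≤ F.card := by nlinarith
  have hNF : N0 ≤ F.card := by
    have : (N0 : ℝ) ≤ F.card := by linarith
    exact_mod_cast this
  have hcls : ∀ s ∈ S, ((F.filter fun l => l.1 = s).card : ℝ) ≤ (1 - 1 / 8) * F.card := by
    intro s _
    have h1 : mult (F.image ln) (dir s) ≤ mult A' (dir s) := by
      unfold mult
      exact Finset.card_le_card (Finset.filter_subset_filter _ hFsub)
    rw [mult_dir] at h1
    have h2 : ((F.filter fun l => l.1 = s).card : ℝ) ≤ mult A' (dir s) := by exact_mod_cast h1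
    have h3 := hpen (dir s)
    rw [hcard] at h3
    linarith
  have hDD := hN F (fun l hl => ((hF l).mp hl).1) hNF hcls
  have hE := Del_ln F
  have hU := Del_union (F.image ln) B (by rw [hB]; exact Finset.disjoint_sdiff)
  have hAB : F.image ln ∪ B = A' := by
    rw [hB]
    exact Finset.union_sdiff_of_subset hFsub
  rw [hAB, hFcard, hsum] at hU
  apply slope_le A' hnd (c / 16) _ (by positivity)
  rw [hcard]
  -- numbers
  have hx : (F.card : ℝ) ≤ d := by
    have : (0 : ℝ) ≤ B.card := by positivity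
    linarith
  have h1 : e * (F.card : ℝ) ^ 2 ≤ Del A' + F.card + B.card * d := by linarith
  have h2 : c * (7 / 8 * d) ^ 2 ≤ e * (F.card : ℝ) ^ 2 := by
    have h3 : (7 / 8 * d) ^ 2 ≤ (F.card : ℝ) ^ 2 := by
      apply pow_le_pow_left₀ (by linarith) hFbig
    have h4 : 0 ≤ (F.card : ℝ) ^ 2 := by positivity
    calc c * (7 / 8 * d) ^ 2 ≤ c * (F.card : ℝ) ^ 2 := mul_le_mul_of_nonneg_left h3 hc0.le
      _ ≤ e * (F.card : ℝ) ^ 2 := mul_le_mul_of_nonneg_right hce h4
  have h3 : (B.card : ℝ) * d ≤ (c / 16 * d + 1) * d :=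
    mul_le_mul_of_nonneg_right hBcard (by linarith)
  nlinarith

end Pool.Agent.Work.MP_b25393_ag.U
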