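import Pool.Agent.Work.MP_b25393_ag.U.ProjA

/-! Block U, projective part: transport of arrangements to the real plane in good position. -/

set_option autoImplicit false

open scoped LinearAlgebra.Projectivization

namespace Pool.Agent.Work.MP_b25393_ag.U

open Projectivization Matrix Filter Topology Pool.Agent.Work.MP_b25393_ag.Str
open scoped Classical

variable {k F : Type*} [Field k] [Field F]

/-- An incidence preserving injection of planes. -/
structure IsEmb (T : PP k → PP F) : Prop where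
  inj : Function.Injective T
  inc : ∀ p L : PP k, inc (T p) (T L) ↔ inc p L

lemma IsEmb.mult {T : PP k → PP F} (hT : IsEmb T) (A : Finset (PP k)) (p : PP k) :
    mult (A.image T) (T p) = mult A p := by
  unfold Str.mult
  rw [Finset.filter_image, Finset.card_image_of_injective _ hT.inj]
  congr 1
  ext L
  simp only [Finset.mem_filter, hT.inc]

lemma IsEmb.verts {T : PP k → PP F} (hT : IsEmb T) (A : Finset (PP k)) :
    verts (A.image T) = (verts A).image T := by
  ext q
  constructor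
  · intro hq
    unfold Str.verts at hq
    obtain ⟨⟨L, L'⟩, hL, rfl⟩ := Finset.mem_image.mp hq
    obtain ⟨h1, h2, h3⟩ := Finset.mem_offDiag.mp hL
    obtain ⟨M, hM, rfl⟩ := Finset.mem_image.mp h1
    obtain ⟨M', hM', rfl⟩ := Finset.mem_image.mp h2
    have hne : M ≠ M' := fun h => h3 (by rw [h])
    have h4 : meet (T M) (T M') = T (meet M M') :=
      meet_eq h3 ((hT.inc _ _).mpr (meet_inc_left hne)) ((hT.inc _ _).mpr (meet_inc_right hne))
    refine Finset.mem_image.mpr ⟨meet M M', ?_, h4.symm⟩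
    unfold Str.verts
    exact Finset.mem_image.mpr ⟨(M, M'), Finset.mem_offDiag.mpr ⟨hM, hM', hne⟩, rfl⟩
  · intro hq
    obtain ⟨p, hp, rfl⟩ := Finset.mem_image.mp hq
    rw [mem_verts] at hp ⊢
    rw [hT.mult]
    exact hp

lemma IsEmb.card {T : PP k → PP F} (hT : IsEmb T) (A : Finset (PP k)) :
    (A.image T).card = A.card := Finset.card_image_of_injective _ hT.inj

lemma IsEmb.f0 {T : PP k → PP F} (hT : IsEmb T) (A : Finset (PP k)) :
    f0 (A.image T) = f0 A := by
  unfold Str.f0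
  rw [hT.verts, Finset.card_image_of_injective _ hT.inj]

lemma IsEmb.f1 {T : PP k → PP F} (hT : IsEmb T) (A : Finset (PP k)) :
    f1 (A.image T) = f1 A := by
  unfold Str.f1
  rw [hT.verts, Finset.sum_image (fun x _ y _ h => hT.inj h)]
  exact Finset.sum_congr rfl fun p _ => hT.mult A p

lemma IsEmb.slope {T : PP k → PP F} (hT : IsEmb T) (A : Finset (PP k)) :
    slope (A.image T) = slope A := by
  unfold Str.slope
  rw [hT.f0, hT.f1, hT.card]

lemma IsEmb.nondeg {T : PP k → PP F} (hT : IsEmb T) (A : Finset (PP k)) (hA : nondeg A) :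
    nondeg (A.image T) := by
  refine ⟨by rw [hT.card]; exact hA.1, fun q => ?_⟩
  rw [hT.card]
  by_cases hq : q ∈ Str.verts (A.image T)
  · rw [hT.verts] at hq
    obtain ⟨p, _, rfl⟩ := Finset.mem_image.mp hq
    rw [hT.mult]
    exact hA.2 p
  · rw [mem_verts] at hq
    have := hA.1
    omega

/-- The line at infinity `(0 : 0 : 1)`. -/
noncomputable def inft : PP ℝ := mk ℝ ![0, 0, 1] (by
  intro h
  have := congrFun h 2
  simp at this)

/-- The point `(1 : s : 0)`. -/
noncomputable def dir (s : ℝ) : PP ℝ := mk ℝ ![1, s, 0] (by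
  intro h
  have := congrFun h 0
  simp at this)

/-- every line has infinitely many points -/
lemma exists_on (M : PP ℝ) (Z : Finset (PP ℝ)) : ∃ Q : PP ℝ, inc Q M ∧ Q ∉ Z := by
  -- the points meet M (gn x)
  by_contra hcon
  push Not at hcon
  have h1 : ∀ x : ℝ, gn x ≠ M → meet M (gn x) ∈ Z := fun x hx => hcon _ (meet_inc_left hx.symm)
  have h2 : (⋃ p ∈ Z, {x : ℝ | inc p (gn x)}).Finite :=
    Set.Finite.biUnion (Finset.finite_toSet _) (fun p _ => finite_inc_gn p)
  have h3 : {x : ℝ | gn x = M}.Finite := by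
    have : {x : ℝ | gn x = M} = gn ⁻¹' {M} := rfl
    rw [this]
    exact Set.Finite.preimage gn_injective.injOn (Set.finite_singleton M)
  obtain ⟨x, hx⟩ := (h2.union h3).exists_notMem
  simp only [Set.mem_union, not_or, Set.mem_iUnion, not_exists] at hx
  have hx2 : gn x ≠ M := hx.2
  exact hx.1 _ (h1 x hx2) (meet_inc_right hx2.symm)

lemma cross_map (σ : k →+* ℝ) (v w : Fin 3 → k) :
    (fun i => σ (v i)) ⨯₃ (fun i => σ (w i)) = fun i => σ ((v ⨯₃ w) i) := by
  rw [cross_apply, cross_apply]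
  funext i
  fin_cases i <;> simp

lemma sum_map (σ : k →+* ℝ) (v w : Fin 3 → k) :
    ∑ i, σ (v i) * σ (w i) = σ (∑ i, v i * w i) := by
  rw [map_sum]
  exact Finset.sum_congr rfl fun i _ => (map_mul σ _ _).symm

/-- **TRA**: transport to the real plane, with a given line at infinity and given points at
infinity which are not vertical. -/
theorem exists_emb (σ : k →+* ℝ) (M : PP k) (Z : Finset (PP k)) (hZ : ∀ z ∈ Z, inc z M) :
    ∃ T : PP k → PP ℝ, IsEmb T ∧ T M = inft ∧ ∀ z ∈ Z, ∃ s : ℝ, T z = dir s := by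
  -- base change
  have hne : ∀ p : PP k, (fun i => σ (p.rep i)) ≠ 0 := by
    intro p h
    apply p.rep_nonzero
    funext i
    have := congrFun h i
    simpa using this
  obtain ⟨B, hB⟩ : ∃ B : PP k → PP ℝ, B = fun p => mk ℝ (fun i => σ (p.rep i)) (hne p) :=
    ⟨_, rfl⟩
  obtain ⟨Q, hQM, hQZ⟩ := exists_on (B M) (Z.image B)
  -- the orthogonal frame
  obtain ⟨m, hm⟩ : ∃ m : Fin 3 → ℝ, m = fun i => σ (M.rep i) := ⟨_, rfl⟩
  obtain ⟨q, hq⟩ : ∃ q : Fin 3 → ℝ, q = Q.rep := ⟨_, rfl⟩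
  have hm0 : m ≠ 0 := hm ▸ hne M
  have hq0 : q ≠ 0 := hq ▸ Q.rep_nonzero
  have hqm : q ⬝ᵥ m = 0 := by
    have h1 : inc (mk ℝ q hq0) (mk ℝ m hm0) := by
      have h2 : mk ℝ q hq0 = Q := by
        subst hq
        exact Q.mk_rep
      have h3 : mk ℝ m hm0 = B M := by
        subst hm
        rw [hB]
      rw [h2, h3]
      exact hQM
    rw [inc_mk_mk] at h1
    exact h1
  have hnorm : ∀ v : Fin 3 → ℝ, v ≠ 0 → 0 < v ⬝ᵥ v := by
    intro v hv
    have h1 : 0 ≤ v ⬝ᵥ v := by
      unfold dotProduct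
      exact Finset.sum_nonneg fun i _ => mul_self_nonneg _
    rcases h1.lt_or_eq with h | h
    · exact h
    · exact absurd (dotProduct_self_eq_zero.mp h.symm) hv
  have hmm := hnorm m hm0
  have hqq := hnorm q hq0
  -- the map v ↦ ((q × m)·v / (|q||m|), q·v/|q|, m·v/|m|); we use the scaled version
  obtain ⟨a, ha⟩ : ∃ a : ℝ, a = Real.sqrt (q ⬝ᵥ q) := ⟨_, rfl⟩
  obtain ⟨b, hb⟩ : ∃ b : ℝ, b = Real.sqrt (m ⬝ᵥ m) := ⟨_, rfl⟩
  have ha0 : 0 < a := by rw [ha]; exact Real.sqrt_pos.mpr hqq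
  have hb0 : 0 < b := by rw [hb]; exact Real.sqrt_pos.mpr hmm
  have haa : a * a = q ⬝ᵥ q := by rw [ha]; exact Real.mul_self_sqrt hqq.le
  have hbb : b * b = m ⬝ᵥ m := by rw [hb]; exact Real.mul_self_sqrt hmm.le
  obtain ⟨O, hO⟩ : ∃ O : (Fin 3 → ℝ) → (Fin 3 → ℝ), O = fun v =>
      ![(q ⨯₃ m) ⬝ᵥ v, b * (q ⬝ᵥ v), a * (m ⬝ᵥ v)] := ⟨_, rfl⟩
  -- O preserves dot products up to the factor a² b²
  have hOdot : ∀ v w : Fin 3 → ℝ, ∑ i, O v i * O w i = a ^ 2 * b ^ 2 * ∑ i, v i * w i := by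
    intro v w
    have e1 : q 0 * m 0 + q 1 * m 1 + q 2 * m 2 = 0 := by
      have := hqm
      simpa [dotProduct, Fin.sum_univ_three] using this
    have e2 : a * a = q 0 * q 0 + q 1 * q 1 + q 2 * q 2 := by
      rw [haa]
      simp [dotProduct, Fin.sum_univ_three]
    have e3 : b * b = m 0 * m 0 + m 1 * m 1 + m 2 * m 2 := by
      rw [hbb]
      simp [dotProduct, Fin.sum_univ_three]
    rw [hO]
    simp only [Fin.sum_univ_three, cross_apply, dotProduct, Matrix.cons_val_zero,
      Matrix.cons_val_one, Matrix.cons_val_two, Matrix.head_cons, Matrix.tail_cons]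
    have e4 : a ^ 2 = q 0 * q 0 + q 1 * q 1 + q 2 * q 2 := by rw [pow_two]; exact e2
    have e5 : b ^ 2 = m 0 * m 0 + m 1 * m 1 + m 2 * m 2 := by rw [pow_two]; exact e3
    have key : ((q 1 * m 2 - q 2 * m 1) * v 0 + (q 2 * m 0 - q 0 * m 2) * v 1 +
        (q 0 * m 1 - q 1 * m 0) * v 2) * ((q 1 * m 2 - q 2 * m 1) * w 0 +
        (q 2 * m 0 - q 0 * m 2) * w 1 + (q 0 * m 1 - q 1 * m 0) * w 2) +
        b ^ 2 * ((q 0 * v 0 + q 1 * v 1 + q 2 * v 2) * (q 0 * w 0 + q 1 * w 1 + q 2 * w 2)) +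
        a ^ 2 * ((m 0 * v 0 + m 1 * v 1 + m 2 * v 2) * (m 0 * w 0 + m 1 * w 1 + m 2 * w 2)) =
        a ^ 2 * b ^ 2 * (v 0 * w 0 + v 1 * w 1 + v 2 * w 2) := by
      rw [e4, e5]
      linear_combination (-(q 0 * m 0 + q 1 * m 1 + q 2 * m 2) *
          (v 0 * w 0 + v 1 * w 1 + v 2 * w 2) +
          (m 0 * w 0 + m 1 * w 1 + m 2 * w 2) * (q 0 * v 0 + q 1 * v 1 + q 2 * v 2) +
          (q 0 * w 0 + q 1 * w 1 + q 2 * w 2) * (m 0 * v 0 + m 1 * v 1 + m 2 * v 2)) * e1
    linear_combination key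
  have hab : 0 < a ^ 2 * b ^ 2 := by positivity
  have hOne : ∀ v : Fin 3 → ℝ, v ≠ 0 → O v ≠ 0 := by
    intro v hv h
    have h1 := hOdot v v
    rw [h] at h1
    simp only [Pi.zero_apply, mul_zero, Finset.sum_const_zero] at h1
    have h2 := hnorm v hv
    have h3 : (∑ i, v i * v i) = v ⬝ᵥ v := rfl
    rw [h3] at h1
    have := mul_pos hab h2
    linarith
  -- linearity
  have hOlin : ∀ (c : ℝ) (v : Fin 3 → ℝ), O (c • v) = c • O v := by
    intro c v
    rw [hO]
    funext i
    fin_cases i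
    · simp [dotProduct_smul]
    · simp [dotProduct_smul]
      ring
    · simp [dotProduct_smul]
      ring
  have hOsub : ∀ v w : Fin 3 → ℝ, O (v - w) = O v - O w := by
    intro v w
    rw [hO]
    funext i
    fin_cases i
    · simp [dotProduct_sub]
    · simp [dotProduct_sub]
      ring
    · simp [dotProduct_sub]
      ring
  obtain ⟨T, hT⟩ : ∃ T : PP k → PP ℝ, T = fun p => mk ℝ (O (fun i => σ (p.rep i)))
      (hOne _ (hne p)) := ⟨_, rfl⟩
  have hTinc : ∀ p L : PP k, inc (T p) (T L) ↔ inc p L := by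
    intro p L
    rw [hT]
    simp only []
    rw [inc_mk_mk, hOdot, sum_map]
    constructor
    · intro h
      have h1 := (mul_eq_zero.mp h).resolve_left hab.ne'
      exact (map_eq_zero σ).mp h1
    · intro h
      have h1 : ∑ i, p.rep i * L.rep i = 0 := h
      rw [h1, map_zero, mul_zero]
  have hTinj : Function.Injective T := by
    intro p r hpr
    rw [hT] at hpr
    simp only [] at hpr
    rw [mk_eq_mk_iff'] at hpr
    obtain ⟨c, hc⟩ := hpr
    by_contra hne'
    rw [← Ne, ← cross_ne_zero_iff] at hne'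
    apply hne'
    have h1 : O (c • (fun i => σ (r.rep i)) - fun i => σ (p.rep i)) = 0 := by
      rw [hOsub, hOlin, hc, sub_self]
    have h2 : c • (fun i => σ (r.rep i)) - (fun i => σ (p.rep i)) = 0 := by
      by_contra h3
      exact hOne _ h3 h1
    have h3 : (fun i => σ (p.rep i)) = c • fun i => σ (r.rep i) := (sub_eq_zero.mp h2).symm
    have h4 := cross_map σ p.rep r.rep
    have h5 : (fun i => σ (p.rep i)) ⨯₃ (fun i => σ (r.rep i)) = 0 := by
      rw [h3, map_smul, LinearMap.smul_apply, _root_.cross_self, smul_zero]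
    rw [h5] at h4
    funext i
    have h6 := congrFun h4 i
    exact (map_eq_zero σ).mp h6.symm
  refine ⟨T, ⟨hTinj, hTinc⟩, ?_, ?_⟩
  · -- the line
    have h1 : O m = ![0, 0, a * (m ⬝ᵥ m)] := by
      rw [hO]
      simp only []
      have e1 : (q ⨯₃ m) ⬝ᵥ m = 0 := by
        rw [dotProduct_comm]
        exact dot_cross_self q m
      rw [e1, hqm, mul_zero]
    rw [hT]
    simp only [← hm]
    unfold inft
    rw [mk_eq_mk_iff']
    refine ⟨a * (m ⬝ᵥ m), ?_⟩
    rw [h1]
    funext i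
    fin_cases i <;> simp
  · intro z hz
    obtain ⟨v, hv⟩ : ∃ v : Fin 3 → ℝ, v = fun i => σ (z.rep i) := ⟨_, rfl⟩
    have hv0 : v ≠ 0 := hv ▸ hne z
    have hmv : m ⬝ᵥ v = 0 := by
      have h1 : ∑ i, z.rep i * M.rep i = 0 := hZ z hz
      have h2 := sum_map σ z.rep M.rep
      rw [h1, map_zero] at h2
      rw [dotProduct_comm, hv, hm]
      exact h2
    have hvQ : (q ⨯₃ m) ⬝ᵥ v ≠ 0 := by
      intro h0
      -- then v is parallel to q
      apply hQZ
      rw [Finset.mem_image]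
      refine ⟨z, hz, ?_⟩
      rw [hB]
      simp only [← hv]
      have h1 : Q = mk ℝ q hq0 := by
        subst hq
        exact Q.mk_rep.symm
      rw [h1]
      apply eq_of_cross_eq_zero
      -- v × q is orthogonal to v, q, and parallel to m
      have h2 : O v = (b * (q ⬝ᵥ v)) • ![(0 : ℝ), 1, 0] := by
        rw [hO]
        simp only []
        rw [h0, hmv, mul_zero]
        funext i
        fin_cases i <;> simp
      have h3 : O q = (b * (q ⬝ᵥ q)) • ![(0 : ℝ), 1, 0] := by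
        rw [hO]
        simp only []
        have e1 : (q ⨯₃ m) ⬝ᵥ q = 0 := by
          rw [dotProduct_comm]
          exact dot_self_cross q m
        rw [e1, dotProduct_comm m q, hqm, mul_zero]
        funext i
        fin_cases i <;> simp
      have h4 : O ((q ⬝ᵥ q) • v - (q ⬝ᵥ v) • q) = 0 := by
        rw [hOsub, hOlin, hOlin, h2, h3]
        funext i
        fin_cases i
        · simp
        · simp
          ring
        · simp
      have h5 : (q ⬝ᵥ q) • v - (q ⬝ᵥ v) • q = 0 := by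
        by_contra h6
        exact hOne _ h6 h4
      have h6 : (q ⬝ᵥ q) • v = (q ⬝ᵥ v) • q := sub_eq_zero.mp h5
      have h7 : (q ⬝ᵥ q) • (v ⨯₃ q) = 0 := by
        have h8 : ((q ⬝ᵥ q) • v) ⨯₃ q = 0 := by
          rw [h6, map_smul, LinearMap.smul_apply, _root_.cross_self, smul_zero]
        rw [map_smul, LinearMap.smul_apply] at h8
        exact h8
      exact (smul_eq_zero.mp h7).resolve_left hqq.ne'
    refine ⟨b * (q ⬝ᵥ v) / ((q ⨯₃ m) ⬝ᵥ v), ?_⟩
    rw [hT]
    simp only [← hv]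
    unfold dir
    rw [mk_eq_mk_iff']
    refine ⟨(q ⨯₃ m) ⬝ᵥ v, ?_⟩
    rw [hO]
    funext i
    fin_cases i
    · simp
    · simp only [Fin.mk_one, Pi.smul_apply, Matrix.cons_val_one, Matrix.cons_val_zero, smul_eq_mul]
      field_simp
    · simp [hmv]

end Pool.Agent.Work.MP_b25393_ag.U
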